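import Pool.Agent.Y157.PS.Stm

/-! # Tools: Gauss valuations, roots of unity, places above a point -/

set_option autoImplicit false
set_option linter.all false

open Polynomial FF

namespace Pool.Agent.Y157.PS

section units

variable {K : Type} [Field K] {V : ValuationSubring K}

theorem IsU.mul {x y : K} (hx : IsU V x) (hy : IsU V y) : IsU V (x * y) :=
  ⟨mul_ne_zero hx.1 hy.1, mul_mem hx.2.1 hy.2.1, by rw [mul_inv]; exact mul_mem hx.2.2 hy.2.2⟩

theorem IsU.inv {x : K} (hx : IsU V x) : IsU V x⁻¹ :=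
  ⟨inv_ne_zero hx.1, hx.2.2, by rw [inv_inv]; exact hx.2.1⟩

theorem IsU.div {x y : K} (hx : IsU V x) (hy : IsU V y) : IsU V (x / y) := by
  rw [div_eq_mul_inv]
  exact hx.mul hy.inv

theorem isU_one : IsU V (1 : K) := ⟨one_ne_zero, one_mem _, by rw [inv_one]; exact one_mem _⟩

theorem nonunits_iff {x : K} : x ∈ V.nonunits ↔ x ∈ V ∧ (x = 0 ∨ x⁻¹ ∉ V) := by
  rw [ValuationSubring.mem_nonunits_iff]
  constructor
  · intro h
    refine ⟨(V.valuation_le_one_iff x).1 h.le, ?_⟩
    by_cases hx : x = 0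
    · exact Or.inl hx
    · right
      intro hi
      have h1 := (V.valuation_le_one_iff x⁻¹).2 hi
      have h2 : V.valuation x * V.valuation x⁻¹ = 1 := by
        rw [← map_mul, mul_inv_cancel₀ hx, map_one]
      have h3 : V.valuation x * V.valuation x⁻¹ < 1 := by
        calc V.valuation x * V.valuation x⁻¹ ≤ V.valuation x * 1 := by gcongr
          _ = V.valuation x := mul_one _
          _ < 1 := h
      exact h3.ne h2
  · rintro ⟨h1, h2⟩
    refine lt_of_le_of_ne ((V.valuation_le_one_iff x).2 h1) ?_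
    intro h3
    rcases h2 with h2 | h2
    · rw [h2, map_zero] at h3
      exact zero_ne_one h3
    · apply h2
      rw [← V.valuation_le_one_iff, map_inv₀, h3, inv_one]

theorem IsU.not_nonunit {x : K} (hx : IsU V x) : x ∉ V.nonunits := by
  intro h
  rcases (nonunits_iff.1 h).2 with h | h
  · exact hx.1 h
  · exact h hx.2.2

theorem isU_of_not_nonunit {x : K} (hx : x ∈ V) (h : x ∉ V.nonunits) : IsU V x := by
  by_contra hc
  apply h
  refine nonunits_iff.2 ⟨hx, ?_⟩
  by_cases h0 : x = 0
  · exact Or.inl h0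
  · right
    intro hi
    exact hc ⟨h0, hx, hi⟩

theorem non_mem {x : K} (h : x ∈ V.nonunits) : x ∈ V := (nonunits_iff.1 h).1

theorem non_add {x y : K} (hx : x ∈ V.nonunits) (hy : y ∈ V.nonunits) : x + y ∈ V.nonunits := by
  rw [ValuationSubring.mem_nonunits_iff] at *
  exact lt_of_le_of_lt (V.valuation.map_add x y) (max_lt hx hy)

theorem non_neg {x : K} (hx : x ∈ V.nonunits) : -x ∈ V.nonunits := by
  rw [ValuationSubring.mem_nonunits_iff] at *
  rwa [Valuation.map_neg]

theorem non_sub {x y : K} (hx : x ∈ V.nonunits) (hy : y ∈ V.nonunits) : x - y ∈ V.nonunits := by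
  rw [sub_eq_add_neg]
  exact non_add hx (non_neg hy)

theorem non_mul {x y : K} (hx : x ∈ V) (hy : y ∈ V.nonunits) : x * y ∈ V.nonunits := by
  rw [ValuationSubring.mem_nonunits_iff] at *
  rw [map_mul]
  calc V.valuation x * V.valuation y ≤ 1 * V.valuation y := by
        gcongr; exact (V.valuation_le_one_iff x).2 hx
    _ = V.valuation y := one_mul _
    _ < 1 := hy

theorem non_of_isU_mul {x y : K} (hx : IsU V x) (hy : x * y ∈ V.nonunits) : y ∈ V.nonunits := by
  have h := non_mul hx.inv.2.1 hy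
  rwa [inv_mul_cancel_left₀ hx.1] at h

theorem isU_of_pow {x : K} {n : ℕ} (hn : 0 < n) (h : IsU V (x ^ n)) : IsU V x := by
  have h0 : x ≠ 0 := by
    rintro rfl
    exact h.1 (zero_pow hn.ne')
  have key : ∀ y : K, y ^ n ∈ V → y ∈ V := by
    intro y hy
    rcases V.mem_or_inv_mem y with h1 | h1
    · exact h1
    · by_cases hy0 : y = 0
      · rw [hy0]; exact zero_mem _
      have h2 : y = (y⁻¹) ^ (n - 1) * y ^ n := by
        obtain ⟨m, rfl⟩ : ∃ m, n = m + 1 := ⟨n - 1, by omega⟩
        rw [Nat.add_sub_cancel, pow_succ, inv_pow, inv_mul_cancel_left₀ (pow_ne_zero _ hy0)]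
      rw [h2]
      exact mul_mem (pow_mem h1 _) hy
  refine ⟨h0, key x h.2.1, key x⁻¹ ?_⟩
  rw [inv_pow]
  exact h.2.2

/-- `ℓ`-th roots of unity are distinct modulo the maximal ideal -/
theorem root_eq {ℓ : ℕ} (hℓ : IsU V (ℓ : K)) (hp : 0 < ℓ) {a b : K} (ha : a ^ ℓ = 1)
    (hb : b ^ ℓ = 1) (h : a - b ∈ V.nonunits) : a = b := by
  by_contra hne
  have hb0 : b ≠ 0 := by
    rintro rfl
    rw [zero_pow hp.ne'] at hb
    exact zero_ne_one hb
  have hbU : IsU V b := isU_of_pow hp (by rw [hb]; exact isU_one)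
  set c := a / b with hc
  have hcl : c ^ ℓ = 1 := by rw [hc, div_pow, ha, hb, div_one]
  have hc1 : c ≠ 1 := by
    intro h1
    apply hne
    rw [hc, div_eq_one_iff_eq hb0] at h1
    exact h1
  have hcn : c - 1 ∈ V.nonunits := by
    have : c - 1 = b⁻¹ * (a - b) := by rw [hc]; field_simp
    rw [this]
    exact non_mul hbU.inv.2.1 h
  have hcV : c ∈ V := by
    have := add_mem (non_mem hcn) (one_mem V)
    rwa [sub_add_cancel] at this
  -- 1 + c + ... + c^(l-1) = 0, but it is congruent to l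
  have hsum : ∑ i ∈ Finset.range ℓ, c ^ i = 0 := by
    have h1 := geom_sum_mul c ℓ
    rw [hcl, sub_self] at h1
    rcases mul_eq_zero.1 h1 with h2 | h2
    · exact h2
    · exact absurd (sub_eq_zero.1 h2) hc1
  have hpow : ∀ i : ℕ, c ^ i - 1 ∈ V.nonunits := by
    intro i
    rw [← mul_geom_sum, mul_comm]
    exact non_mul (sum_mem fun j _ => pow_mem hcV j) hcn
  have h3 : (∑ i ∈ Finset.range ℓ, (c ^ i - 1)) ∈ V.nonunits := by
    have : ∀ n : ℕ, (∑ i ∈ Finset.range n, (c ^ i - 1)) ∈ V.nonunits := by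
      intro n
      induction n with
      | zero =>
        rw [Finset.range_zero, Finset.sum_empty]
        exact nonunits_iff.2 ⟨zero_mem _, Or.inl rfl⟩
      | succ n ih => rw [Finset.sum_range_succ]; exact non_add ih (hpow n)
    exact this ℓ
  rw [Finset.sum_sub_distrib, hsum, zero_sub, Finset.sum_const, Finset.card_range, nsmul_eq_mul,
    mul_one] at h3
  have h4 := non_neg h3
  rw [neg_neg] at h4
  exact hℓ.not_nonunit h4

end units

section gauss

variable {κ M : Type} [Field κ] [Field M] [Algebra κ M] {V : ValuationSubring κ} {x : M}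
  {O : ValuationSubring M}

theorem Gauss.nonunit (h : Gauss V x O) {c : κ} : algebraMap κ M c ∈ O.nonunits ↔
    c ∈ V.nonunits := by
  rw [nonunits_iff, nonunits_iff, h.1, ← map_inv₀, h.1, map_eq_zero]

theorem Gauss.isU (h : Gauss V x O) {c : κ} : IsU O (algebraMap κ M c) ↔ IsU V c := by
  unfold IsU
  rw [h.1, ← map_inv₀, h.1, _root_.map_ne_zero]

theorem Gauss.x_isU (h : Gauss V x O) : IsU O x := by
  have := h.2 X (fun n => by
    rw [coeff_X]; split_ifs
    · exact one_mem _
    · exact zero_mem _) ⟨1, by rw [coeff_X_one]; exact isU_one⟩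
  rwa [aeval_X] at this

/-- the inverse image of a Gauss valuation ring under an automorphism -/
theorem Gauss.comap (h : Gauss V x O) (τ : M ≃+* M) (τ₀ : κ ≃+* κ)
    (hc : ∀ c, τ (algebraMap κ M c) = algebraMap κ M (τ₀ c)) (hx : τ x = x)
    (hV : ∀ c, τ₀ c ∈ V ↔ c ∈ V) : Gauss V x (O.comap (τ : M →+* M)) := by
  constructor
  · intro c
    rw [ValuationSubring.mem_comap]
    change τ (algebraMap κ M c) ∈ O ↔ _
    rw [hc, h.1, hV]
  · intro p hp hn
    have h1 : ∀ z : M, IsU (O.comap (τ : M →+* M)) z ↔ IsU O (τ z) := by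
      intro z
      unfold IsU
      rw [ValuationSubring.mem_comap, ValuationSubring.mem_comap]
      change z ≠ 0 ∧ τ z ∈ O ∧ τ z⁻¹ ∈ O ↔ _
      rw [map_inv₀, ne_eq, ne_eq, map_eq_zero_iff τ τ.injective]
    rw [h1]
    have h2 : τ (aeval x p) = aeval x (p.map (τ₀ : κ →+* κ)) := by
      have h3 : (τ : M →+* M) (p.eval₂ (algebraMap κ M) x) =
          p.eval₂ ((τ : M →+* M).comp (algebraMap κ M)) ((τ : M →+* M) x) := hom_eval₂ _ _ _ _
      rw [aeval_def, aeval_def, eval₂_map]
      change (τ : M →+* M) _ = _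
      rw [h3]
      change p.eval₂ _ (τ x) = _
      rw [hx]
      congr 1
      ext c
      exact hc c
    rw [h2]
    have hU : ∀ c, IsU V (τ₀ c) ↔ IsU V c := by
      intro c
      unfold IsU
      rw [← map_inv₀, hV, hV, ne_eq, ne_eq, map_eq_zero_iff τ₀ τ₀.injective]
    refine h.2 _ (fun n => ?_) ?_
    · rw [coeff_map]
      exact (hV _).2 (hp n)
    · obtain ⟨n, hn⟩ := hn
      refine ⟨n, ?_⟩
      rw [coeff_map]
      exact (hU _).2 hn

/-- an automorphism as above preserves the Gauss valuation ring if this is unique -/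
theorem Gauss.stable (h : Gauss V x O) (hun : ∀ O', Gauss V x O' → O' = O) (τ : M ≃+* M)
    (τ₀ : κ ≃+* κ) (hc : ∀ c, τ (algebraMap κ M c) = algebraMap κ M (τ₀ c)) (hx : τ x = x)
    (hV : ∀ c, τ₀ c ∈ V ↔ c ∈ V) (z : M) : τ z ∈ O ↔ z ∈ O := by
  have h1 := hun _ (h.comap τ τ₀ hc hx hV)
  conv_rhs => rw [← h1]
  rw [ValuationSubring.mem_comap]
  rfl

theorem Gauss.stable' {R : Type} [Field R] [Algebra R M] [Algebra κ R] [IsScalarTower κ R M]
    {x : R} (h : Gauss V (algebraMap R M x) O)
    (hun : ∀ O', Gauss V (algebraMap R M x) O' → O' = O) (γ : M ≃ₐ[R] M) (z : M) :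
    γ z ∈ O ↔ z ∈ O := by
  refine h.stable hun (γ : M ≃+* M) (RingEquiv.refl κ) (fun c => ?_) ?_ (fun c => Iff.rfl) z
  · change γ (algebraMap κ M c) = algebraMap κ M c
    rw [IsScalarTower.algebraMap_apply κ R M, γ.commutes]
  · exact γ.commutes x

end gauss

section places

variable {κ M : Type} [Field κ] [Field M] [Algebra κ M]

theorem ord_sub_const {W : Place κ M} {x : M} {a b : κ} (h : 0 < W.ord (x - algebraMap κ M a))
    (hab : a ≠ b) : W.ord (x - algebraMap κ M b) = 0 := by
  have h1 : x - algebraMap κ M b = (algebraMap κ M (a - b)) + (x - algebraMap κ M a) := by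
    rw [map_sub]; ring
  have h2 : algebraMap κ M (a - b) ≠ 0 := by
    rw [_root_.map_ne_zero]
    exact sub_ne_zero.2 hab
  by_cases h3 : x - algebraMap κ M a = 0
  · rw [h3, W.ord_zero] at h
    exact absurd h (lt_irrefl _)
  · rw [h1, (W.ord_add_eq h2 h3 (by rw [W.ord_const (sub_ne_zero.2 hab)]; exact h)).2,
      W.ord_const (sub_ne_zero.2 hab)]

theorem reg_pow {W : Place κ M} {x : M} (h : W.Reg x) (n : ℕ) : W.Reg (x ^ n) := by
  induction n with
  | zero => rw [pow_zero]; exact W.reg_one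
  | succ n ih => rw [pow_succ]; exact W.reg_mul ih h

theorem reg_aeval {W : Place κ M} {x : M} (h : W.Reg x) (g : κ[X]) : W.Reg (aeval x g) := by
  induction g using Polynomial.induction_on' with
  | add p q hp hq => rw [map_add]; exact W.reg_add hp hq
  | monomial n a =>
    rw [aeval_monomial]
    exact W.reg_mul (W.reg_const a) (reg_pow h n)

theorem reg_of_pos {W : Place κ M} {x : M} {e : κ} (hW : 0 < W.ord (x - algebraMap κ M e)) :
    W.Reg x := by
  have h1 : x = (x - algebraMap κ M e) + algebraMap κ M e := by ring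
  rw [h1]
  exact W.reg_add (Or.inr hW.le) (W.reg_const e)

/-- orders of polynomials in `x` at the places above a point -/
theorem ord_poly (x : M) (e : κ) (p : κ[X]) (hp : p ≠ 0) (hx : Transcendental κ x) :
    ∃ n : ℤ, ∀ W : Place κ M, 0 < W.ord (x - algebraMap κ M e) →
      W.ord (aeval x p) = n * W.ord (x - algebraMap κ M e) := by
  obtain ⟨q, hq, hq'⟩ := exists_eq_pow_rootMultiplicity_mul_and_not_dvd p hp e
  refine ⟨(p.rootMultiplicity e : ℕ), fun W hW => ?_⟩
  have hxe : x - algebraMap κ M e ≠ 0 := by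
    intro h; rw [h, W.ord_zero] at hW; exact lt_irrefl _ hW
  have hq0 : aeval x q ≠ 0 := by
    intro h
    have : q = 0 := by
      by_contra h0
      exact hx ⟨q, h0, h⟩
    rw [this] at hq'
    exact hq' (dvd_zero _)
  have hqe : q.eval e ≠ 0 := by
    intro h
    exact hq' (dvd_iff_isRoot.2 h)
  have hWx : W.Reg x := reg_of_pos hW
  have hq1 : W.ord (aeval x q) = 0 := by
    obtain ⟨g, hg⟩ := X_sub_C_dvd_sub_C_eval (a := e) (p := q)
    have h2 : aeval x q = algebraMap κ M (q.eval e) + (x - algebraMap κ M e) * aeval x g := by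
      have h3 : q = C (q.eval e) + (X - C e) * g := by rw [← hg]; ring
      conv_lhs => rw [h3]
      rw [map_add, map_mul, map_sub, aeval_C, aeval_C, aeval_X]
    have hc : algebraMap κ M (q.eval e) ≠ 0 := (_root_.map_ne_zero _).2 hqe
    by_cases hg0 : aeval x g = 0
    · rw [h2, hg0, mul_zero, add_zero, W.ord_const hqe]
    · have h4 : W.ord (algebraMap κ M (q.eval e)) < W.ord ((x - algebraMap κ M e) * aeval x g) := by
        rw [W.ord_const hqe, W.ord_mul hxe hg0]
        have := (W.reg_iff hg0).1 (reg_aeval hWx g)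
        omega
      rw [h2, (W.ord_add_eq hc (mul_ne_zero hxe hg0) h4).2, W.ord_const hqe]
  rw [hq, map_mul, map_pow, map_sub, aeval_C, aeval_X, W.ord_mul (pow_ne_zero _ hxe) hq0, hq1,
    W.ord_pow, add_zero, ← hq]

variable {R : Type} [Field R] [Algebra κ R] [Algebra R M] [IsScalarTower κ R M] {x : R}

/-- every element of `κ(x)` is a quotient of polynomials -/
theorem RatF.exists_div (hx : RatF κ x) (z : R) : ∃ p q : κ[X], aeval x q ≠ 0 ∧
    z = aeval x p / aeval x q := by
  have h : z ∈ IntermediateField.adjoin κ {x} := by rw [hx.gen]; trivial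
  rw [IntermediateField.mem_adjoin_simple_iff] at h
  obtain ⟨p, q, h⟩ := h
  by_cases hq : aeval x q = 0
  · refine ⟨0, 1, by rw [map_one]; exact one_ne_zero, ?_⟩
    rw [h, hq, div_zero, map_zero, zero_div]
  · exact ⟨p, q, hq, h⟩

/-- orders of elements of `κ(x)` at the places above a point -/
theorem ord_ratF (hx : RatF κ x) (e : κ) (z : R) (hz : z ≠ 0) :
    ∃ n : ℤ, ∀ W : Place κ M, 0 < W.ord (algebraMap R M x - algebraMap κ M e) →
      W.ord (algebraMap R M z) = n * W.ord (algebraMap R M x - algebraMap κ M e) := by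
  obtain ⟨p, q, hq, h⟩ := hx.exists_div z
  have htr : Transcendental κ (algebraMap R M x) := by
    rw [transcendental_algebraMap_iff (algebraMap R M).injective]
    exact hx.trans
  have hp : aeval x p ≠ 0 := by
    intro h0; apply hz; rw [h, h0, zero_div]
  have hp' : p ≠ 0 := by rintro rfl; exact hp (map_zero _)
  have hq' : q ≠ 0 := by rintro rfl; exact hq (map_zero _)
  obtain ⟨m, hm⟩ := ord_poly (algebraMap R M x) e p hp' htr
  obtain ⟨n, hn⟩ := ord_poly (algebraMap R M x) e q hq' htr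
  refine ⟨m - n, fun W hW => ?_⟩
  have e1 : algebraMap R M (aeval x p) = aeval (algebraMap R M x) p :=
    (aeval_algebraMap_apply M x p).symm
  have e2 : algebraMap R M (aeval x q) = aeval (algebraMap R M x) q :=
    (aeval_algebraMap_apply M x q).symm
  have hp1 : algebraMap R M (aeval x p) ≠ 0 := (_root_.map_ne_zero _).2 hp
  have hq1 : algebraMap R M (aeval x q) ≠ 0 := (_root_.map_ne_zero _).2 hq
  rw [h, map_div₀, W.ord_div hp1 hq1, e1, e2, hm W hW, hn W hW]
  ring

/-- two places above the same point have the same trace on `κ(x)` -/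
theorem trace_eq (hx : RatF κ x) (e : κ) {W W' : Place κ M}
    (hW : 0 < W.ord (algebraMap R M x - algebraMap κ M e))
    (hW' : 0 < W'.ord (algebraMap R M x - algebraMap κ M e)) :
    W.O.comap (algebraMap R M) = W'.O.comap (algebraMap R M) := by
  ext z
  rw [ValuationSubring.mem_comap, ValuationSubring.mem_comap, Place.mem_O, Place.mem_O]
  by_cases hz : z = 0
  · rw [hz, map_zero]
    exact ⟨fun _ => W'.reg_zero, fun _ => W.reg_zero⟩
  have hz' : algebraMap R M z ≠ 0 := (_root_.map_ne_zero _).2 hz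
  obtain ⟨n, hn⟩ := ord_ratF (M := M) hx e z hz
  rw [W.reg_iff hz', W'.reg_iff hz', hn W hW, hn W' hW']
  rw [mul_nonneg_iff_of_pos_right hW, mul_nonneg_iff_of_pos_right hW']

/-- the place `W ∘ τ` for an automorphism `τ` which maps constants to constants -/
def Place.comapEquiv (W : Place κ M) (τ : M ≃+* M) (τ₀ : κ ≃+* κ)
    (hc : ∀ c, τ (algebraMap κ M c) = algebraMap κ M (τ₀ c)) : Place κ M where
  ord z := W.ord (τ z)
  ord_zero := by rw [map_zero, W.ord_zero]
  ord_mul := by
    intro f g hf hg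
    rw [map_mul, W.ord_mul ((map_ne_zero_iff τ τ.injective).2 hf)
      ((map_ne_zero_iff τ τ.injective).2 hg)]
  ord_add := by
    intro f g hf hg hfg
    rw [map_add]
    refine W.ord_add ((map_ne_zero_iff τ τ.injective).2 hf)
      ((map_ne_zero_iff τ τ.injective).2 hg) ?_
    rw [← map_add]
    exact (map_ne_zero_iff τ τ.injective).2 hfg
  ord_const := by
    intro c hcc
    rw [hc, W.ord_const ((map_ne_zero_iff τ₀ τ₀.injective).2 hcc)]
  surj := by
    obtain ⟨t, ht0, ht⟩ := W.surj
    exact ⟨τ.symm t, (map_ne_zero_iff τ.symm τ.symm.injective).2 ht0, by rw [τ.apply_symm_apply, ht]⟩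

end places

end Pool.Agent.Y157.PS
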