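import Pool.Agent.Y157.PS.Num
import Pool.Agent.W262.G3.Fin2
import Pool.Agent.W623.SecG.Res

/-! # Twists of curves over `ℚ` with rational branch points -/

set_option autoImplicit false
set_option linter.all false

open Polynomial FF

namespace Pool.Agent.Y157.PS

open Pool.Agent.W623.SecG Pool.Agent.W620.SC

theorem unitA {A : Type} [CommRing A] [IsLocalRing A] {p : ℕ}
    (hm : ∀ n : ℤ, (n : A) ∈ IsLocalRing.maximalIdeal A ↔ (p : ℤ) ∣ n) {n : ℤ}
    (h : ¬ (p : ℤ) ∣ n) : IsUnit (n : A) := by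
  rw [← hm] at h
  exact IsLocalRing.notMem_maximalIdeal.mp h

/-- the statement, over a field `k` -/
def TwStm (k : Type) [Field k] {K : Type} [Fintype K] (e : K → ℤ) (d : ℤ) (p : ℕ) : Prop :=
  ∀ (F Ω : Type) [Field F] [Field Ω] [Algebra k F] [Algebra F Ω] [Algebra k Ω]
    [IsScalarTower k F Ω] [IsAlgClosed Ω] [Algebra.IsAlgebraic F Ω]
    (U : Set (ValuationSubring F)), (∀ O ∈ U, ∀ c : k, algebraMap k F c ∈ O) →
    ∀ (G : GSection k F Ω U) (x y : F), Transcendental k x →
    algebraMap k F (d : k) * y ^ 2 = ∏ j, (x - algebraMap k F (e j : k)) →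
    IntermediateField.adjoin k {x, y} = (⊤ : IntermediateField k F) → ∀ i : K,
    AtK G x (fun j => (e j : k)) i →
    ∀ V : ValuationSubring (algebraicClosure k Ω), (p : algebraicClosure k Ω) ∈ V.nonunits →
    ∃ W : ValuationSubring (unramified F Ω U),
      (((∀ c : k, algebraMap F (unramified F Ω U) (algebraMap k F c) ∈ W) ∧
       algebraMap F (unramified F Ω U) (x - algebraMap k F (e i : k)) ∈ W.nonunits) ∧
       ∀ σ : algebraicClosure k Ω ≃ₐ[k] algebraicClosure k Ω, Dec V σ →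
        ∀ z : unramified F Ω U, (z : Ω) ∈ geomPro 2 k F Ω → (G.toHom σ z ∈ W ↔ z ∈ W)) ∧
      ∀ W' : ValuationSubring (unramified F Ω U),
        (∀ c : k, algebraMap F (unramified F Ω U) (algebraMap k F c) ∈ W') →
        algebraMap F (unramified F Ω U) (∏ j, (x - algebraMap k F (e j : k))) ∈ W'.nonunits →
        (∀ σ : algebraicClosure k Ω ≃ₐ[k] algebraicClosure k Ω, Dec V σ →
          ∀ z : unramified F Ω U, (z : Ω) ∈ geomPro 2 k F Ω → (G.toHom σ z ∈ W' ↔ z ∈ W')) →
        ∀ z : unramified F Ω U, (z : Ω) ∈ geomPro 2 k F Ω → (z ∈ W' ↔ z ∈ W)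

theorem twG {A k : Type} [CommRing A] [IsDomain A] [IsDiscreteValuationRing A]
    [Finite (IsLocalRing.ResidueField A)] [Field k] [CharZero k] [Algebra A k] [IsFractionRing A k]
    {K : Type} [Fintype K] [DecidableEq K] (e : K → ℤ) (hev : Even (Fintype.card K))
    (h4 : 4 ≤ Fintype.card K) (d : ℤ) (hd : Squarefree d) (p : ℕ) (hp : p.Prime)
    (hpd : (p : ℤ) ∣ d) (hp2 : ¬ (p : ℤ) ∣ 2) (hpe : ∀ i j, i ≠ j → ¬ (p : ℤ) ∣ e i - e j)
    (hpi : Irreducible (p : A))
    (hm : ∀ n : ℤ, (n : A) ∈ IsLocalRing.maximalIdeal A ↔ (p : ℤ) ∣ n)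
    (hAq : ∀ a : A, ∃ n c : ℤ, ¬ (p : ℤ) ∣ c ∧ a * (c : A) = (n : A)) : TwStm k e d p := by
  classical
  intro F Ω _ _ _ _ _ _ _ _ U hU G x y hx hxy hF i hAt V hV
  have hpz := Nat.prime_iff_prime_int.mp hp
  have hcast : ∀ n : ℤ, algebraMap A k (n : A) = (n : k) := fun n => map_intCast _ _
  have h2u : IsUnit (2 : A) := by
    have := unitA hm hp2
    simpa using this
  obtain ⟨b, hb⟩ := hpd
  have hpb : ¬ (p : ℤ) ∣ b := by
    rintro ⟨c, hc⟩
    have h1 : (p : ℤ) * p ∣ d := ⟨c, by rw [hb, hc]; ring⟩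
    exact hpz.not_unit (hd _ h1)
  have hd' : algebraMap A k ((b : ℤ) : A) * algebraMap A k (p : A) ^ (1 : ℤ) = (d : k) := by
    rw [zpow_one, hcast, map_natCast, hb]
    push_cast
    ring
  -- the valuation ring lies above `A`
  have hpV : (p : algebraicClosure k Ω) ∈ V := non_mem hV
  have hint : ∀ n : ℤ, (n : algebraicClosure k Ω) ∈ V := fun n => intCast_mem V n
  have hunitZ : ∀ n : ℤ, ¬ (p : ℤ) ∣ n → IsU V (n : algebraicClosure k Ω) := by
    intro n hn
    refine isU_of_not_nonunit (hint n) fun hnn => ?_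
    have hcop : IsCoprime (p : ℤ) n := (Prime.coprime_iff_not_dvd hpz).2 hn
    obtain ⟨a, c, hac⟩ := hcop
    have h1 : (1 : algebraicClosure k Ω) ∈ V.nonunits := by
      have h2 : (1 : algebraicClosure k Ω) = (a : algebraicClosure k Ω) * (p : algebraicClosure k Ω) +
          (c : algebraicClosure k Ω) * (n : algebraicClosure k Ω) := by
        have h3 := congrArg (fun m : ℤ => (m : algebraicClosure k Ω)) hac
        push_cast at h3
        exact h3.symm
      rw [h2]
      exact non_add (non_mul (hint a) hV) (non_mul (hint c) hnn)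
    exact isU_one.not_nonunit h1
  have hAV : ∀ a : A, algebraMap k (algebraicClosure k Ω) (algebraMap A k a) ∈ V := by
    intro a
    obtain ⟨n, c, hc, hac⟩ := hAq a
    have h1 := congrArg (fun z => algebraMap k (algebraicClosure k Ω) (algebraMap A k z)) hac
    simp only [map_mul, map_intCast] at h1
    have h2 := hunitZ c hc
    have h3 : algebraMap k (algebraicClosure k Ω) (algebraMap A k a) =
        (n : algebraicClosure k Ω) * (c : algebraicClosure k Ω)⁻¹ := by
      rw [← h1, mul_inv_cancel_right₀ h2.1]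
    rw [h3]
    exact mul_mem (hint n) h2.2.2
  have hAm : ∀ a ∈ IsLocalRing.maximalIdeal A,
      algebraMap k (algebraicClosure k Ω) (algebraMap A k a) ∈ V.nonunits := by
    intro a ha
    rw [hpi.maximalIdeal_eq, Ideal.mem_span_singleton] at ha
    obtain ⟨c, rfl⟩ := ha
    rw [map_mul, map_mul, map_natCast, map_natCast, mul_comm]
    exact non_mul (hAV c) hV
  have heA : ∀ j, algebraMap A k ((e j : ℤ) : A) = (e j : k) := fun j => hcast _
  have hxy' : algebraMap k F (algebraMap A k ((b : ℤ) : A) * algebraMap A k (p : A) ^ (1 : ℤ)) *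
      y ^ 2 = ∏ i, (x - algebraMap k F (algebraMap A k ((e i : ℤ) : A))) := by
    rw [hd', hxy]
    exact Finset.prod_congr rfl fun j _ => by rw [heA]
  have hd0 : (d : k) ≠ 0 := by exact_mod_cast hd.ne_zero
  have halg : Algebra.IsAlgebraic (IntermediateField.adjoin k {x}) F := by
    refine alg_of_eqn (by norm_num : 0 < 2) (∏ j, (X - C (e j : k))) (d : k) hd0 x y ?_ hF
    rw [hxy, map_prod]
    refine Finset.prod_congr rfl fun j _ => ?_
    rw [map_sub, aeval_X, aeval_C]
  have hle := (a_ind 2 k F Ω x hx halg U hU).1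
  have key := localB (A := A) V hAV hAm h2u (fun j => ((e j : ℤ) : A)) (fun i j hij => by
      rw [← Int.cast_sub]
      exact unitA hm (hpe i j hij)) hev h4 (p : A) ((b : ℤ) : A) 1 hpi
    (unitA hm hpb) odd_one x y hx hxy' hF (unramified F Ω U) hle G.toHom G.cont
    (fun σ c z hz => G.compat σ c z hz) i (fun l l' hl hl' => by
      obtain ⟨γ, hγ, hγ2⟩ := hAt l l' hl hl'
      refine ⟨γ, hγ, ?_⟩
      rw [hγ2, heA, heA]
      congr 3
      rw [map_mul, map_sub, map_sub, heA, heA, heA])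
  simp only [heA] at key
  exact key

theorem twQ {K : Type} [Fintype K] [DecidableEq K] (e : K → ℤ) (hev : Even (Fintype.card K))
    (h4 : 4 ≤ Fintype.card K) (d : ℤ) (hd : Squarefree d) (p : ℕ) (hp : p.Prime)
    (hpd : (p : ℤ) ∣ d) (hp2 : ¬ (p : ℤ) ∣ 2) (hpe : ∀ i j, i ≠ j → ¬ (p : ℤ) ∣ e i - e j) :
    TwStm ℚ e d p := by
  obtain ⟨A, _, _, _, _, hfin, hfrac, hpi, hm, hres⟩ := Pool.Agent.W240.S3.zloc p hp
  refine twG (A := A) (k := ℚ) e hev h4 d hd p hp hpd hp2 hpe hpi hm ?_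
  have hcast : ∀ n : ℤ, algebraMap A ℚ (n : A) = (n : ℚ) := fun n => map_intCast _ _
  intro a
  set q : ℚ := algebraMap A ℚ a with hq
  by_cases hpc : (p : ℤ) ∣ (q.den : ℤ)
  · exfalso
    have hpn : ¬ (p : ℤ) ∣ q.num := by
      intro h
      have h1 := q.reduced
      have h2 : p ∣ q.num.natAbs := Int.natCast_dvd.1 h
      have h3 : p ∣ q.den := by exact_mod_cast hpc
      have h4 : p ∣ Nat.gcd q.num.natAbs q.den := Nat.dvd_gcd h2 h3
      rw [h1] at h4
      exact hp.one_lt.ne' (Nat.dvd_one.1 h4)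
    have h1 : a * ((q.den : ℤ) : A) = ((q.num : ℤ) : A) := by
      apply IsFractionRing.injective A ℚ
      rw [map_mul, hcast, hcast, ← hq]
      push_cast
      exact Rat.mul_den_eq_num q
    have h2 : ((q.num : ℤ) : A) ∈ IsLocalRing.maximalIdeal A := by
      rw [← h1]
      exact Ideal.mul_mem_left _ _ ((hm _).2 hpc)
    exact hpn ((hm _).1 h2)
  · refine ⟨q.num, q.den, hpc, ?_⟩
    apply IsFractionRing.injective A ℚ
    rw [map_mul, hcast, hcast, ← hq]
    push_cast
    exact Rat.mul_den_eq_num q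

end Pool.Agent.Y157.PS
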