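import Pool.Agent.Y157.PS.Fin
import Pool.Agent.Y32.PS.Ind

/-! # Induced sections -/

set_option autoImplicit false
set_option linter.all false

open Polynomial FF

namespace Pool.Agent.Y157.PS

theorem a_ind : S_IND := Pool.Agent.Y32.PS.ind a_inrt

theorem a_ind2 : S_IND2 := by
  intro ℓ _ k F Ω _ _ _ _ _ _ _ _ _ _ x hx halg M hM G _ _ _ S hS
  haveI : IsAlgClosure F Ω := ⟨inferInstance, inferInstance⟩
  obtain ⟨-, h2⟩ := a_inrt ℓ k F Ω x hx halg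
  obtain ⟨Φ, hΦ, hΦ'⟩ := Pool.Agent.Y32.PS.restr (geomPro ℓ k F Ω) M hM h2
  exact ⟨Φ.comp S, hΦ.comp hS, fun g z w hw => hΦ' (S g) z w hw⟩

end Pool.Agent.Y157.PS
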