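import Pool.Agent.Y157.PS.Sup2
import Pool.Agent.W723.SecC.D1d
import Pool.Agent.W417.SecC.D2

/-! # Superelliptic twists over number fields -/

set_option autoImplicit false
set_option linter.all false

open Polynomial FF NumberField IsDedekindDomain

namespace Pool.Agent.Y157.PS

/-- the local ring of `v` has the properties needed -/
theorem num_loc {K : Type} [Field K] [NumberField K] (v : HeightOneSpectrum (𝓞 K))
    (N : ℕ) (h2 : (N : 𝓞 K) ∉ v.asIdeal) (g : (𝓞 K)[X]) (hlc : g.leadingCoeff ∉ v.asIdeal)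
    (hs : (g.map (Ideal.Quotient.mk v.asIdeal)).Separable)
    (hroot : ∀ r : 𝓞 K ⧸ v.asIdeal, (g.map (Ideal.Quotient.mk v.asIdeal)).eval r ≠ 0)
    (b : 𝓞 K) (n : ℕ) (hb : b ∈ v.asIdeal ^ n) (hb' : b ∉ v.asIdeal ^ (n + 1)) :
    ∃ (A : Type) (_ : CommRing A) (_ : IsDomain A) (_ : IsDiscreteValuationRing A)
      (_ : Algebra A K), Finite (IsLocalRing.ResidueField A) ∧ IsFractionRing A K ∧
      IsUnit (N : A) ∧ ∃ f : A[X], f.map (algebraMap A K) = g.map (algebraMap (𝓞 K) K) ∧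
        f.natDegree = g.natDegree ∧ IsUnit f.leadingCoeff ∧
        (f.map (IsLocalRing.residue A)).Separable ∧
        (∀ b : A, f.eval b ∉ IsLocalRing.maximalIdeal A) ∧
        ∃ ϖ t : A, Irreducible ϖ ∧ IsUnit t ∧
          algebraMap (𝓞 K) K b = algebraMap A K t * algebraMap A K ϖ ^ (n : ℤ) := by
  classical
  have hvm : v.asIdeal.IsMaximal := v.isMaximal
  have hvp : v.asIdeal.IsPrime := v.isPrime
  have hle : v.asIdeal.primeCompl ≤ nonZeroDivisors (𝓞 K) := v.asIdeal.primeCompl_le_nonZeroDivisors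
  let A := Localization.subalgebra.ofField K v.asIdeal.primeCompl hle
  have hloc : IsLocalization.AtPrime A v.asIdeal :=
    Localization.subalgebra.isLocalization_ofField K v.asIdeal.primeCompl hle
  have hdvr : IsDiscreteValuationRing A :=
    IsLocalization.AtPrime.isDiscreteValuationRing_of_dedekind_domain (𝓞 K) v.ne_bot A
  have hfr : IsFractionRing A K := inferInstance
  have hunit : ∀ c : 𝓞 K, c ∉ v.asIdeal → IsUnit (algebraMap (𝓞 K) A c) := fun c hc =>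
    (IsLocalization.AtPrime.isUnit_to_map_iff A v.asIdeal c).2 hc
  let e : (𝓞 K ⧸ v.asIdeal) ≃+* IsLocalRing.ResidueField A :=
    IsLocalization.AtPrime.equivQuotMaximalIdeal v.asIdeal A
  have hcomp : (IsLocalRing.residue A).comp (algebraMap (𝓞 K) A) =
      (e : (𝓞 K ⧸ v.asIdeal) →+* IsLocalRing.ResidueField A).comp
        (Ideal.Quotient.mk v.asIdeal) := by
    ext c
    rfl
  have hcompK : (algebraMap A K).comp (algebraMap (𝓞 K) A) = algebraMap (𝓞 K) K := by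
    ext c
    rfl
  have hfin : Finite (IsLocalRing.ResidueField A) := by
    have h1 : Finite (𝓞 K ⧸ v.asIdeal) := Ideal.finiteQuotientOfFreeOfNeBot _ v.ne_bot
    exact Finite.of_equiv _ e.toEquiv
  have hlcA0 : algebraMap (𝓞 K) A g.leadingCoeff ≠ 0 := (hunit _ hlc).ne_zero
  have hmapres : (g.map (algebraMap (𝓞 K) A)).map (IsLocalRing.residue A) =
      (g.map (Ideal.Quotient.mk v.asIdeal)).map
        (e : (𝓞 K ⧸ v.asIdeal) →+* IsLocalRing.ResidueField A) := by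
    rw [Polynomial.map_map, hcomp, ← Polynomial.map_map]
  refine ⟨A, inferInstance, inferInstance, hdvr, inferInstance, hfin, hfr, ?_,
    g.map (algebraMap (𝓞 K) A), ?_, ?_, ?_, ?_, ?_, ?_⟩
  · have h3 := hunit _ h2
    rwa [map_natCast] at h3
  · rw [Polynomial.map_map, hcompK]
  · exact natDegree_map_of_leadingCoeff_ne_zero _ hlcA0
  · rw [leadingCoeff_map_of_leadingCoeff_ne_zero _ hlcA0]
    exact hunit _ hlc
  · rw [hmapres]
    exact hs.map
  · intro c hc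
    have h3 : IsLocalRing.residue A ((g.map (algebraMap (𝓞 K) A)).eval c) = 0 :=
      (IsLocalRing.residue_eq_zero_iff _).2 hc
    rw [← eval₂_at_apply, ← eval_map, hmapres, eval_map] at h3
    obtain ⟨r, hr⟩ := e.surjective (IsLocalRing.residue A c)
    apply hroot r
    apply e.injective
    rw [map_zero, ← h3, ← hr]
    exact (eval₂_at_apply (e : (𝓞 K ⧸ v.asIdeal) →+* IsLocalRing.ResidueField A) r).symm
  · obtain ⟨ϖ, hϖ⟩ := IsDiscreteValuationRing.exists_irreducible A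
    have hpow : ∀ m : ℕ, b ∈ v.asIdeal ^ m ↔ algebraMap (𝓞 K) A b ∈
        IsLocalRing.maximalIdeal A ^ m := by
      intro m
      rw [← IsLocalization.AtPrime.under_maximalIdeal_pow v.asIdeal A]
      rfl
    have hb0 : algebraMap (𝓞 K) A b ≠ 0 := by
      intro h
      apply hb'
      rw [hpow, h]
      exact zero_mem _
    obtain ⟨j, u, hj⟩ := IsDiscreteValuationRing.eq_unit_mul_pow_irreducible hb0 hϖ
    have hdvd : ∀ m : ℕ, b ∈ v.asIdeal ^ m ↔ m ≤ j := by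
      intro m
      rw [hpow, hϖ.maximalIdeal_eq, Ideal.span_singleton_pow, Ideal.mem_span_singleton, hj,
        (Units.isUnit u).dvd_mul_left, pow_dvd_pow_iff hϖ.ne_zero hϖ.not_isUnit]
    have hjn : j = n := by
      rw [hdvd] at hb hb'
      omega
    refine ⟨ϖ, u, hϖ, u.isUnit, ?_⟩
    rw [← hcompK, RingHom.comp_apply, hj, map_mul, map_pow, hjn, zpow_natCast]

/-- scaling the equation -/
theorem FineP.scale {ℓ : ℕ} {k : Type} [Field k] {a c : k} {f : k[X]} (hc : c ≠ 0)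
    (h : FineP ℓ (c * a) (C c * f)) : FineP ℓ a f := by
  obtain ⟨h1, h2, h3, h4⟩ := h
  refine ⟨?_, ?_, ?_, ?_⟩
  · intro F Ω _ _ _ _ _ _ _ _ x y hx hxy hF M hM S hcont
    refine h1 F Ω x y hx ?_ hF M hM S hcont
    rw [map_mul, map_mul, aeval_C, mul_assoc, hxy]
  · intro F Ω _ _ _ _ _ _ _ _ U hU x y hxy
    refine h2 F Ω U hU x y ?_
    rw [map_mul, map_mul, aeval_C, mul_assoc, hxy]
  · intro x y hxy
    refine h3 x y ?_
    rw [eval_mul, eval_C, mul_assoc, hxy]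
  · intro r hr
    refine h4 r ?_
    rw [leadingCoeff_mul, leadingCoeff_C, mul_assoc, hr]

theorem exists_primes (hFUN : S_FUN) {K : Type} [Field K] [NumberField K] (f : K[X])
    (hf : f.Separable) (h3 : 3 ≤ f.natDegree)
    (hσ : ∃ σ : AlgebraicClosure K ≃ₐ[K] AlgebraicClosure K,
      ∀ θ : AlgebraicClosure K, aeval θ f = 0 → σ θ ≠ θ) (ε : ℝ) (hε : 0 < ε) :
    ∃ T : Finset (HeightOneSpectrum (𝓞 K)),
      (∀ v ∈ T, ∀ a : 𝓞 K, a ∈ v.asIdeal → a ∉ v.asIdeal ^ 2 →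
        ∀ ℓ : ℕ, ℓ.Prime → ℓ ∣ f.natDegree → FineP ℓ (algebraMap (𝓞 K) K a) f) ∧
      ∏ v ∈ T, (1 - (1 / (Ideal.absNorm v.asIdeal : ℝ) -
        1 / (Ideal.absNorm v.asIdeal : ℝ) ^ 2)) < ε := by
  classical
  obtain ⟨c, hc, hcf⟩ := IsLocalization.integerNormalization_spec (nonZeroDivisors (𝓞 K)) f
  set g := IsLocalization.integerNormalization (nonZeroDivisors (𝓞 K)) f with hg
  have hc0 : c ≠ 0 := nonZeroDivisors.ne_zero hc
  have hinj : Function.Injective (algebraMap (𝓞 K) K) := IsFractionRing.injective (𝓞 K) K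
  have hcK : algebraMap (𝓞 K) K c ≠ 0 := by
    rw [Ne, map_eq_zero_iff _ hinj]
    exact hc0
  have hgf : g.map (algebraMap (𝓞 K) K) = C (algebraMap (𝓞 K) K c) * f := by
    rw [hcf]
    ext i
    rw [coeff_smul, coeff_C_mul, Algebra.smul_def]
  have hdeg : g.natDegree = f.natDegree := by
    rw [← natDegree_map_eq_of_injective hinj g, hgf, natDegree_C_mul hcK]
  have hgs : (g.map (algebraMap (𝓞 K) K)).Separable := by
    rw [hgf]
    exact Separable.unit_mul (isUnit_C.2 hcK.isUnit) hf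
  have hgσ : ∃ σ : AlgebraicClosure K ≃ₐ[K] AlgebraicClosure K,
      ∀ θ : AlgebraicClosure K, aeval θ (g.map (algebraMap (𝓞 K) K)) = 0 → σ θ ≠ θ := by
    obtain ⟨σ, hσ⟩ := hσ
    refine ⟨σ, fun θ hθ => hσ θ ?_⟩
    rw [hgf, map_mul, aeval_C] at hθ
    exact (mul_eq_zero.1 hθ).resolve_left ((_root_.map_ne_zero _).2 hcK)
  have hdc : c * (f.natDegree : 𝓞 K) ≠ 0 := by
    refine mul_ne_zero hc0 ?_
    rw [Nat.cast_ne_zero]
    omega
  obtain ⟨T, hT, hTε⟩ := Pool.Agent.W723.SecC.partD1 K g (c * (f.natDegree : 𝓞 K)) hdc hgs hgσ ε hε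
  refine ⟨T, ?_, hTε⟩
  intro v hv a ha ha' ℓ hℓ hℓd
  obtain ⟨hcv', -, hlcv, hsv, hrv⟩ := hT v hv
  have hvp : v.asIdeal.IsPrime := v.isPrime
  have hvm : v.asIdeal.IsMaximal := v.isMaximal
  have hcv : c ∉ v.asIdeal := fun h => hcv' (Ideal.mul_mem_right _ _ h)
  have hℓv : (ℓ : 𝓞 K) ∉ v.asIdeal := by
    intro h
    apply hcv'
    obtain ⟨n, hn⟩ := hℓd
    rw [hn]
    push_cast
    exact Ideal.mul_mem_left _ _ (Ideal.mul_mem_right _ _ h)
  have hb : c * a ∈ v.asIdeal ^ 1 := by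
    rw [pow_one]
    exact Ideal.mul_mem_left _ _ ha
  have hb' : c * a ∉ v.asIdeal ^ (1 + 1) := by
    intro h
    rcases Ideal.IsMaximal.mul_mem_pow _ h with h1 | h1
    · exact hcv h1
    · exact ha' h1
  have hfact : Fact ℓ.Prime := ⟨hℓ⟩
  obtain ⟨A, _, _, _, _, hfin, hfr, hℓA, fA, hfK, hdegA, hlcA, hsA, hrA, ϖ, t, hϖ, ht, hbt⟩ :=
    num_loc v ℓ hℓv g hlcv hsv hrv (c * a) 1 hb hb'
  have key := fineP hFUN hℓA fA hlcA hsA (by rw [hdegA, hdeg]; exact hℓd) (by rw [hdegA, hdeg]; exact h3)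
    hrA ϖ hϖ (algebraMap (𝓞 K) K (c * a)) 1 (by
      intro h
      have h5 : (ℓ : ℤ) = 1 ∨ (ℓ : ℤ) = -1 := Int.natAbs_eq_iff.1 (by
        have := Int.natAbs_dvd_natAbs.2 h
        simpa using this)
      rcases h5 with h5 | h5
      · exact hℓ.one_lt.ne' (by exact_mod_cast h5)
      · omega) t ht (by rw [hbt]; norm_num)
  rw [hfK, hgf, map_mul] at key
  exact key.scale hcK

theorem density (hFUN : S_FUN) {K : Type} [Field K] [NumberField K] (f : K[X])
    (hf : f.Separable) (h3 : 3 ≤ f.natDegree)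
    (hσ : ∃ σ : AlgebraicClosure K ≃ₐ[K] AlgebraicClosure K,
      ∀ θ : AlgebraicClosure K, aeval θ f = 0 → σ θ ≠ θ) (ε : ℝ) (hε : 0 < ε) :
    ∃ I : Ideal (𝓞 K), I ≠ ⊥ ∧
      (Set.ncard ((Ideal.Quotient.mk I) ''
        {a : 𝓞 K | ¬ ∀ ℓ : ℕ, ℓ.Prime → ℓ ∣ f.natDegree →
          FineP ℓ (algebraMap (𝓞 K) K a) f}) : ℝ) ≤
      ε * Nat.card (𝓞 K ⧸ I) := by
  obtain ⟨T, hT, hTε⟩ := exists_primes hFUN f hf h3 hσ ε hε
  refine ⟨∏ v ∈ T, v.asIdeal ^ 2, ?_, ?_⟩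
  · refine Finset.prod_ne_zero_iff.2 fun v _ => pow_ne_zero _ v.ne_bot
  · have h1 := Pool.Agent.W417.SecC.D2.partD2 K T
      {a : 𝓞 K | ¬ ∀ ℓ : ℕ, ℓ.Prime → ℓ ∣ f.natDegree → FineP ℓ (algebraMap (𝓞 K) K a) f} (by
        intro a ha v hv hav
        by_contra hcon
        exact ha (hT v hv a hav hcon))
    exact h1.trans (mul_le_mul_of_nonneg_right hTε.le (Nat.cast_nonneg _))

end Pool.Agent.Y157.PS
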