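import Pool.Agent.Y157.PS.Defs

/-!
# Pro-`ℓ` coverings of superelliptic curves: statements of the parts

(helper157, project PS.)  Every part is a `def S_X : Prop`; its proof is `theorem x : S_X` in a file
of its own; a part may use other parts as hypotheses.
-/

set_option autoImplicit false
set_option linter.all false

open Polynomial FF

namespace Pool.Agent.Y157.PS

/-! ## General facts -/

/-- norm maps are surjective (Tsen) -/
def S_TSN : Prop :=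
  ∀ (κ R N : Type) [Field κ] [IsAlgClosed κ] [CharZero κ] [Field R] [Field N] [Algebra κ R]
    [Algebra R N] [FiniteDimensional R N] (x : R), RatF κ x →
    ∀ z : R, ∃ φ : N, Algebra.norm R φ = z

/-- an invariant function on the places which kills the principal divisors is constant -/
def S_T1A : Prop :=
  ∀ (ℓ : ℕ) [Fact ℓ.Prime] (κ R N : Type) [Field κ] [IsAlgClosed κ] [CharZero κ] [Field R]
    [Field N] [Algebra κ R] [Algebra κ N] [Algebra R N] [IsScalarTower κ R N]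
    [FiniteDimensional R N] [IsGalois R N] [IsFF κ N] (x : R), RatF κ x →
    ∀ f : Place κ N → ZMod ℓ,
      (∀ (g : N ≃ₐ[R] N) (w w' : Place κ N), (∀ z, w'.ord z = w.ord (g z)) → f w' = f w) →
      (∀ z : N, z ≠ 0 → (divisor κ z).sum (fun w n => f w * (n : ZMod ℓ)) = 0) →
      ∀ w w', f w = f w'

/-- every nontrivial character is nontrivial on the stabiliser of some place -/
def S_T1B : Prop :=
  ∀ (ℓ : ℕ) [Fact ℓ.Prime] (κ R N : Type) [Field κ] [IsAlgClosed κ] [CharZero κ] [Field R]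
    [Field N] [Algebra κ R] [Algebra κ N] [Algebra R N] [IsScalarTower κ R N]
    [FiniteDimensional R N] [IsGalois R N] [IsFF κ N] (x : R), RatF κ x →
    ∀ χ : (N ≃ₐ[R] N) →* Multiplicative (ZMod ℓ), χ ≠ 1 →
      ∃ (w : Place κ N) (c : N ≃ₐ[R] N), Fixes w c ∧ χ c ≠ 1

/-- divisors of degree divisible by `ℓ` are principal modulo `ℓ` -/
def S_T1 : Prop :=
  ∀ (ℓ : ℕ) [Fact ℓ.Prime] (κ R N : Type) [Field κ] [IsAlgClosed κ] [CharZero κ] [Field R]
    [Field N] [Algebra κ R] [Algebra κ N] [Algebra R N] [IsScalarTower κ R N]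
    [FiniteDimensional R N] [IsGalois R N] [IsFF κ N] (x : R), RatF κ x →
    (∃ m : ℕ, Module.finrank R N = ℓ ^ m) →
    ∀ D : Place κ N →₀ ℤ, (ℓ : ℤ) ∣ D.sum (fun _ n => n) →
      ∃ z : N, z ≠ 0 ∧ ∀ w, (ℓ : ℤ) ∣ w.ord z - D w

/-- the prolongations of a valuation ring to a normal extension are conjugate -/
def S_CONJ : Prop :=
  ∀ (R M : Type) [Field R] [Field M] [Algebra R M] [Normal R M] (V V' : ValuationSubring M),
    V.comap (algebraMap R M) = V'.comap (algebraMap R M) →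
    ∃ γ : M ≃ₐ[R] M, ∀ z, z ∈ V' ↔ γ z ∈ V

/-- a valuation ring has a prolongation to every extension field -/
def S_EXTV : Prop :=
  ∀ (S M : Type) [Field S] [Field M] [Algebra S M] (V : ValuationSubring S),
    ∃ V' : ValuationSubring M, V'.comap (algebraMap S M) = V

/-- a subextension of a pro-`ℓ` extension which is closed under `ℓ`-th roots is everything -/
def S_PROL : Prop :=
  ∀ (ℓ : ℕ) [Fact ℓ.Prime] (R M : Type) [Field R] [Field M] [Algebra R M] [CharZero R],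
    (∃ ζ : R, IsPrimitiveRoot ζ ℓ) → IsGalois R M →
    (∀ z : M, ∃ N : IntermediateField R M, z ∈ N ∧ Lev ℓ N) →
    ∀ S : IntermediateField R M, (∀ h : M, h ^ ℓ ∈ S → h ∈ S) → S = ⊤

/-- an automorphism which fixes a place and a uniformiser is trivial -/
def S_STAB : Prop :=
  ∀ (κ K : Type) [Field κ] [IsAlgClosed κ] [Field K] [Algebra κ K] (x : K),
    Algebra.IsAlgebraic (IntermediateField.adjoin κ {x}) K →
    ∀ (W : Place κ K) (γ : K ≃ₐ[κ] K), Fixes W γ → ∀ π : K, W.ord π = 1 → γ π = π → γ = 1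

/-- places of `M` and of a finite level -/
def S_RES : Prop :=
  ∀ (ℓ : ℕ) [Fact ℓ.Prime] (κ R M : Type) [Field κ] [IsAlgClosed κ] [CharZero κ] [Field R]
    [Field M] [Algebra κ R] [Algebra R M] [Algebra κ M] [IsScalarTower κ R M] (x : R)
    (B : Finset κ) (Y : M), Cov ℓ κ R M x B Y →
    ∀ N : IntermediateField R M, FiniteDimensional R N → Y ∈ N →
      (∀ W : Place κ M, ∃ w : Place κ N, ∀ z : N, W.ord (z : M) = w.ord z) ∧
      (∀ w : Place κ N, ∃ W : Place κ M, ∀ z : N, W.ord (z : M) = w.ord z) ∧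
      (∀ W W' : Place κ M, (∀ z : N, W.ord (z : M) = W'.ord (z : M)) →
        ∃ γ : M ≃ₐ[R] M, (∀ z ∈ N, γ z = z) ∧ ∀ z, W'.ord z = W.ord (γ z))

/-! ## Elements of order `ℓ` -/

/-- an element of order `ℓ` fixes a place -/
def S_EXF : Prop :=
  ∀ (ℓ : ℕ) [Fact ℓ.Prime] (κ R M : Type) [Field κ] [IsAlgClosed κ] [CharZero κ] [Field R]
    [Field M] [Algebra κ R] [Algebra R M] [Algebra κ M] [IsScalarTower κ R M] (x : R)
    (B : Finset κ) (Y : M), Cov ℓ κ R M x B Y →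
    ∀ γ : M ≃ₐ[R] M, γ ^ ℓ = 1 → γ ≠ 1 → ∃ W : Place κ M, Fixes W γ

/-- an element of order `ℓ` fixes only one place -/
def S_UNQ : Prop :=
  ∀ (ℓ : ℕ) [Fact ℓ.Prime] (κ R M : Type) [Field κ] [IsAlgClosed κ] [CharZero κ] [Field R]
    [Field M] [Algebra κ R] [Algebra R M] [Algebra κ M] [IsScalarTower κ R M] (x : R)
    (B : Finset κ) (Y : M), Cov ℓ κ R M x B Y →
    ∀ γ : M ≃ₐ[R] M, γ ^ ℓ = 1 → γ ≠ 1 → ∀ W W' : Place κ M, Fixes W γ → Fixes W' γ → W = W'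

/-- the group of the elements with an `ℓ ^ n`-th power in `N`, modulo `N`, is `ℓ`-divisible -/
def S_DIVS : Prop :=
  ∀ (ℓ : ℕ) [Fact ℓ.Prime] (κ R M : Type) [Field κ] [IsAlgClosed κ] [CharZero κ] [Field R]
    [Field M] [Algebra κ R] [Algebra R M] [Algebra κ M] [IsScalarTower κ R M] (x : R)
    (B : Finset κ) (Y : M), Cov ℓ κ R M x B Y →
    ∀ N : IntermediateField R M, Lev ℓ N → Y ∈ N → ∀ (h : M) (n : ℕ), h ≠ 0 → h ^ (ℓ ^ n) ∈ N →
      ∃ z ∈ N, ∃ g : M, z ≠ 0 ∧ h = z * g ^ ℓ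

/-- the `ℓ`-torsion of this group is finite -/
def S_FINS : Prop :=
  ∀ (ℓ : ℕ) [Fact ℓ.Prime] (κ R M : Type) [Field κ] [IsAlgClosed κ] [CharZero κ] [Field R]
    [Field M] [Algebra κ R] [Algebra R M] [Algebra κ M] [IsScalarTower κ R M] (x : R)
    (B : Finset κ) (Y : M), Cov ℓ κ R M x B Y →
    ∀ N : IntermediateField R M, Lev ℓ N → Y ∈ N → FinCls N.toSubfield (fun h => h ^ ℓ ∈ N)

/-! ## Reduction -/

/-- embeddings of `M` in the field of functions on a disc -/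
def S_EMB : Prop :=
  ∀ (ℓ : ℕ) [Fact ℓ.Prime] (κ R M : Type) [Field κ] [IsAlgClosed κ] [CharZero κ] [Field R]
    [Field M] [Algebra κ R] [Algebra R M] [Algebra κ M] [IsScalarTower κ R M] (x : R)
    (B : Finset κ) (Y : M), Cov ℓ κ R M x B Y →
    ∀ (E : Type) [Field E] [Algebra κ E] (pts : Set (Place κ E)),
      (∀ g : E, g ≠ 0 → (∀ P ∈ pts, (ℓ : ℤ) ∣ P.ord g) → ∃ h : E, h ^ ℓ = g) →
      ∀ X : E, Transcendental κ X →
        (∀ P ∈ pts, (ℓ : ℤ) ∣ P.ord (∏ e ∈ B, (X - algebraMap κ E e))) →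
        ∃ j : M →ₐ[κ] E, j (algebraMap R M x) = X

/-- for every branch point there is a prolongation of the Gauss valuation which is fixed by an
inertia generator of this branch point -/
def HasRot (κ R M : Type) [Field κ] [Field R] [Field M] [Algebra κ R] [Algebra R M] [Algebra κ M]
    [IsScalarTower κ R M] (x : R) (B : Finset κ) (Y : M) (V : ValuationSubring κ) : Prop :=
  ∀ e ∈ B, ∃ (O : ValuationSubring M) (c : M ≃ₐ[R] M) (W : Place κ M),
    Gauss V (algebraMap R M x) O ∧ (∀ z, c z ∈ O ↔ z ∈ O) ∧ Fixes W c ∧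
    0 < W.ord (algebraMap R M x - algebraMap κ M e) ∧ c Y ≠ Y

def S_GEX : Prop :=
  ∀ (ℓ : ℕ) [Fact ℓ.Prime] (κ R M : Type) [Field κ] [IsAlgClosed κ] [CharZero κ] [Field R]
    [Field M] [Algebra κ R] [Algebra R M] [Algebra κ M] [IsScalarTower κ R M] (x : R)
    (B : Finset κ) (Y : M), Cov ℓ κ R M x B Y →
    ∀ (F : Type) [Field F] (V : ValuationSubring κ) (r : V →+* F), Res V r → Good V B →
      ∀ D : Disc ℓ V r, HasRot κ R M x B Y V

/-- the Gauss valuation has only one prolongation -/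
def S_GUN : Prop :=
  ∀ (ℓ : ℕ) [Fact ℓ.Prime] (κ R M : Type) [Field κ] [IsAlgClosed κ] [CharZero κ] [Field R]
    [Field M] [Algebra κ R] [Algebra R M] [Algebra κ M] [IsScalarTower κ R M] (x : R)
    (B : Finset κ) (Y : M), Cov ℓ κ R M x B Y →
    ∀ V : ValuationSubring κ, HasRot κ R M x B Y V →
      ∀ O O' : ValuationSubring M, Gauss V (algebraMap R M x) O → Gauss V (algebraMap R M x) O' →
        O = O'

/-- value group, and `Gal(M/R)` acts faithfully on the residue field -/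
def S_G2 : Prop :=
  ∀ (ℓ : ℕ) [Fact ℓ.Prime] (κ R M : Type) [Field κ] [IsAlgClosed κ] [CharZero κ] [Field R]
    [Field M] [Algebra κ R] [Algebra R M] [Algebra κ M] [IsScalarTower κ R M] (x : R)
    (B : Finset κ) (Y : M), Cov ℓ κ R M x B Y →
    ∀ (V : ValuationSubring κ) (O : ValuationSubring M), Gauss V (algebraMap R M x) O →
      (∀ z : M, z ≠ 0 → ∃ c : κ, c ≠ 0 ∧ IsU O (z / algebraMap κ M c)) ∧
      (IsU V (ℓ : κ) → ∀ N : IntermediateField R M, Lev ℓ N → ∀ γ : M ≃ₐ[R] M,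
        (∀ z ∈ O, z ∈ N → γ z - z ∈ O.nonunits) → ∀ z ∈ N, γ z = z)

/-- `Gal(M/R)` maps onto the automorphism group of the residue field -/
def S_G3 : Prop :=
  ∀ (ℓ : ℕ) [Fact ℓ.Prime] (κ R M : Type) [Field κ] [IsAlgClosed κ] [CharZero κ] [Field R]
    [Field M] [Algebra κ R] [Algebra R M] [Algebra κ M] [IsScalarTower κ R M] (x : R)
    (B : Finset κ) (Y : M), Cov ℓ κ R M x B Y →
    ∀ (V : ValuationSubring κ) (O : ValuationSubring M) (hO : Gauss V (algebraMap R M x) O),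
      (∀ O' : ValuationSubring M, Gauss V (algebraMap R M x) O' → O' = O) →
      ∀ (k : Type) [Field k] (r : O →+* k), Res O r →
        ∀ τ : k ≃+* k, (∀ (c : κ) (hc : algebraMap κ M c ∈ O), τ (r ⟨_, hc⟩) = r ⟨_, hc⟩) →
          (∀ hx : algebraMap R M x ∈ O, τ (r ⟨_, hx⟩) = r ⟨_, hx⟩) →
          ∃ γ : M ≃ₐ[R] M, ∀ (z : M) (hz : z ∈ O) (hγ : γ z ∈ O), r ⟨γ z, hγ⟩ = τ (r ⟨z, hz⟩)

/-- the residue field of a level is finite and separable over `F(x)` -/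
def S_G5 : Prop :=
  ∀ (ℓ : ℕ) [Fact ℓ.Prime] (κ R M : Type) [Field κ] [IsAlgClosed κ] [CharZero κ] [Field R]
    [Field M] [Algebra κ R] [Algebra R M] [Algebra κ M] [IsScalarTower κ R M] (x : R)
    (B : Finset κ) (Y : M), Cov ℓ κ R M x B Y →
    ∀ (F : Type) [Field F] (V : ValuationSubring κ) (r : V →+* F), Res V r →
    IsU V (ℓ : κ) →
    ∀ (O : ValuationSubring M) (hO : Gauss V (algebraMap R M x) O),
      (∀ O' : ValuationSubring M, Gauss V (algebraMap R M x) O' → O' = O) →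
    ∀ (k : Type) [Field k] [Algebra F k] (s : O →+* k), Res O s →
      (∀ (c : κ) (hc : c ∈ V) (hc' : algebraMap κ M c ∈ O),
        s ⟨_, hc'⟩ = algebraMap F k (r ⟨c, hc⟩)) →
    ∀ (xb : k), (∀ hx : algebraMap R M x ∈ O, s ⟨_, hx⟩ = xb) → Transcendental F xb ∧
    ∀ N : IntermediateField R M, Lev ℓ N →
    ∀ Nb : IntermediateField F k, (∀ y, y ∈ Nb ↔ ∃ (z : M) (hz : z ∈ O), z ∈ N ∧ s ⟨z, hz⟩ = y) →
      (∃ b : Finset k, ∀ z ∈ Nb, z ∈ Submodule.span (IntermediateField.adjoin F {xb}) (b : Set k)) ∧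
      (∀ z ∈ Nb, IsSeparable (IntermediateField.adjoin F {xb}) z)

/-- the residue field of `M` is unramified over the one of a level -/
def S_G4 : Prop :=
  ∀ (ℓ : ℕ) [Fact ℓ.Prime] (κ R M : Type) [Field κ] [IsAlgClosed κ] [CharZero κ] [Field R]
    [Field M] [Algebra κ R] [Algebra R M] [Algebra κ M] [IsScalarTower κ R M] (x : R)
    (B : Finset κ) (Y : M), Cov ℓ κ R M x B Y →
    ∀ (F : Type) [Field F] (V : ValuationSubring κ) (r : V →+* F), Res V r → Good V B →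
    IsU V (ℓ : κ) → ∀ D : Disc ℓ V r,
    ∀ O : ValuationSubring M, Gauss V (algebraMap R M x) O →
      (∀ O' : ValuationSubring M, Gauss V (algebraMap R M x) O' → O' = O) →
    ∀ (k : Type) [Field k] [Algebra F k] (s : O →+* k), Res O s →
      (∀ (c : κ) (hc : c ∈ V) (hc' : algebraMap κ M c ∈ O),
        s ⟨_, hc'⟩ = algebraMap F k (r ⟨c, hc⟩)) →
    ∀ N : IntermediateField R M, Lev ℓ N → Y ∈ N →
    ∀ Nb : IntermediateField F k, (∀ y, y ∈ Nb ↔ ∃ (z : M) (hz : z ∈ O), z ∈ N ∧ s ⟨z, hz⟩ = y) →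
    ∀ (h : M) (hh : h ∈ O) (n : ℕ), h⁻¹ ∈ O → h ≠ 0 → h ^ (ℓ ^ n) ∈ N →
      ∀ (w : Place F Nb) (y : Nb), (y : k) = s ⟨h, hh⟩ ^ (ℓ ^ n) → ((ℓ : ℤ) ^ n) ∣ w.ord y

/-! ## Finiteness over finite fields -/

/-- functions over a finite constant field with divisor divisible by `ℓ ^ n` -/
def S_CLF1 : Prop :=
  ∀ (ℓ : ℕ) [Fact ℓ.Prime] (k K : Type) [Field k] [Finite k] [Field K] [Algebra k K] (x : K),
    Transcendental k x → FiniteDimensional (IntermediateField.adjoin k {x}) K →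
    Algebra.IsSeparable (IntermediateField.adjoin k {x}) K →
    ∃ C : ℕ, ∀ (n : ℕ) (T : Finset K),
      (∀ h ∈ T, h ≠ 0 ∧ ∀ w : Place k K, ((ℓ : ℤ) ^ n) ∣ w.ord h) → C < T.card →
      ∃ h ∈ T, ∃ h' ∈ T, h ≠ h' ∧ ∃ g : K, h = h' * g ^ (ℓ ^ n)

/-- the finiteness of the Frobenius invariants -/
def S_CLF : Prop :=
  ∀ (ℓ q : ℕ) [Fact ℓ.Prime] (F K : Type) [Field F] [IsAlgClosed F] [Field K] [Algebra F K]
    (p : ℕ) [Fact p.Prime] [CharP F p] (a : ℕ), 0 < a → q = p ^ a → ℓ ≠ p →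
    (∀ c : F, ∃ m : ℕ, 0 < m ∧ c ^ (q ^ m) = c) →
    ∀ (x : K), Transcendental F x →
    ∀ N : IntermediateField F K, x ∈ N →
      (∃ b : Finset K, ∀ z ∈ N, z ∈ Submodule.span (IntermediateField.adjoin F {x}) (b : Set K)) →
      (∀ z ∈ N, IsSeparable (IntermediateField.adjoin F {x}) z) →
    ∀ Φ : K ≃+* K, (∀ c : F, Φ (algebraMap F K c) = algebraMap F K (c ^ q)) → Φ x = x →
      (∀ z, Φ z ∈ N ↔ z ∈ N) → (∀ z : K, ∃ m : ℕ, 0 < m ∧ (Φ ^ m) z = z) →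
      FinCls N.toSubfield (fun h => (∃ (n : ℕ) (hn : h ^ (ℓ ^ n) ∈ N),
        ∀ w : Place F N, ((ℓ : ℤ) ^ n) ∣ w.ord ⟨_, hn⟩) ∧ Φ h / h ∈ N)

/-- `φ` lifts the Frobenius automorphism of the field of constants: the classes of `M` modulo `N`
fixed by `φ` are finite in number -/
def S_FIXF : Prop :=
  ∀ (ℓ : ℕ) [Fact ℓ.Prime] (κ R M : Type) [Field κ] [IsAlgClosed κ] [CharZero κ] [Field R]
    [Field M] [Algebra κ R] [Algebra R M] [Algebra κ M] [IsScalarTower κ R M] (x : R)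
    (B : Finset κ) (Y : M), Cov ℓ κ R M x B Y →
    ∀ (F : Type) [Field F] (V : ValuationSubring κ) (r : V →+* F), Res V r → Good V B →
    IsU V (ℓ : κ) → ∀ D : Disc ℓ V r,
    ∀ (p : ℕ) [Fact p.Prime] [CharP F p] (q a : ℕ), 0 < a → q = p ^ a →
    (∀ c : F, ∃ m : ℕ, 0 < m ∧ c ^ (q ^ m) = c) →
    ∀ O : ValuationSubring M, Gauss V (algebraMap R M x) O →
      (∀ O' : ValuationSubring M, Gauss V (algebraMap R M x) O' → O' = O) →
    ∀ N : IntermediateField R M, Lev ℓ N → Y ∈ N →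
    ∀ (φ : M ≃+* M) (φ₀ : κ ≃+* κ), (∀ c, φ (algebraMap κ M c) = algebraMap κ M (φ₀ c)) →
      φ (algebraMap R M x) = algebraMap R M x → (∀ z, φ z ∈ N ↔ z ∈ N) →
      (∀ c, φ₀ c ∈ V ↔ c ∈ V) → (∀ c ∈ V, φ₀ c - c ^ q ∈ V.nonunits) →
      FinCls N.toSubfield (fun h => (∃ n : ℕ, h ^ (ℓ ^ n) ∈ N) ∧ φ h / h ∈ N)

/-- `φ - 1` is surjective -/
def S_SURJ : Prop :=
  ∀ (ℓ : ℕ) [Fact ℓ.Prime] (M : Type) [Field M] (N : Subfield M) (φ : M ≃+* M),
    (∀ z, φ z ∈ N ↔ z ∈ N) →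
    (∀ (h : M) (n : ℕ), h ≠ 0 → h ^ (ℓ ^ n) ∈ N → ∃ z ∈ N, ∃ g : M, z ≠ 0 ∧ h = z * g ^ ℓ) →
    FinCls N (fun h => h ^ ℓ ∈ N) →
    FinCls N (fun h => (∃ n : ℕ, h ^ (ℓ ^ n) ∈ N) ∧ φ h / h ∈ N) →
    ∀ (h : M) (n : ℕ), h ≠ 0 → h ^ (ℓ ^ n) ∈ N →
      ∃ (g : M) (m : ℕ) (w : M), g ≠ 0 ∧ g ^ (ℓ ^ m) ∈ N ∧ w ∈ N ∧ h = φ g / g * w

/-! ## Inertia -/

/-- the field, valuation and element `δ` used for the local theorem: `δ ^ ℓ` has valuation `m`
prime to `ℓ` -/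
structure Base (ℓ : ℕ) (A k κ : Type) [CommRing A] [IsDomain A] [IsDiscreteValuationRing A]
    [Field k] [Field κ] [Algebra A k] [Algebra k κ] [Algebra A κ] [IsScalarTower A k κ]
    (V : ValuationSubring κ) (ϖ : A) (δ : κ) (m : ℤ) : Prop where
  lunit : IsUnit (ℓ : A)
  mem : ∀ a : A, algebraMap A κ a ∈ V
  non : ∀ a ∈ IsLocalRing.maximalIdeal A, algebraMap A κ a ∈ V.nonunits
  irr : Irreducible ϖ
  cop : ¬ (ℓ : ℤ) ∣ m
  δk : ∃ d : k, δ ^ ℓ = algebraMap k κ d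
  δv : IsU V (δ ^ ℓ / algebraMap A κ ϖ ^ m)

/-- the decomposition group -/
def Dec {k κ : Type} [Field k] [Field κ] [Algebra k κ] (V : ValuationSubring κ)
    (σ : κ ≃ₐ[k] κ) : Prop := ∀ z, σ z ∈ V ↔ z ∈ V

/-- the inertia group -/
def Ine {k κ : Type} [Field k] [Field κ] [Algebra k κ] (V : ValuationSubring κ)
    (σ : κ ≃ₐ[k] κ) : Prop := Dec V σ ∧ ∀ z ∈ V, σ z - z ∈ V.nonunits

/-- a Frobenius element -/
def Fro {k κ : Type} [Field k] [Field κ] [Algebra k κ] (V : ValuationSubring κ) (q : ℕ)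
    (σ : κ ≃ₐ[k] κ) : Prop := Dec V σ ∧ ∀ z ∈ V, σ z - z ^ q ∈ V.nonunits

/-- the fixed field of the inertia group is unramified -/
def S_INE : Prop :=
  ∀ (A k κ : Type) [CommRing A] [IsDomain A] [IsDiscreteValuationRing A] [Field k] [Field κ]
    [Algebra A k] [Algebra k κ] [Algebra A κ] [IsScalarTower A k κ] [IsFractionRing A k]
    [CharZero k] [IsAlgClosure k κ] [Finite (IsLocalRing.ResidueField A)]
    (V : ValuationSubring κ) (ϖ : A), (∀ a : A, algebraMap A κ a ∈ V) →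
    (∀ a ∈ IsLocalRing.maximalIdeal A, algebraMap A κ a ∈ V.nonunits) → Irreducible ϖ →
    ∀ c : κ, c ≠ 0 → (∀ σ : κ ≃ₐ[k] κ, Ine V σ → σ c = c) →
      ∃ j : ℤ, IsU V (c / algebraMap A κ ϖ ^ j)

/-- there is a Frobenius element at every prolongation of the valuation -/
def S_FRO : Prop :=
  ∀ (A k κ : Type) [CommRing A] [IsDomain A] [IsDiscreteValuationRing A] [Field k] [Field κ]
    [Algebra A k] [Algebra k κ] [Algebra A κ] [IsScalarTower A k κ] [IsFractionRing A k]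
    [CharZero k] [IsAlgClosure k κ] [Finite (IsLocalRing.ResidueField A)]
    (V : ValuationSubring κ), (∀ a : A, algebraMap A κ a ∈ V) →
    (∀ a ∈ IsLocalRing.maximalIdeal A, algebraMap A κ a ∈ V.nonunits) →
    ∃ σ : κ ≃ₐ[k] κ, Fro V (Nat.card (IsLocalRing.ResidueField A)) σ

/-- the elements `τ` and `φ` -/
def S_TAU : Prop :=
  ∀ (ℓ : ℕ) [Fact ℓ.Prime] (A k κ : Type) [CommRing A] [IsDomain A] [IsDiscreteValuationRing A]
    [Field k] [Field κ] [Algebra A k] [Algebra k κ] [Algebra A κ] [IsScalarTower A k κ]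
    [IsFractionRing A k] [CharZero k] [IsAlgClosure k κ] [Finite (IsLocalRing.ResidueField A)]
    (V : ValuationSubring κ) (ϖ : A) (δ : κ) (m : ℤ), Base ℓ A k κ V ϖ δ m →
    (∃ φ : κ ≃ₐ[k] κ, Fro V (Nat.card (IsLocalRing.ResidueField A)) φ ∧ φ δ = δ) ∧
    ∃ τ : κ ≃ₐ[k] κ, Ine V τ ∧ τ δ ≠ δ ∧ (τ ^ ℓ) δ = δ ∧
      ∀ σ : κ ≃ₐ[k] κ, Ine V σ → ∃ a : ℕ, (τ⁻¹ ^ a * σ) δ = δ

/-- characters of the inertia group, and conjugation by Frobenius -/
def S_KUM : Prop :=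
  ∀ (ℓ : ℕ) [Fact ℓ.Prime] (A k κ : Type) [CommRing A] [IsDomain A] [IsDiscreteValuationRing A]
    [Field k] [Field κ] [Algebra A k] [Algebra k κ] [Algebra A κ] [IsScalarTower A k κ]
    [IsFractionRing A k] [CharZero k] [IsAlgClosure k κ] [Finite (IsLocalRing.ResidueField A)]
    (V : ValuationSubring κ) (ϖ : A) (δ : κ) (m : ℤ), Base ℓ A k κ V ϖ δ m →
    ∀ φ : κ ≃ₐ[k] κ, Fro V (Nat.card (IsLocalRing.ResidueField A)) φ → φ δ = δ →
    ∀ (n : ℕ) (χ : (κ ≃ₐ[k] κ) → κ),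
      (∀ σ, Ine V σ → σ δ = δ → χ σ ^ (ℓ ^ n) = 1) →
      (∀ σ σ', Ine V σ → σ δ = δ → Ine V σ' → σ' δ = δ → χ (σ * σ') = χ σ * χ σ') →
      (∃ E : IntermediateField k κ, FiniteDimensional k E ∧
        ∀ σ ∈ E.fixingSubgroup, Ine V σ → σ δ = δ → χ σ = 1) →
      ∀ σ, Ine V σ → σ δ = δ →
        χ (φ * σ * φ⁻¹) = χ σ ^ Nat.card (IsLocalRing.ResidueField A)

/-! ## The section -/

/-- a semilinear action of `Gal(κ/k)` on `M` which fixes `x` and `Y / δ` -/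
structure Sec (k κ R M : Type) [Field k] [Field κ] [Field R] [Field M] [Algebra k κ] [Algebra κ R]
    [Algebra R M] [Algebra κ M] (x : R) (Y : M) (δ : κ)
    (s : (κ ≃ₐ[k] κ) →* RingAut M) : Prop where
  const : ∀ σ c, s σ (algebraMap κ M c) = algebraMap κ M (σ c)
  fixx : ∀ σ, s σ (algebraMap R M x) = algebraMap R M x
  fixy : ∀ σ, s σ Y = algebraMap κ M (σ δ / δ) * Y
  cont : ∀ z : M, ∃ E : IntermediateField k κ, FiniteDimensional k E ∧
    ∀ σ ∈ E.fixingSubgroup, s σ z = z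

/-- the weight argument: `s(σ)` acts trivially on the residue field for all `σ` in the inertia group
which fix `δ` -/
def S_WGT : Prop :=
  ∀ (ℓ : ℕ) [Fact ℓ.Prime] (A k κ R M : Type) [CommRing A] [IsDomain A]
    [IsDiscreteValuationRing A] [Field k] [Field κ] [Algebra A k] [Algebra k κ] [Algebra A κ]
    [IsScalarTower A k κ] [IsFractionRing A k] [CharZero k] [IsAlgClosure k κ]
    [Finite (IsLocalRing.ResidueField A)] [Field R] [Field M] [Algebra κ R] [Algebra R M]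
    [Algebra κ M] [IsScalarTower κ R M] (V : ValuationSubring κ) (ϖ : A) (δ : κ) (m : ℤ),
    Base ℓ A k κ V ϖ δ m → ∀ (x : R) (B : Finset κ) (Y : M), Cov ℓ κ R M x B Y → Good V B →
    ∀ (F : Type) [Field F] (r : V →+* F), Res V r → ∀ D : Disc ℓ V r,
    ∀ s : (κ ≃ₐ[k] κ) →* RingAut M, Sec k κ R M x Y δ s →
    ∀ O : ValuationSubring M, Gauss V (algebraMap R M x) O →
      (∀ O' : ValuationSubring M, Gauss V (algebraMap R M x) O' → O' = O) →
    ∀ σ, Ine V σ → σ δ = δ → ∀ z ∈ O, s σ z - z ∈ O.nonunits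

/-- **the abstract local theorem** -/
def S_LOC : Prop :=
  ∀ (ℓ : ℕ) [Fact ℓ.Prime] (A k κ R M : Type) [CommRing A] [IsDomain A]
    [IsDiscreteValuationRing A] [Field k] [Field κ] [Algebra A k] [Algebra k κ] [Algebra A κ]
    [IsScalarTower A k κ] [IsFractionRing A k] [CharZero k] [IsAlgClosure k κ]
    [Finite (IsLocalRing.ResidueField A)] [Field R] [Field M] [Algebra κ R] [Algebra R M]
    [Algebra κ M] [IsScalarTower κ R M] (V : ValuationSubring κ) (ϖ : A) (δ : κ) (m : ℤ),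
    Base ℓ A k κ V ϖ δ m → ∀ (x : R) (B : Finset κ) (Y : M), Cov ℓ κ R M x B Y → Good V B →
    ∀ (F : Type) [Field F] (r : V →+* F), Res V r → ∀ D : Disc ℓ V r,
    ∀ s : (κ ≃ₐ[k] κ) →* RingAut M, Sec k κ R M x Y δ s →
    ∃ W : Place κ M, (∃ e ∈ B, 0 < W.ord (algebraMap R M x - algebraMap κ M e) ∧
        ∀ σ : κ ≃ₐ[k] κ, Dec V σ → σ e = e) ∧
      (∀ σ : κ ≃ₐ[k] κ, Dec V σ → Fixes W (s σ)) ∧
      ∀ W' : Place κ M, (∃ e ∈ B, 0 < W'.ord (algebraMap R M x - algebraMap κ M e)) →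
        (∀ σ : κ ≃ₐ[k] κ, Dec V σ → Fixes W' (s σ)) → W' = W

end Pool.Agent.Y157.PS
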