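import Pool.Agent.Y157.PS.Tools

/-! # The abstract local theorem -/

set_option autoImplicit false
set_option linter.all false

open Polynomial FF

namespace Pool.Agent.Y157.PS

/-- algebraic elements are constants -/
theorem const_of_alg {κ M : Type} [Field κ] [IsAlgClosed κ] [Field M] [Algebra κ M] {z : M}
    (h : IsAlgebraic κ z) : ∃ c : κ, algebraMap κ M c = z := by
  have h1 : Algebra.IsAlgebraic κ (IntermediateField.adjoin κ {z}) :=
    IntermediateField.isAlgebraic_adjoin_simple h.isIntegral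
  have h2 := IntermediateField.eq_bot_of_isAlgClosed_of_isAlgebraic (IntermediateField.adjoin κ {z})
  have h3 : z ∈ IntermediateField.adjoin κ {z} := IntermediateField.mem_adjoin_simple_self κ z
  rw [h2, IntermediateField.mem_bot] at h3
  exact h3

/-- roots of constants are constants -/
theorem const_of_pow {κ M : Type} [Field κ] [IsAlgClosed κ] [Field M] [Algebra κ M] {z : M}
    {n : ℕ} (hn : 0 < n) {a : κ} (h : z ^ n = algebraMap κ M a) :
    ∃ c : κ, algebraMap κ M c = z ∧ c ^ n = a := by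
  obtain ⟨c, hc⟩ := const_of_alg (κ := κ) (z := z) ⟨X ^ n - C a, X_pow_sub_C_ne_zero hn a, by
    rw [map_sub, map_pow, aeval_X, aeval_C, h, sub_self]⟩
  refine ⟨c, hc, (algebraMap κ M).injective ?_⟩
  rw [map_pow, hc, h]

section residue

variable {K : Type} [Field K] {O : ValuationSubring K}

theorem residue_zero_iff (z : O) : IsLocalRing.residue O z = 0 ↔ (z : K) ∈ O.nonunits := by
  rw [IsLocalRing.residue_eq_zero_iff, ValuationSubring.coe_mem_nonunits_iff]

theorem res_residue : Res O (IsLocalRing.residue O) :=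
  ⟨IsLocalRing.residue_surjective, residue_zero_iff⟩

theorem stable_non {τ : K ≃+* K} (h : ∀ z, τ z ∈ O ↔ z ∈ O) (z : K) :
    τ z ∈ O.nonunits ↔ z ∈ O.nonunits := by
  rw [nonunits_iff, nonunits_iff, h, ← map_inv₀, h, map_eq_zero_iff τ τ.injective]

end residue

section groups

variable {k κ : Type} [Field k] [Field κ] [Algebra k κ] {V : ValuationSubring κ}

theorem Dec.non {σ : κ ≃ₐ[k] κ} (h : Dec V σ) (z : κ) : σ z ∈ V.nonunits ↔ z ∈ V.nonunits :=
  stable_non (τ := (σ : κ ≃+* κ)) h z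

theorem Dec.mul {σ σ' : κ ≃ₐ[k] κ} (h : Dec V σ) (h' : Dec V σ') : Dec V (σ * σ') := by
  intro z
  change σ (σ' z) ∈ V ↔ _
  rw [h, h']

theorem Dec.inv {σ : κ ≃ₐ[k] κ} (h : Dec V σ) : Dec V σ⁻¹ := by
  intro z
  rw [← h]
  change σ (σ.symm z) ∈ V ↔ _
  rw [σ.apply_symm_apply]

theorem Ine.one : Ine V (1 : κ ≃ₐ[k] κ) :=
  ⟨fun z => Iff.rfl, fun z hz => by
    change z - z ∈ _
    rw [sub_self]; exact nonunits_iff.2 ⟨zero_mem _, Or.inl rfl⟩⟩

theorem Ine.mul {σ σ' : κ ≃ₐ[k] κ} (h : Ine V σ) (h' : Ine V σ') : Ine V (σ * σ') := by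
  refine ⟨h.1.mul h'.1, fun z hz => ?_⟩
  change σ (σ' z) - z ∈ _
  have : σ (σ' z) - z = (σ (σ' z) - σ' z) + (σ' z - z) := by ring
  rw [this]
  exact non_add (h.2 _ ((h'.1 z).2 hz)) (h'.2 z hz)

theorem Ine.inv {σ : κ ≃ₐ[k] κ} (h : Ine V σ) : Ine V σ⁻¹ := by
  refine ⟨h.1.inv, fun z hz => ?_⟩
  rw [← h.1.non, map_sub]
  change σ (σ.symm z) - σ z ∈ _
  rw [σ.apply_symm_apply, ← neg_sub]
  exact non_neg (h.2 z hz)

theorem Ine.pow {σ : κ ≃ₐ[k] κ} (h : Ine V σ) (n : ℕ) : Ine V (σ ^ n) := by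
  induction n with
  | zero => rw [pow_zero]; exact Ine.one
  | succ n ih => rw [pow_succ]; exact ih.mul h

theorem Ine.conj {σ τ : κ ≃ₐ[k] κ} (hσ : Dec V σ) (h : Ine V τ) : Ine V (σ⁻¹ * τ * σ) := by
  refine ⟨(hσ.inv.mul h.1).mul hσ, fun z hz => ?_⟩
  change σ.symm (τ (σ z)) - z ∈ _
  rw [← hσ.non, map_sub, σ.apply_symm_apply]
  exact h.2 _ ((hσ z).2 hz)

end groups

section lifts

variable {ℓ : ℕ} [Fact ℓ.Prime] {κ R M : Type} [Field κ] [IsAlgClosed κ] [CharZero κ] [Field R]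
  [Field M] [Algebra κ R] [Algebra R M] [Algebra κ M] [IsScalarTower κ R M] {x : R}
  {B : Finset κ} {Y : M}

/-- an element of `Gal(M/R)` is determined by its action on the residue field -/
theorem unique_lift (hG2 : S_G2) (hC : Cov ℓ κ R M x B Y) {V : ValuationSubring κ}
    (hℓ : IsU V (ℓ : κ)) {O : ValuationSubring M} (hO : Gauss V (algebraMap R M x) O)
    (hun : ∀ O' : ValuationSubring M, Gauss V (algebraMap R M x) O' → O' = O)
    (γ γ' : M ≃ₐ[R] M) (h : ∀ z ∈ O, γ z - γ' z ∈ O.nonunits) : γ = γ' := by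
  have h1 : ∀ z ∈ O, (γ'⁻¹ * γ) z - z ∈ O.nonunits := by
    intro z hz
    have h2 := stable_non (τ := ((γ'⁻¹ : M ≃ₐ[R] M) : M ≃+* M))
      (fun z => hO.stable' hun γ'⁻¹ z) (γ z - γ' z)
    have h3 := h2.2 (h z hz)
    rw [map_sub] at h3
    change γ'.symm (γ z) - γ'.symm (γ' z) ∈ _ at h3
    rw [γ'.symm_apply_apply] at h3
    exact h3
  have h4 : γ'⁻¹ * γ = 1 := by
    ext z
    obtain ⟨N, hz, hN⟩ := hC.pow z
    exact (hG2 ℓ κ R M x B Y hC V O hO).2 hℓ N hN (γ'⁻¹ * γ) (fun z hz _ => h1 z hz) z hz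
  exact (inv_mul_eq_one.1 h4).symm

/-- automorphisms which act trivially on the residues of the constants are lifted -/
theorem exists_lift (hG3 : S_G3) (hC : Cov ℓ κ R M x B Y) {V : ValuationSubring κ}
    {O : ValuationSubring M} (hO : Gauss V (algebraMap R M x) O)
    (hun : ∀ O' : ValuationSubring M, Gauss V (algebraMap R M x) O' → O' = O)
    (τ : M ≃+* M) (hτ : ∀ z, τ z ∈ O ↔ z ∈ O)
    (hc : ∀ c ∈ V, τ (algebraMap κ M c) - algebraMap κ M c ∈ O.nonunits)
    (hx : τ (algebraMap R M x) = algebraMap R M x) :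
    ∃ γ : M ≃ₐ[R] M, ∀ z ∈ O, γ z - τ z ∈ O.nonunits := by
  let τO : O ≃+* O :=
    { toFun := fun z => ⟨τ z, (hτ z).2 z.2⟩
      invFun := fun z => ⟨τ.symm z, (hτ _).1 (by rw [τ.apply_symm_apply]; exact z.2)⟩
      left_inv := fun z => Subtype.ext (τ.symm_apply_apply _)
      right_inv := fun z => Subtype.ext (τ.apply_symm_apply _)
      map_mul' := fun a b => Subtype.ext (map_mul τ _ _)
      map_add' := fun a b => Subtype.ext (map_add τ _ _) }
  have hmap : ∀ z : O, IsLocalRing.ResidueField.mapEquiv τO (IsLocalRing.residue O z) =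
      IsLocalRing.residue O (τO z) := fun z => rfl
  obtain ⟨γ, hγ⟩ := hG3 ℓ κ R M x B Y hC V O hO hun (IsLocalRing.ResidueField O)
    (IsLocalRing.residue O) res_residue (IsLocalRing.ResidueField.mapEquiv τO)
    (by
      intro c hcO
      rw [hmap, ← sub_eq_zero, ← map_sub, residue_zero_iff]
      exact hc c ((hO.1 c).1 hcO))
    (by
      intro hxO
      rw [hmap]
      congr 1
      exact Subtype.ext hx)
  refine ⟨γ, fun z hz => ?_⟩
  have h1 := hγ z hz ((hO.stable' hun γ z).2 hz)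
  rw [hmap, ← sub_eq_zero, ← map_sub, residue_zero_iff] at h1
  exact h1

/-- algebraicity of `M` over `κ(x)` -/
theorem Cov.alg (hC : Cov ℓ κ R M x B Y) :
    Algebra.IsAlgebraic (IntermediateField.adjoin κ {algebraMap R M x}) M := by
  have hRM : Algebra.IsAlgebraic R M := by
    have := hC.gal
    infer_instance
  have h2 : ∀ z : R, algebraMap R M z ∈ IntermediateField.adjoin κ {algebraMap R M x} := by
    intro z
    have h3 : z ∈ IntermediateField.adjoin κ {x} := by rw [hC.rat.gen]; trivial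
    have h4 : (IntermediateField.adjoin κ {x}).map (IsScalarTower.toAlgHom κ R M) =
        IntermediateField.adjoin κ {algebraMap R M x} := by
      rw [IntermediateField.adjoin_map, Set.image_singleton]; rfl
    rw [← h4]
    exact ⟨z, h3, rfl⟩
  let L := IntermediateField.adjoin κ {algebraMap R M x}
  let i : R →+* L := (algebraMap R M).codRestrict L.toSubfield.toSubring h2
  letI : Algebra R L := i.toAlgebra
  have : IsScalarTower R L M := IsScalarTower.of_algebraMap_eq fun z => rfl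
  exact Algebra.IsAlgebraic.tower_top (K := R) L

/-- every place has a uniformiser which is `Y` or in `R` -/
theorem Cov.unif (hC : Cov ℓ κ R M x B Y) (W : Place κ M) :
    (∃ e ∈ B, 0 < W.ord (algebraMap R M x - algebraMap κ M e) ∧ W.ord Y = 1) ∨
      ∃ t : R, W.ord (algebraMap R M t) = 1 := by
  have hℓ := (Fact.out : ℓ.Prime).pos
  rcases hC.loc' W with ⟨e, he, h1, h2⟩ | ⟨a, ha, h1⟩ | h
  · left
    refine ⟨e, he, ?_, h2⟩
    rw [h1]; exact_mod_cast hℓ
  · right
    refine ⟨x - algebraMap κ R a, ?_⟩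
    rw [map_sub, ← IsScalarTower.algebraMap_apply, h1]
  · right
    refine ⟨x⁻¹, ?_⟩
    rw [map_inv₀, W.ord_inv, h]; rfl

theorem Cov.stabR (hSTAB : S_STAB) (hC : Cov ℓ κ R M x B Y) (W : Place κ M) (γ : M ≃ₐ[R] M)
    (hW : Fixes W γ) (π : M) (hπ : W.ord π = 1) (h : γ π = π) : γ = 1 := by
  have h1 := hSTAB κ M (algebraMap R M x) hC.alg W (γ.restrictScalars κ) hW π hπ h
  ext z
  exact DFunLike.congr_fun h1 z

/-- a nontrivial element which fixes a place moves `Y`, and the place is above a branch point -/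
theorem Cov.fixed (hSTAB : S_STAB) (hC : Cov ℓ κ R M x B Y) (W : Place κ M) (γ : M ≃ₐ[R] M)
    (hW : Fixes W γ) (h1 : γ ≠ 1) : γ Y ≠ Y ∧
      ∃ e ∈ B, 0 < W.ord (algebraMap R M x - algebraMap κ M e) ∧ W.ord Y = 1 := by
  rcases hC.unif W with ⟨e, he, h2, h3⟩ | ⟨t, ht⟩
  · exact ⟨fun h => h1 (hC.stabR hSTAB W γ hW Y h3 h), e, he, h2, h3⟩
  · exact absurd (hC.stabR hSTAB W γ hW _ ht (γ.commutes t)) h1

/-- a place above a branch point has uniformiser `Y` -/
theorem Cov.ordY (hC : Cov ℓ κ R M x B Y) (W : Place κ M) {e : κ} (he : e ∈ B)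
    (h : 0 < W.ord (algebraMap R M x - algebraMap κ M e)) : W.ord Y = 1 := by
  rcases hC.loc' W with ⟨e', he', h1, h2⟩ | ⟨a, ha, h1⟩ | h1
  · exact h2
  · exfalso
    by_cases hea : e = a
    · exact ha (hea ▸ he)
    · have := ord_sub_const h hea
      omega
  · exfalso
    have h2 := reg_of_pos h
    have hx0 : algebraMap R M x ≠ 0 := by
      intro h0; rw [h0, W.ord_zero] at h1; omega
    have := (W.reg_iff hx0).1 h2
    omega

/-- `Y` is a unit for the Gauss valuation -/
theorem Cov.Y_isU (hC : Cov ℓ κ R M x B Y) {V : ValuationSubring κ} (hG : Good V B)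
    {O : ValuationSubring M} (hO : Gauss V (algebraMap R M x) O) : IsU O Y := by
  refine isU_of_pow (Fact.out : ℓ.Prime).pos ?_
  rw [hC.eqn]
  have h1 : ∀ e ∈ B, IsU O (algebraMap R M x - algebraMap κ M e) := by
    intro e he
    have h2 : aeval (algebraMap R M x) (X - C e) = algebraMap R M x - algebraMap κ M e := by
      rw [map_sub, aeval_X, aeval_C]
    rw [← h2]
    refine hO.2 _ (fun n => ?_) ⟨1, ?_⟩
    · rw [coeff_sub, coeff_X, coeff_C]
      refine sub_mem ?_ ?_
      · split_ifs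
        · exact one_mem _
        · exact zero_mem _
      · split_ifs
        · exact hG.1 e he
        · exact zero_mem _
    · rw [coeff_sub, coeff_X_one, coeff_C, if_neg one_ne_zero, sub_zero]
      exact isU_one
  have : ∀ T : Finset κ, T ⊆ B → IsU O (∏ e ∈ T, (algebraMap R M x - algebraMap κ M e)) := by
    classical
    intro T
    induction T using Finset.induction_on with
    | empty => intro _; rw [Finset.prod_empty]; exact isU_one
    | insert a T ha ih =>
      intro hT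
      rw [Finset.prod_insert ha]
      exact (h1 a (hT (Finset.mem_insert_self a T))).mul
        (ih fun b hb => hT (Finset.mem_insert_of_mem hb))
  exact this B (Finset.Subset.refl _)

/-- `γ Y = ζ Y` -/
theorem Cov.actY (hC : Cov ℓ κ R M x B Y) (hY : Y ≠ 0) (γ : M ≃ₐ[R] M) :
    ∃ ζ : κ, ζ ^ ℓ = 1 ∧ γ Y = algebraMap κ M ζ * Y := by
  have hℓ := (Fact.out : ℓ.Prime).pos
  have hγ : ∀ c : κ, γ (algebraMap κ M c) = algebraMap κ M c := by
    intro c
    rw [IsScalarTower.algebraMap_apply κ R M, γ.commutes]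
  have h1 : (γ Y) ^ ℓ = Y ^ ℓ := by
    rw [← map_pow, hC.eqn, map_prod]
    refine Finset.prod_congr rfl fun e _ => ?_
    rw [map_sub, γ.commutes, hγ]
  have h2 : (γ Y / Y) ^ ℓ = 1 := by
    rw [div_pow, h1, div_self (pow_ne_zero _ hY)]
  obtain ⟨ζ, hζ, hζ1⟩ := const_of_pow (κ := κ) (z := γ Y / Y) (a := 1) hℓ (by rw [h2, map_one])
  exact ⟨ζ, hζ1, by rw [hζ, div_mul_cancel₀ _ hY]⟩

end lifts

end Pool.Agent.Y157.PS
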