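import Pool.Agent.Y157.PS.GeoC
import Pool.Agent.Y903.PS.T1A
import Pool.Agent.Y529.PS.T1B
import Pool.Agent.Y941.PS.T1C
import Pool.Agent.Y536.PS.CONJ
import Pool.Agent.Y705.PS.PROL
import Pool.Agent.Y705.PS.SURJ
import Pool.Agent.Y536.PS.STAB
import Pool.Agent.Y496.PS.RES
import Pool.Agent.Y31.PS.Exf
import Pool.Agent.Y31.PS.Unq2
import Pool.Agent.Y496.PS.DIVS
import Pool.Agent.Y494.PS.Fins
import Pool.Agent.Y275.PS.Emb
import Pool.Agent.Y529.PS.GEX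
import Pool.Agent.Y248.PS.GUN
import Pool.Agent.Y155.PS.G2
import Pool.Agent.Y155.PS.G3
import Pool.Agent.Y155.PS.G5
import Pool.Agent.Y155.PS.G4
import Pool.Agent.Y37.PS.CLF1
import Pool.Agent.Y732.PS.CLF
import Pool.Agent.Y419.PS.FIXF
import Pool.Agent.Y183.PS.Ine
import Pool.Agent.Y183.PS.Tau
import Pool.Agent.Y655.PS.Kum
import Pool.Agent.Y748.PS.WGT
import Pool.Agent.Y809.PS.K0
import Pool.Agent.Y948.PS.COV
import Pool.Agent.Y809.PS.VAL
import Pool.Agent.Y809.PS.DA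
import Pool.Agent.Y809.PS.DB
import Pool.Agent.Y692.PS.DR
import Pool.Agent.Y692.PS.DISC
import Pool.Agent.Y529.PS.NDISC
import Pool.Agent.Y529.PS.INRT

/-! # Sections of the geometrically pro-`ℓ` fundamental group: all parts together -/

set_option autoImplicit false
set_option linter.all false

open Polynomial FF

namespace Pool.Agent.Y157.PS

theorem a_conj : S_CONJ := Pool.Agent.Y536.PS.conj
theorem a_extv : S_EXTV := Pool.Agent.Y536.PS.extv
theorem a_t1 : S_T1 := Pool.Agent.Y941.PS.t1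
  (Pool.Agent.Y903.PS.t1a Pool.Agent.Y903.PS.tsn a_conj) (Pool.Agent.Y529.PS.t1b a_conj)
theorem a_prol : S_PROL := Pool.Agent.Y705.PS.prol
theorem a_surj : S_SURJ := Pool.Agent.Y705.PS.surj
theorem a_stab : S_STAB := Pool.Agent.Y536.PS.stab
theorem a_res : S_RES := Pool.Agent.Y496.PS.res a_conj a_extv
theorem a_exf : S_EXF := Pool.Agent.Y31.PS.exf a_t1 a_res a_stab
theorem a_unq : S_UNQ := Pool.Agent.Y31.PS.unq a_t1 a_res a_stab a_exf a_conj
theorem a_divs : S_DIVS := Pool.Agent.Y496.PS.divs a_t1 a_res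
theorem a_fins : S_FINS := Pool.Agent.Y494.PS.fins a_res
theorem a_emb : S_EMB := Pool.Agent.Y275.PS.emb a_extv a_prol
theorem a_gex : S_GEX := Pool.Agent.Y529.PS.gex a_emb
theorem a_gun : S_GUN := Pool.Agent.Y248.PS.gun a_conj
theorem a_g2 : S_G2 := Pool.Agent.Y155.PS.g2
theorem a_g3 : S_G3 := Pool.Agent.Y155.PS.g3
theorem a_g5 : S_G5 := Pool.Agent.Y155.PS.g5
theorem a_g4 : S_G4 := Pool.Agent.Y155.PS.g4 a_emb a_conj a_extv
theorem a_clf : S_CLF := Pool.Agent.Y732.PS.clf Pool.Agent.Y37.PS.clf1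
theorem a_fixf : S_FIXF := Pool.Agent.Y419.PS.fixf a_clf a_g2 a_g4 a_g5
theorem a_ine : S_INE := Pool.Agent.Y183.PS.ine
theorem a_tau : S_TAU := Pool.Agent.Y183.PS.tau a_ine Pool.Agent.Y183.PS.fro
theorem a_kum : S_KUM := Pool.Agent.Y655.PS.kum a_ine
theorem a_wgt : S_WGT := Pool.Agent.Y748.PS.wgt a_g2 a_g3 a_prol a_divs a_fins a_fixf a_surj a_kum
  a_tau
theorem a_cov : S_COV := Pool.Agent.Y948.PS.cov Pool.Agent.Y809.PS.k0 a_extv
theorem a_disc : S_DISC := Pool.Agent.Y692.PS.disc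
  (Pool.Agent.Y692.PS.dr1 Pool.Agent.Y809.PS.da Pool.Agent.Y809.PS.db)
  (Pool.Agent.Y692.PS.dr2 Pool.Agent.Y809.PS.da) (Pool.Agent.Y692.PS.dr3 Pool.Agent.Y809.PS.da)
theorem a_ndisc : S_NDISC := Pool.Agent.Y529.PS.ndisc Pool.Agent.Y809.PS.val a_disc a_conj
theorem a_loc : S_LOC := loc a_exf a_unq a_stab a_conj a_g2 a_g3 a_gex a_gun a_tau a_wgt
theorem a_inrt : S_INRT := Pool.Agent.Y529.PS.inrt

end Pool.Agent.Y157.PS
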