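import Pool.Agent.Y157.PS.GeoB

/-! # Sections of the geometrically pro-`ℓ` fundamental group: superelliptic curves -/

set_option autoImplicit false
set_option linter.all false

open Polynomial FF

namespace Pool.Agent.Y157.PS

section fields

variable (ℓ : ℕ) (k : Type) {F Ω : Type} [Field k] [Field F] [Field Ω] [Algebra k F]
  [Algebra F Ω] [Algebra k Ω] [IsScalarTower k F Ω]

theorem maxPro_geom {x y : F}
    (hF : IntermediateField.adjoin k {x, y} = (⊤ : IntermediateField k F))
    (δ : algebraicClosure k Ω) (hδ : δ ≠ 0) (z : Ω) :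
    z ∈ maxPro ℓ (algebraicClosure k Ω) (IntermediateField.adjoin
      (IntermediateField.adjoin (algebraicClosure k Ω) {algebraMap F Ω x})
      {(δ : Ω) * algebraMap F Ω y}) Ω ↔ z ∈ geomPro ℓ k F Ω := by
  set K1 := IntermediateField.adjoin
    (IntermediateField.adjoin (algebraicClosure k Ω) {algebraMap F Ω x})
    {(δ : Ω) * algebraMap F Ω y} with hK1
  have hmem : ∀ w : Ω, w ∈ K1 ↔ w ∈ geomF k F Ω := fields_eq hF δ hδ
  let e : K1 ≃+* geomF k F Ω :=
    { toFun := fun w => ⟨w.1, (hmem _).1 w.2⟩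
      invFun := fun w => ⟨w.1, (hmem _).2 w.2⟩
      left_inv := fun w => rfl
      right_inv := fun w => rfl
      map_mul' := fun w w' => rfl
      map_add' := fun w w' => rfl }
  refine maxPro_congr e (fun a => rfl) (fun W => ⟨fun h c => ?_, fun h c => ?_⟩) z
  · exact Pool.Agent.W620.SC.const_mem h c.2
  · exact h (algebraMap k (algebraicClosure k Ω) c)

theorem const_geomPro (c : algebraicClosure k Ω) : (c : Ω) ∈ geomPro ℓ k F Ω :=
  (maxPro ℓ k (geomF k F Ω) Ω).algebraMap_mem
    ⟨(c : Ω), IntermediateField.subset_adjoin F _ c.2⟩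

end fields

theorem alg_mem {k N : Type} [Field k] [Field N] (i : k →+* N) (W : ValuationSubring N)
    (hW : ∀ c, i c ∈ W) (z : N) (p : k[X]) (hp : p.Monic) (hz : p.eval₂ i z = 0) : z ∈ W := by
  let φ : k →+* W := i.codRestrict W.toSubring hW
  have h2 : IsIntegral W z := by
    refine ⟨p.map φ, hp.map _, ?_⟩
    rw [Polynomial.eval₂_map]
    exact hz
  obtain ⟨y, hy⟩ := IsIntegrallyClosed.isIntegral_iff.1 h2
  rw [← hy]
  exact y.2

theorem inv_mem_of_not_nonunit {K : Type} [Field K] {W : ValuationSubring K} {z : K}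
    (h : z ∉ W.nonunits) : z⁻¹ ∈ W := by
  rcases W.mem_or_inv_mem z with h1 | h1
  · exact (isU_of_not_nonunit h1 h).2.2
  · exact h1

section main

variable {A k F Ω : Type} [CommRing A] [IsDomain A] [IsDiscreteValuationRing A]
    [Finite (IsLocalRing.ResidueField A)] [Field k] [CharZero k] [Algebra A k] [IsFractionRing A k]
    [Field F] [Field Ω] [Algebra k F] [Algebra F Ω] [Algebra k Ω] [IsScalarTower k F Ω]
    [IsAlgClosed Ω] [Algebra.IsAlgebraic F Ω]

theorem geo (hLOC : S_LOC) (hCOV : S_COV) (hND : S_NDISC) {ℓ : ℕ} [Fact ℓ.Prime]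
    (V : ValuationSubring (algebraicClosure k Ω))
    (hVA : ∀ a : A, algebraMap k (algebraicClosure k Ω) (algebraMap A k a) ∈ V)
    (hVm : ∀ a ∈ IsLocalRing.maximalIdeal A,
      algebraMap k (algebraicClosure k Ω) (algebraMap A k a) ∈ V.nonunits)
    (hℓ : IsUnit (ℓ : A)) (f : A[X]) (hlc : IsUnit f.leadingCoeff)
    (hs : (f.map (IsLocalRing.residue A)).Separable) (hdvd : ℓ ∣ f.natDegree)
    (h3 : 3 ≤ f.natDegree) (ϖ : A) (hϖ : Irreducible ϖ) (d : k) (m : ℤ) (hm : ¬ (ℓ : ℤ) ∣ m)
    (t : A) (ht : IsUnit t) (hd : d = algebraMap A k t * algebraMap A k ϖ ^ m)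
    (x y : F) (hx : Transcendental k x)
    (hxy : algebraMap k F d * y ^ ℓ = aeval x (f.map (algebraMap A k)))
    (hF : IntermediateField.adjoin k {x, y} = (⊤ : IntermediateField k F))
    (S : (algebraicClosure k Ω ≃ₐ[k] algebraicClosure k Ω) →*
      (geomPro ℓ k F Ω ≃ₐ[F] geomPro ℓ k F Ω)) (hcont : Continuous S)
    (hcompat : ∀ σ (c : algebraicClosure k Ω) (z : geomPro ℓ k F Ω), (z : Ω) = (c : Ω) →
      (S σ z : Ω) = (σ c : Ω)) :
    ∃ W : ValuationSubring (geomPro ℓ k F Ω),
      ((∀ c : k, algebraMap F (geomPro ℓ k F Ω) (algebraMap k F c) ∈ W) ∧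
       (∀ z ∈ W, ∃ c : algebraicClosure k Ω, ∃ z' ∈ W.nonunits, (z' : Ω) = (z : Ω) - c) ∧
       (∃ e : algebraicClosure k Ω, aeval e (f.map (algebraMap A k)) = 0 ∧
          (∀ σ : algebraicClosure k Ω ≃ₐ[k] algebraicClosure k Ω, Dec V σ → σ e = e) ∧ ∃ z' ∈ W.nonunits, (z' : Ω) = algebraMap F Ω x - e) ∧
       ∀ σ, Dec V σ → ∀ z, S σ z ∈ W ↔ z ∈ W) ∧
      ∀ W' : ValuationSubring (geomPro ℓ k F Ω),
        (∀ c : k, algebraMap F (geomPro ℓ k F Ω) (algebraMap k F c) ∈ W') →
        algebraMap F (geomPro ℓ k F Ω) (aeval x (f.map (algebraMap A k))) ∈ W'.nonunits →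
        (∀ σ, Dec V σ → ∀ z, S σ z ∈ W' ↔ z ∈ W') → W' = W := by
  classical
  have hℓp : ℓ.Prime := Fact.out
  have hac : IsAlgClosure k (algebraicClosure k Ω) := inferInstance
  have hkb : IsAlgClosed (algebraicClosure k Ω) := hac.1
  have hch : CharZero (algebraicClosure k Ω) :=
    charZero_of_injective_algebraMap (algebraMap k (algebraicClosure k Ω)).injective
  letI : Algebra A (algebraicClosure k Ω) :=
    ((algebraMap k (algebraicClosure k Ω)).comp (algebraMap A k)).toAlgebra
  haveI hst : IsScalarTower A k (algebraicClosure k Ω) :=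
    IsScalarTower.of_algebraMap_eq (fun _ => rfl)
  have hVa : ∀ a : A, algebraMap A (algebraicClosure k Ω) a ∈ V := hVA
  have hVm' : ∀ a ∈ IsLocalRing.maximalIdeal A, algebraMap A (algebraicClosure k Ω) a ∈
    V.nonunits := hVm
  have hunit : ∀ b : A, IsUnit b → IsU V (algebraMap A (algebraicClosure k Ω) b) := by
    rintro b ⟨b, rfl⟩
    refine ⟨(b.isUnit.map (algebraMap A (algebraicClosure k Ω))).ne_zero, hVa _, ?_⟩
    have h1 : (algebraMap A (algebraicClosure k Ω) (b : A))⁻¹ =
        algebraMap A (algebraicClosure k Ω) ((b⁻¹ : Aˣ) : A) := by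
      refine inv_eq_of_mul_eq_one_right ?_
      rw [← map_mul, Units.mul_inv, map_one]
    rw [h1]
    exact hVa _
  have hAk : Function.Injective (algebraMap A k) := IsFractionRing.injective A k
  have hAinj : Function.Injective (algebraMap A (algebraicClosure k Ω)) := by
    rw [IsScalarTower.algebraMap_eq A k (algebraicClosure k Ω)]
    exact (algebraMap k (algebraicClosure k Ω)).injective.comp hAk
  have hϖk0 : algebraMap A k ϖ ≠ 0 := by
    rw [Ne, map_eq_zero_iff _ hAk]
    exact hϖ.ne_zero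
  have hlck0 : algebraMap A k f.leadingCoeff ≠ 0 := by
    rw [Ne, map_eq_zero_iff _ hAk]
    exact hlc.ne_zero
  have hd0 : d ≠ 0 := by
    rw [hd]
    refine mul_ne_zero ?_ (zpow_ne_zero _ hϖk0)
    rw [Ne, map_eq_zero_iff _ hAk]
    exact ht.ne_zero
  -- the element `δ`
  obtain ⟨δ, hδ⟩ : ∃ δ : algebraicClosure k Ω, δ ^ ℓ =
      algebraMap k (algebraicClosure k Ω) (d / algebraMap A k f.leadingCoeff) :=
    IsAlgClosed.exists_pow_nat_eq _ hℓp.pos
  have hδ0 : δ ≠ 0 := by
    rintro rfl
    rw [zero_pow hℓp.ne_zero] at hδ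
    exact (_root_.map_ne_zero _).2 (div_ne_zero hd0 hlck0) hδ.symm
  have hBase : Base ℓ A k (algebraicClosure k Ω) V ϖ δ m := by
    refine ⟨hℓ, hVa, hVm', hϖ, hm, ⟨_, hδ⟩, ?_⟩
    have h1 : δ ^ ℓ / algebraMap A (algebraicClosure k Ω) ϖ ^ m =
        algebraMap A (algebraicClosure k Ω) t /
          algebraMap A (algebraicClosure k Ω) f.leadingCoeff := by
      have h2 : algebraMap A (algebraicClosure k Ω) ϖ ≠ 0 := by
        rw [Ne, map_eq_zero_iff _ hAinj]
        exact hϖ.ne_zero
      have h5 : algebraMap A (algebraicClosure k Ω) ϖ ^ m ≠ 0 := zpow_ne_zero _ h2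
      rw [hδ, hd, map_div₀, map_mul, map_zpow₀, ← IsScalarTower.algebraMap_apply,
        ← IsScalarTower.algebraMap_apply, ← IsScalarTower.algebraMap_apply]
      field_simp
    rw [h1]
    exact (hunit t ht).div (hunit _ hlc)
  -- the roots
  obtain ⟨hnd, hdist⟩ := Pool.Agent.W623.SecC.roots_distinct V hVa hVm' f hlc hs
  set P := f.map (algebraMap A (algebraicClosure k Ω)) with hP
  have hlc0 : algebraMap A (algebraicClosure k Ω) f.leadingCoeff ≠ 0 := (hunit _ hlc).1
  have hP0 : P ≠ 0 := by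
    intro h
    apply hlc0
    rw [← leadingCoeff_map_of_leadingCoeff_ne_zero _ hlc0, ← hP, h, leadingCoeff_zero]
  have hPdeg : P.natDegree = f.natDegree := natDegree_map_of_leadingCoeff_ne_zero _ hlc0
  set B : Finset (algebraicClosure k Ω) := P.roots.toFinset with hBdef
  have hmemB : ∀ θ, θ ∈ B ↔ aeval θ f = 0 := by
    intro θ
    rw [hBdef, Multiset.mem_toFinset, mem_roots hP0, IsRoot.def, hP, eval_map]
    rfl
  have hcard : B.card = f.natDegree := by
    rw [hBdef, Multiset.toFinset_card_of_nodup hnd, ← hPdeg]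
    exact (IsAlgClosed.splits P).natDegree_eq_card_roots.symm
  have hGood : Good V B := by
    constructor
    · intro e he
      exact Pool.Agent.W308.SecC.root_mem V hVa f hlc _ ((hmemB _).1 he)
    · intro e he e' he' hne
      exact hdist e (Multiset.mem_toFinset.1 he) e' (Multiset.mem_toFinset.1 he') hne
  -- the product formula
  have hPx : ∀ z : Ω, P.eval₂ (algebraMap (algebraicClosure k Ω) Ω) z =
      algebraMap (algebraicClosure k Ω) Ω (algebraMap A (algebraicClosure k Ω) f.leadingCoeff) *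
        ∏ e ∈ B, (z - algebraMap (algebraicClosure k Ω) Ω e) := by
    intro z
    have h1 := (IsAlgClosed.splits P).eq_prod_roots
    have h5 : P.leadingCoeff = algebraMap A (algebraicClosure k Ω) f.leadingCoeff :=
      leadingCoeff_map_of_leadingCoeff_ne_zero _ hlc0
    rw [h5] at h1
    have h6 : ∏ e ∈ B, (z - algebraMap (algebraicClosure k Ω) Ω e) =
        (P.roots.map fun e => z - algebraMap (algebraicClosure k Ω) Ω e).prod := by
      rw [hBdef, Finset.prod, Multiset.toFinset_val, Multiset.dedup_eq_self.2 hnd]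
    rw [h6]
    conv_lhs => rw [h1]
    rw [eval₂_mul, eval₂_C, ← coe_eval₂RingHom, map_multiset_prod, Multiset.map_map]
    congr 2
    refine Multiset.map_congr rfl fun a _ => ?_
    simp
  have hfx : algebraMap F Ω (aeval x (f.map (algebraMap A k))) =
      P.eval₂ (algebraMap (algebraicClosure k Ω) Ω) (algebraMap F Ω x) := by
    rw [aeval_def, hom_eval₂, hP, eval₂_map, eval₂_map, ← IsScalarTower.algebraMap_eq k F Ω,
      IsScalarTower.algebraMap_eq A k (algebraicClosure k Ω), ← RingHom.comp_assoc,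
      ← IsScalarTower.algebraMap_eq k (algebraicClosure k Ω) Ω]
  set Y0 : Ω := (δ : Ω) * algebraMap F Ω y with hY0
  have hY : Y0 ^ ℓ = ∏ e ∈ B, (algebraMap F Ω x - algebraMap (algebraicClosure k Ω) Ω e) := by
    have h1 := congrArg (algebraMap F Ω) hxy
    rw [map_mul, map_pow, ← IsScalarTower.algebraMap_apply, hfx, hPx] at h1
    have h5 : algebraMap (algebraicClosure k Ω) Ω
        (algebraMap A (algebraicClosure k Ω) f.leadingCoeff) ≠ 0 := (_root_.map_ne_zero _).2 hlc0
    have h6 : (δ : Ω) ^ ℓ = algebraMap k Ω d / algebraMap (algebraicClosure k Ω) Ω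
        (algebraMap A (algebraicClosure k Ω) f.leadingCoeff) := by
      have h7 := congrArg (algebraMap (algebraicClosure k Ω) Ω) hδ
      rw [map_pow, map_div₀, map_div₀, ← IsScalarTower.algebraMap_apply] at h7
      exact h7
    rw [hY0, mul_pow, h6, div_mul_eq_mul_div, h1, mul_div_cancel_left₀ _ h5]
  -- the covering field
  have hX0 : Transcendental k (algebraMap F Ω x) :=
    (transcendental_algebraMap_iff (R := k) (algebraMap F Ω).injective (a := x)).2 hx
  have hrat := ratF_adj (trans_up hX0)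
  have hYR : Y0 ^ ℓ ∈ IntermediateField.adjoin (algebraicClosure k Ω) {algebraMap F Ω x} := by
    rw [hY]
    exact prod_mem fun e _ => sub_mem (IntermediateField.mem_adjoin_simple_self _ _)
      (IntermediateField.algebraMap_mem _ e)
  have hclR := closure_R hF δ hδ0 hℓp.pos hYR
  obtain ⟨W, ⟨h1, h2, ⟨e, heB, hfix, he⟩, h4⟩, hun⟩ :=
    geoI (R := IntermediateField.adjoin (algebraicClosure k Ω) {algebraMap F Ω x}) hLOC hCOV hND
      V hVa hVm' ϖ δ m hBase hδ0 ⟨algebraMap F Ω x, IntermediateField.mem_adjoin_simple_self _ _⟩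
      hrat B (by rw [hcard]; exact hdvd) (by rw [hcard]; exact h3) hGood Y0 hY x y rfl hY0
      (geomPro ℓ k F Ω) (fun z => maxPro_geom ℓ k hF δ hδ0 z) S hcont
      (fun σ c z hz => hcompat σ c z hz)
  refine ⟨W, ⟨?_, h2, ⟨e, ?_, hfix, he⟩, h4⟩, ?_⟩
  · intro c
    exact h1 (algebraMap k (algebraicClosure k Ω) c) _
      (IsScalarTower.algebraMap_apply k F Ω c).symm
  · rw [aeval_map_algebraMap]
    exact (hmemB e).1 heB
  · intro W' hW'1 hW'2 hW'3
    have hconst : ∀ (c : algebraicClosure k Ω) (z : geomPro ℓ k F Ω), (z : Ω) = (c : Ω) →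
        z ∈ W' := by
      intro c z hz
      have h5 : IsIntegral k (c : Ω) := c.2
      obtain ⟨p, hp, hpc⟩ := h5
      refine alg_mem ((algebraMap F (geomPro ℓ k F Ω)).comp (algebraMap k F)) W' hW'1 z p hp ?_
      apply (algebraMap (geomPro ℓ k F Ω) Ω).injective
      rw [hom_eval₂, map_zero]
      have h6 : (algebraMap (geomPro ℓ k F Ω) Ω).comp
          ((algebraMap F (geomPro ℓ k F Ω)).comp (algebraMap k F)) = algebraMap k Ω := by
        ext a
        exact (IsScalarTower.algebraMap_apply k F Ω a).symm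
      have h7 : algebraMap (geomPro ℓ k F Ω) Ω z = (c : Ω) := hz
      rw [h6, h7]
      exact hpc
    refine hun W' hconst ?_ hW'3
    by_contra hno
    push Not at hno
    let ι : algebraicClosure k Ω → geomPro ℓ k F Ω := fun c => ⟨(c : Ω), const_geomPro ℓ k c⟩
    have hno' : ∀ e ∈ B, (algebraMap F (geomPro ℓ k F Ω) x - ι e)⁻¹ ∈ W' := by
      intro e he
      apply inv_mem_of_not_nonunit
      intro hn
      exact hno e he _ hn rfl
    have hlcι : (ι (algebraMap A (algebraicClosure k Ω) f.leadingCoeff))⁻¹ ∈ W' := by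
      have h5 : (ι (algebraMap A (algebraicClosure k Ω) f.leadingCoeff))⁻¹ =
          ι (algebraMap A (algebraicClosure k Ω) f.leadingCoeff)⁻¹ := Subtype.ext rfl
      rw [h5]
      exact hconst (algebraMap A (algebraicClosure k Ω) f.leadingCoeff)⁻¹ _ rfl
    have hfN : algebraMap F (geomPro ℓ k F Ω) (aeval x (f.map (algebraMap A k))) =
        ι (algebraMap A (algebraicClosure k Ω) f.leadingCoeff) *
          ∏ e ∈ B, (algebraMap F (geomPro ℓ k F Ω) x - ι e) := by
      apply (algebraMap (geomPro ℓ k F Ω) Ω).injective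
      rw [map_mul, map_prod]
      have h5 : algebraMap (geomPro ℓ k F Ω) Ω
          (algebraMap F (geomPro ℓ k F Ω) (aeval x (f.map (algebraMap A k)))) =
          algebraMap F Ω (aeval x (f.map (algebraMap A k))) := rfl
      rw [h5, hfx, hPx]
      rfl
    have h8 : (algebraMap F (geomPro ℓ k F Ω) (aeval x (f.map (algebraMap A k))))⁻¹ ∈ W' := by
      rw [hfN, mul_inv, ← Finset.prod_inv_distrib]
      exact mul_mem hlcι (prod_mem hno')
    rcases (nonunits_iff.1 hW'2).2 with h9 | h9
    · rw [map_eq_zero] at h9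
      have h10 : f.map (algebraMap A k) ≠ 0 := by
        intro h11
        apply hlck0
        rw [← leadingCoeff_map_of_leadingCoeff_ne_zero _ hlck0, h11, leadingCoeff_zero]
      exact h10 ((transcendental_iff.1 hx) _ h9)
    · exact h9 h8

end main

end Pool.Agent.Y157.PS
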