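import Pool.Agent.Y157.PS.Stm4

/-!
# Pro-`ℓ` coverings of superelliptic curves: statements of the parts (5)

(helper157, project PS.)
-/

set_option autoImplicit false
set_option linter.all false

open Polynomial FF

namespace Pool.Agent.Y157.PS

/-- homomorphisms to `Gal(M/F)`, where `M` contains the maximal geometrically pro-`ℓ` extension,
induce homomorphisms to the group of the maximal geometrically pro-`ℓ` extension -/
def S_IND2 : Prop :=
  ∀ (ℓ : ℕ) [Fact ℓ.Prime] (k F Ω : Type) [Field k] [Field F] [Field Ω] [Algebra k F]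
    [Algebra F Ω] [Algebra k Ω] [IsScalarTower k F Ω] [IsAlgClosed Ω] [Algebra.IsAlgebraic F Ω]
    [CharZero k] (x : F), Transcendental k x →
    Algebra.IsAlgebraic (IntermediateField.adjoin k {x}) F →
    ∀ M : IntermediateField F Ω, geomPro ℓ k F Ω ≤ M →
    ∀ (G : Type) [Group G] [TopologicalSpace G] [IsTopologicalGroup G]
      (S : G →* (M ≃ₐ[F] M)), Continuous S →
      ∃ T : G →* (geomPro ℓ k F Ω ≃ₐ[F] geomPro ℓ k F Ω), Continuous T ∧
        ∀ (g : G) (z : M) (w : geomPro ℓ k F Ω), (w : Ω) = (z : Ω) →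
          ((T g w : geomPro ℓ k F Ω) : Ω) = ((S g z : M) : Ω)

end Pool.Agent.Y157.PS
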