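import Pool.Agent.Y157.PS.Padic
import Pool.Agent.Y157.PS.Stm5

/-! # Sections of `Gal(M/F)` where `M` contains the maximal geometrically pro-`ℓ` extension -/

set_option autoImplicit false
set_option linter.all false

open Polynomial FF

namespace Pool.Agent.Y157.PS

theorem non_incl {M N : Type} [Field M] [Field N] (i : N →+* M) (O : ValuationSubring M) (z : N) :
    z ∈ (O.comap i).nonunits ↔ i z ∈ O.nonunits := by
  rw [nonunits_iff, nonunits_iff, ValuationSubring.mem_comap, ValuationSubring.mem_comap, map_inv₀,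
    map_eq_zero_iff i i.injective]

section lift

variable {F Ω : Type} [Field F] [Field Ω] [Algebra F Ω]

theorem exists_ext (N M : IntermediateField F Ω) (h : N ≤ M) (W₀ : ValuationSubring N) :
    ∃ W : ValuationSubring M,
      W.comap ((IntermediateField.inclusion h : N →ₐ[F] M) : N →+* M) = W₀ := by
  letI : Algebra N M := ((IntermediateField.inclusion h : N →ₐ[F] M) : N →+* M).toAlgebra
  exact a_extv N M W₀

/-- from the subfield `N` to `M` -/
theorem lift_thm {G : Type} [Group G] (N M : IntermediateField F Ω) (h : N ≤ M)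
    (S : G →* (M ≃ₐ[F] M)) (T : G →* (N ≃ₐ[F] N)) (D : G → Prop)
    (hST : ∀ (g : G) (z : M) (w : N), (w : Ω) = (z : Ω) → ((T g w : N) : Ω) = ((S g z : M) : Ω))
    (P : ∀ (L : IntermediateField F Ω), ValuationSubring L → Prop)
    (Q : ∀ (L : IntermediateField F Ω), ValuationSubring L → Prop)
    (hP : ∀ W : ValuationSubring M,
      P N (W.comap ((IntermediateField.inclusion h : N →ₐ[F] M) : N →+* M)) → P M W)
    (hQ : ∀ W : ValuationSubring M, Q M W →
      Q N (W.comap ((IntermediateField.inclusion h : N →ₐ[F] M) : N →+* M)))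
    (hex : ∃ W₀ : ValuationSubring N, (P N W₀ ∧ ∀ g, D g → ∀ z, T g z ∈ W₀ ↔ z ∈ W₀) ∧
      ∀ W' : ValuationSubring N, Q N W' → (∀ g, D g → ∀ z, T g z ∈ W' ↔ z ∈ W') → W' = W₀) :
    ∃ W : ValuationSubring M, (P M W ∧
        ∀ g, D g → ∀ z : M, (z : Ω) ∈ N → (S g z ∈ W ↔ z ∈ W)) ∧
      ∀ W' : ValuationSubring M, Q M W' →
        (∀ g, D g → ∀ z : M, (z : Ω) ∈ N → (S g z ∈ W' ↔ z ∈ W')) →
        ∀ z : M, (z : Ω) ∈ N → (z ∈ W' ↔ z ∈ W) := by
  obtain ⟨W₀, ⟨hP0, hst0⟩, hun⟩ := hex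
  obtain ⟨W, hW⟩ := exists_ext N M h W₀
  have key : ∀ (W : ValuationSubring M) (z : M) (hz : (z : Ω) ∈ N),
      (⟨(z : Ω), hz⟩ : N) ∈ W.comap ((IntermediateField.inclusion h : N →ₐ[F] M) : N →+* M) ↔
        z ∈ W := fun W z hz => Iff.rfl
  have keyS : ∀ (W : ValuationSubring M) (g : G) (z : M) (hz : (z : Ω) ∈ N),
      T g ⟨(z : Ω), hz⟩ ∈ W.comap ((IntermediateField.inclusion h : N →ₐ[F] M) : N →+* M) ↔
        S g z ∈ W := by
    intro W g z hz
    have h1 : (IntermediateField.inclusion h) (T g ⟨(z : Ω), hz⟩) = S g z := by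
      apply Subtype.ext
      exact hST g z ⟨(z : Ω), hz⟩ rfl
    rw [ValuationSubring.mem_comap]
    change (IntermediateField.inclusion h) (T g ⟨(z : Ω), hz⟩) ∈ W ↔ _
    rw [h1]
  refine ⟨W, ⟨hP W (by rw [hW]; exact hP0), fun g hg z hz => ?_⟩, fun W' hQ' hst z hz => ?_⟩
  · rw [← key W z hz, ← keyS W g z hz, hW]
    exact hst0 g hg _
  · have h1 := hun _ (hQ W' hQ') (fun g hg w => by
      have hw : (((IntermediateField.inclusion h) w : M) : Ω) ∈ N := w.2
      have h2 := hst g hg _ hw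
      rw [← key W' _ hw, ← keyS W' g _ hw] at h2
      exact h2)
    rw [← key W' z hz, ← key W z hz, h1, hW]

end lift

section main

variable {A k F Ω : Type} [CommRing A] [IsDomain A] [IsDiscreteValuationRing A]
    [IsAdicComplete (IsLocalRing.maximalIdeal A) A]
    [Finite (IsLocalRing.ResidueField A)] [Field k] [CharZero k] [Algebra A k] [IsFractionRing A k]
    [Field F] [Field Ω] [Algebra k F] [Algebra F Ω] [Algebra k Ω] [IsScalarTower k F Ω]
    [IsAlgClosed Ω] [Algebra.IsAlgebraic F Ω]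

/-- `F = k(x, y)` is algebraic over `k(x)` -/
theorem alg_of_eqn {k F : Type} [Field k] [Field F] [Algebra k F] {ℓ : ℕ} (hℓ : 0 < ℓ) (f : k[X])
    (d : k) (hd : d ≠ 0) (x y : F) (hxy : algebraMap k F d * y ^ ℓ = aeval x f)
    (hF : IntermediateField.adjoin k {x, y} = (⊤ : IntermediateField k F)) :
    Algebra.IsAlgebraic (IntermediateField.adjoin k {x}) F := by
  have hd' : algebraMap k F d ≠ 0 := (_root_.map_ne_zero _).2 hd
  have hint : IsIntegral (IntermediateField.adjoin k {x}) y := by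
    apply IsIntegral.of_pow hℓ
    have h1 : y ^ ℓ ∈ IntermediateField.adjoin k {x} := by
      have h2 : y ^ ℓ = (algebraMap k F d)⁻¹ * aeval x f := by
        rw [← hxy, inv_mul_cancel_left₀ hd']
      rw [h2]
      refine mul_mem (inv_mem (IntermediateField.algebraMap_mem _ d)) ?_
      have h3 : aeval x f = algebraMap (IntermediateField.adjoin k {x}) F
          (aeval (IntermediateField.AdjoinSimple.gen k x) f) := by
        rw [← aeval_algebraMap_apply]
        rfl
      rw [h3]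
      exact (aeval (IntermediateField.AdjoinSimple.gen k x) f).2
    exact isIntegral_algebraMap (x := (⟨_, h1⟩ : IntermediateField.adjoin k {x}))
  have h1 : Algebra.IsAlgebraic (IntermediateField.adjoin k {x})
      (IntermediateField.adjoin (IntermediateField.adjoin k {x}) {y}) :=
    IntermediateField.isAlgebraic_adjoin_simple hint
  have h2 : IntermediateField.adjoin (IntermediateField.adjoin k {x}) {y} = ⊤ := by
    rw [eq_top_iff]
    intro z _
    have h3 : z ∈ IntermediateField.adjoin k {x, y} := by rw [hF]; trivial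
    refine adjoin_le_sub (T := (IntermediateField.adjoin (IntermediateField.adjoin k {x})
      {y}).toSubfield) ?_ ?_ z h3
    · intro c
      exact IntermediateField.algebraMap_mem _ (algebraMap k (IntermediateField.adjoin k {x}) c)
    · intro w hw
      rcases hw with hw | hw
      · rw [hw]
        exact IntermediateField.algebraMap_mem _ (IntermediateField.AdjoinSimple.gen k x)
      · rw [Set.mem_singleton_iff] at hw
        rw [hw]
        exact IntermediateField.mem_adjoin_simple_self _ _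
  rw [h2] at h1
  exact Algebra.IsAlgebraic.of_injective (IntermediateField.topEquiv (F :=
    IntermediateField.adjoin k {x}) (E := F)).symm.toAlgHom
    (IntermediateField.topEquiv (F := IntermediateField.adjoin k {x}) (E := F)).symm.injective

theorem padicM (hIND : S_IND2) {ℓ : ℕ} [Fact ℓ.Prime]
    (hℓ : IsUnit (ℓ : A)) (f : A[X]) (hlc : IsUnit f.leadingCoeff)
    (hs : (f.map (IsLocalRing.residue A)).Separable) (hdvd : ℓ ∣ f.natDegree)
    (h3 : 3 ≤ f.natDegree) (ϖ : A) (hϖ : Irreducible ϖ) (d : k) (m : ℤ) (hm : ¬ (ℓ : ℤ) ∣ m)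
    (t : A) (ht : IsUnit t) (hd : d = algebraMap A k t * algebraMap A k ϖ ^ m)
    (x y : F) (hx : Transcendental k x)
    (hxy : algebraMap k F d * y ^ ℓ = aeval x (f.map (algebraMap A k)))
    (hF : IntermediateField.adjoin k {x, y} = (⊤ : IntermediateField k F))
    (M : IntermediateField F Ω) (hM : geomPro ℓ k F Ω ≤ M)
    (S : (algebraicClosure k Ω ≃ₐ[k] algebraicClosure k Ω) →* (M ≃ₐ[F] M)) (hcont : Continuous S)
    (hcompat : ∀ σ (c : algebraicClosure k Ω) (z : M), (z : Ω) = (c : Ω) →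
      (S σ z : Ω) = (σ c : Ω)) :
    ∃ W : ValuationSubring M,
      (((∀ c : k, algebraMap F M (algebraMap k F c) ∈ W) ∧
       (∃ e : k, aeval e (f.map (algebraMap A k)) = 0 ∧
          algebraMap F M (x - algebraMap k F e) ∈ W.nonunits) ∧
       (∀ z : F, algebraMap F M z ∈ W →
          ∃ c : k, algebraMap F M (z - algebraMap k F c) ∈ W.nonunits)) ∧
       ∀ σ, ∀ z : M, (z : Ω) ∈ geomPro ℓ k F Ω → (S σ z ∈ W ↔ z ∈ W)) ∧
      ∀ W' : ValuationSubring M,
        (∀ c : k, algebraMap F M (algebraMap k F c) ∈ W') →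
        algebraMap F M (aeval x (f.map (algebraMap A k))) ∈ W'.nonunits →
        (∀ σ, ∀ z : M, (z : Ω) ∈ geomPro ℓ k F Ω → (S σ z ∈ W' ↔ z ∈ W')) →
        ∀ z : M, (z : Ω) ∈ geomPro ℓ k F Ω → (z ∈ W' ↔ z ∈ W) := by
  have hd0 : d ≠ 0 := by
    rw [hd]
    refine mul_ne_zero ?_ (zpow_ne_zero _ ?_)
    · rw [Ne, map_eq_zero_iff _ (IsFractionRing.injective A k)]
      exact ht.ne_zero
    · rw [Ne, map_eq_zero_iff _ (IsFractionRing.injective A k)]
      exact hϖ.ne_zero
  have halg := alg_of_eqn (Fact.out : ℓ.Prime).pos (f.map (algebraMap A k)) d hd0 x y hxy hF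
  obtain ⟨T, hTc, hT⟩ := hIND ℓ k F Ω x hx halg M hM _ S hcont
  have hTcompat : ∀ σ (c : algebraicClosure k Ω) (z : geomPro ℓ k F Ω), (z : Ω) = (c : Ω) →
      (T σ z : Ω) = (σ c : Ω) := by
    intro σ c z hz
    have h1 : (z : Ω) ∈ M := hM z.2
    rw [hT σ ⟨(z : Ω), h1⟩ z rfl]
    exact hcompat σ c _ hz
  obtain ⟨W₀, ⟨h1, h2, h3', h4⟩, hun⟩ := padic hℓ f hlc hs hdvd h3 ϖ hϖ d m hm t ht hd x y hx hxy hF
    T hTc hTcompat
  obtain ⟨W, ⟨⟨hW1, hW2, hW3⟩, hW4⟩, hWun⟩ := lift_thm (geomPro ℓ k F Ω) M hM S T (fun _ => True) hT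
    (fun L W => (∀ c : k, algebraMap F L (algebraMap k F c) ∈ W) ∧
       (∃ e : k, aeval e (f.map (algebraMap A k)) = 0 ∧
          algebraMap F L (x - algebraMap k F e) ∈ W.nonunits) ∧
       (∀ z : F, algebraMap F L z ∈ W →
          ∃ c : k, algebraMap F L (z - algebraMap k F c) ∈ W.nonunits))
    (fun L W => (∀ c : k, algebraMap F L (algebraMap k F c) ∈ W) ∧
      algebraMap F L (aeval x (f.map (algebraMap A k))) ∈ W.nonunits)
    (by
      rintro W ⟨a1, ⟨e, he, a2⟩, a3⟩
      refine ⟨a1, ⟨e, he, (non_incl ((IntermediateField.inclusion hM :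
        geomPro ℓ k F Ω →ₐ[F] M) : geomPro ℓ k F Ω →+* M) W _).1 a2⟩, fun z hz => ?_⟩
      obtain ⟨c, hc⟩ := a3 z hz
      exact ⟨c, (non_incl ((IntermediateField.inclusion hM :
        geomPro ℓ k F Ω →ₐ[F] M) : geomPro ℓ k F Ω →+* M) W _).1 hc⟩)
    (by
      rintro W ⟨a1, a2⟩
      exact ⟨a1, (non_incl _ _ _).2 a2⟩)
    ⟨W₀, ⟨⟨h1, h2, h3'⟩, fun σ _ z => h4 σ z⟩, fun W' hW' hst =>
      hun W' hW'.1 hW'.2 fun σ z => hst σ trivial z⟩
  exact ⟨W, ⟨⟨hW1, hW2, hW3⟩, fun σ z hz => hW4 σ trivial z hz⟩, fun W' b1 b2 b3 z hz =>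
    hWun W' ⟨b1, b2⟩ (fun σ _ z hz => b3 σ z hz) z hz⟩

end main

end Pool.Agent.Y157.PS
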