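import Pool.Agent.Helper386.D5V.Helper386_FF_RR

/-!
# Pro-`ℓ` coverings of superelliptic curves: definitions

(helper157, project PS.)  `κ` is an algebraically closed field, `R = κ(x)`, `Y ^ ℓ = ∏ (x - e)` and
`M` is the maximal pro-`ℓ` extension of `κ(x, Y)` which is unramified over the curve.
-/

set_option autoImplicit false
set_option linter.all false

open Polynomial FF

namespace Pool.Agent.Y157.PS

/-- `R = κ(x)`, where `x` is transcendental over `κ` -/
structure RatF (κ : Type) {R : Type} [Field κ] [Field R] [Algebra κ R] (x : R) : Prop where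
  trans : Transcendental κ x
  gen : IntermediateField.adjoin κ {x} = ⊤

/-- a finite Galois subextension whose degree is a power of `ℓ` -/
structure Lev (ℓ : ℕ) {R M : Type} [Field R] [Field M] [Algebra R M]
    (N : IntermediateField R M) : Prop where
  fin : FiniteDimensional R N
  gal : IsGalois R N
  card : ∃ m : ℕ, Module.finrank R N = ℓ ^ m

/-- the map `τ` fixes the place `W` -/
def Fixes {κ K : Type} [Field κ] [Field K] [Algebra κ K] (W : Place κ K) (τ : K → K) : Prop :=
  ∀ z, W.ord (τ z) = W.ord z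

/-- `M` is a pro-`ℓ` Galois extension of `R = κ(x)` which contains `Y`, `Y ^ ℓ = ∏ (x - e)`, is
unramified over `κ(x, Y)`, and is closed under the extraction of `ℓ`-th roots with this property -/
structure Cov (ℓ : ℕ) (κ R M : Type) [Field κ] [Field R] [Field M] [Algebra κ R] [Algebra R M]
    [Algebra κ M] [IsScalarTower κ R M] (x : R) (B : Finset κ) (Y : M) : Prop where
  rat : RatF κ x
  gal : IsGalois R M
  pow : ∀ z : M, ∃ N : IntermediateField R M, z ∈ N ∧ Lev ℓ N
  dvd : ℓ ∣ B.card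
  three : 3 ≤ B.card
  eqn : Y ^ ℓ = ∏ e ∈ B, (algebraMap R M x - algebraMap κ M e)
  loc : ∀ V : ValuationSubring M, (∀ c : κ, algebraMap κ M c ∈ V) → V ≠ ⊤ →
    ∃ W : Place κ M, W.O = V ∧
      ((∃ e ∈ B, W.ord (algebraMap R M x - algebraMap κ M e) = ℓ ∧ W.ord Y = 1) ∨
        (∃ a, a ∉ B ∧ W.ord (algebraMap R M x - algebraMap κ M a) = 1) ∨
        W.ord (algebraMap R M x) = -1)
  root : ∀ g : M, g ≠ 0 → (∀ W : Place κ M, (ℓ : ℤ) ∣ W.ord g) → ∃ h : M, h ^ ℓ = g

/-- the nonzero elements of `M` with the property `P` have only finitely many classes modulo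
multiplication by elements of the subfield `N` -/
def FinCls {M : Type} [Field M] (N : Subfield M) (P : M → Prop) : Prop :=
  ∃ C : ℕ, ∀ T : Finset M, (∀ h ∈ T, h ≠ 0 ∧ P h) → C < T.card →
    ∃ h ∈ T, ∃ h' ∈ T, h ≠ h' ∧ h / h' ∈ N

/-- `r` is a residue map of the valuation ring `O` -/
structure Res {K k : Type} [Field K] [Field k] (O : ValuationSubring K) (r : O →+* k) : Prop where
  surj : Function.Surjective r
  ker : ∀ z : O, r z = 0 ↔ (z : K) ∈ O.nonunits

/-- units of a valuation ring -/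
def IsU {K : Type} [Field K] (V : ValuationSubring K) (x : K) : Prop := x ≠ 0 ∧ x ∈ V ∧ x⁻¹ ∈ V

/-- the valuation ring `O` of an extension of `κ(x)` induces the Gauss valuation ring on `κ(x)` -/
def Gauss {κ M : Type} [Field κ] [Field M] [Algebra κ M] (V : ValuationSubring κ) (x : M)
    (O : ValuationSubring M) : Prop :=
  (∀ c : κ, algebraMap κ M c ∈ O ↔ c ∈ V) ∧
  ∀ p : κ[X], (∀ n, p.coeff n ∈ V) → (∃ n, IsU V (p.coeff n)) → IsU O (aeval x p)

/-- the branch points are integral and distinct modulo the maximal ideal -/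
def Good {κ : Type} [Field κ] (V : ValuationSubring κ) (B : Finset κ) : Prop :=
  (∀ e ∈ B, e ∈ V) ∧ ∀ e ∈ B, ∀ e' ∈ B, e ≠ e' → IsU V (e - e')

/-- an algebraic model of the open unit disc with coordinate `u` over `(κ, V)`, where `r` is the
residue map of `V` -/
structure Disc (ℓ : ℕ) {κ F : Type} [Field κ] [Field F] (V : ValuationSubring κ) (r : V →+* F) where
  E : Type
  [fieldE : Field E]
  [algE : Algebra κ E]
  u : E
  O : ValuationSubring E
  ρ : O →+* LaurentSeries F
  ker : ∀ z : O, ρ z = 0 ↔ (z : E) ∈ O.nonunits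
  memV : ∀ c : κ, c ∈ V → algebraMap κ E c ∈ O
  ρV : ∀ (c : κ) (hc : c ∈ V), ρ ⟨algebraMap κ E c, memV c hc⟩ = HahnSeries.C (r ⟨c, hc⟩)
  memu : u ∈ O
  ρu : ρ ⟨u, memu⟩ = HahnSeries.single 1 1
  pts : Set (Place κ E)
  P0 : Place κ E
  P0u : P0.ord u = 1
  root : ∀ g : E, g ≠ 0 → (∀ P ∈ pts, (ℓ : ℤ) ∣ P.ord g) → ∃ h : E, h ^ ℓ = g
  unit : ∀ P ∈ pts, ∀ c d : κ, IsU V c → d ∈ V → ∀ n : ℕ, 1 ≤ n →
    P.ord (algebraMap κ E c + algebraMap κ E d * u ^ n) = 0
  rot : ∀ ζ : κ, ζ ^ ℓ = 1 → ∃ ι : E ≃ₐ[κ] E, ι u = algebraMap κ E ζ * u ∧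
    (∀ z, ι z ∈ O ↔ z ∈ O) ∧ Fixes P0 ι

attribute [instance] Disc.fieldE Disc.algE

section basics

variable {κ R M : Type} [Field κ] [Field R] [Field M] [Algebra κ R] [Algebra R M] [Algebra κ M]
  [IsScalarTower κ R M]

/-- a finite extension of `κ(x)` is a function field -/
theorem RatF.isFF {x : R} (hx : RatF κ x) {N : Type} [Field N] [Algebra κ N] [Algebra R N]
    [IsScalarTower κ R N] [FiniteDimensional R N] : IsFF κ N := by
  have h1 : Transcendental κ (algebraMap R N x) := by
    rw [transcendental_algebraMap_iff (algebraMap R N).injective]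
    exact hx.trans
  refine IsFF.of_finite h1 ?_
  have h2 : ∀ z : R, algebraMap R N z ∈ IntermediateField.adjoin κ {algebraMap R N x} := by
    intro z
    have h3 : z ∈ IntermediateField.adjoin κ {x} := by rw [hx.gen]; trivial
    have h4 : (IntermediateField.adjoin κ {x}).map (IsScalarTower.toAlgHom κ R N) =
        IntermediateField.adjoin κ {algebraMap R N x} := by
      rw [IntermediateField.adjoin_map, Set.image_singleton]; rfl
    rw [← h4]
    exact ⟨z, h3, rfl⟩
  let L := IntermediateField.adjoin κ {algebraMap R N x}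
  let i : R →+* L := (algebraMap R N).codRestrict L.toSubfield.toSubring h2
  letI : Algebra R L := i.toAlgebra
  have : IsScalarTower R L N := IsScalarTower.of_algebraMap_eq fun z => rfl
  exact FiniteDimensional.right R L N

theorem Place.O_ne_top (W : Place κ M) : W.O ≠ ⊤ := by
  intro h
  obtain ⟨t, ht0, ht⟩ := W.surj
  have h1 : t⁻¹ ∈ W.O := by rw [h]; trivial
  rw [Place.mem_O, W.reg_iff (inv_ne_zero ht0), W.ord_inv] at h1
  omega

theorem Place.ext_O {W W' : Place κ M} (h : W.O = W'.O) : W = W' := by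
  refine Place.eq_of_le W W' fun f hf h1 => ?_
  have h2 : f ∈ W.O := by rw [Place.mem_O, W.reg_iff hf]; exact h1
  rw [h, Place.mem_O, W'.reg_iff hf] at h2
  exact h2

variable {ℓ : ℕ} {x : R} {B : Finset κ} {Y : M}

theorem Cov.loc' (h : Cov ℓ κ R M x B Y) (W : Place κ M) :
    (∃ e ∈ B, W.ord (algebraMap R M x - algebraMap κ M e) = ℓ ∧ W.ord Y = 1) ∨
      (∃ a, a ∉ B ∧ W.ord (algebraMap R M x - algebraMap κ M a) = 1) ∨
      W.ord (algebraMap R M x) = -1 := by
  obtain ⟨W', hW', h'⟩ := h.loc W.O (fun c => W.reg_const c) (Place.O_ne_top W)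
  rwa [Place.ext_O hW'] at h'

end basics

end Pool.Agent.Y157.PS
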