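import Pool.Agent.Y157.PS.Stm2

/-!
# Pro-`ℓ` coverings of superelliptic curves: statements of the parts (3)

(helper157, project PS.)
-/

set_option autoImplicit false
set_option linter.all false

open Polynomial FF

namespace Pool.Agent.Y157.PS

/-- discs for arbitrary discrete valuation rings with finite residue field -/
def S_NDISC : Prop :=
  ∀ (A k κ : Type) [CommRing A] [IsDomain A] [IsDiscreteValuationRing A] [Field k] [Field κ]
    [Algebra A k] [Algebra k κ] [Algebra A κ] [IsScalarTower A k κ] [IsFractionRing A k]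
    [CharZero k] [IsAlgClosure k κ] [Finite (IsLocalRing.ResidueField A)]
    (V : ValuationSubring κ), (∀ a : A, algebraMap A κ a ∈ V) →
    (∀ a ∈ IsLocalRing.maximalIdeal A, algebraMap A κ a ∈ V.nonunits) →
    ∀ (ℓ : ℕ) [Fact ℓ.Prime], IsUnit (ℓ : A) →
      ∃ (F : Type) (_ : Field F) (r : V →+* F), Res V r ∧ Nonempty (Disc ℓ V r)

section geo

variable (ℓ : ℕ) (k F Ω : Type) [Field k] [Field F] [Field Ω] [Algebra k F] [Algebra F Ω]
  [Algebra k Ω]

/-- `k̄ F`, the compositum of `F` and the algebraic closure of `k` in `Ω` -/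
noncomputable def geomF : IntermediateField F Ω :=
  IntermediateField.adjoin F (algebraicClosure k Ω : Set Ω)

/-- the maximal pro-`ℓ` extension of `k̄ F` in `Ω` which is unramified at all valuation rings that
contain `k`, as an extension of `F` -/
noncomputable def geomPro : IntermediateField F Ω :=
  (maxPro ℓ k (geomF k F Ω) Ω).restrictScalars F

end geo

/-- the maximal unramified geometrically pro-`ℓ` extension is contained in the maximal unramified
extension, and it is stable under all automorphisms -/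
def S_INRT : Prop :=
  ∀ (ℓ : ℕ) [Fact ℓ.Prime] (k F Ω : Type) [Field k] [Field F] [Field Ω] [Algebra k F]
    [Algebra F Ω] [Algebra k Ω] [IsScalarTower k F Ω] [IsAlgClosure F Ω] [CharZero k]
    (x : F), Transcendental k x → Algebra.IsAlgebraic (IntermediateField.adjoin k {x}) F →
    (∀ W : ValuationSubring Ω, (∀ c : k, algebraMap k Ω c ∈ W) →
      (∀ σ : Ω ≃ₐ[F] Ω, (∀ z, σ z ∈ W ↔ z ∈ W) → (∀ z ∈ W, σ z - z ∈ W.nonunits) →
        ∀ z ∈ geomPro ℓ k F Ω, σ z = z)) ∧
    (∀ σ : Ω ≃ₐ[F] Ω, ∀ z ∈ geomPro ℓ k F Ω, σ z ∈ geomPro ℓ k F Ω)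

end Pool.Agent.Y157.PS
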