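import Pool.Agent.Y157.PS.Loc2
import Pool.Agent.Y157.PS.Stm3
import Pool.Agent.W623.SecC.Red

/-! # The maximal pro-`ℓ` extension: change of the base field -/

set_option autoImplicit false
set_option linter.all false

open Polynomial FF

namespace Pool.Agent.Y157.PS

theorem adjoin_le_sub {K E : Type} [Field K] [Field E] [Algebra K E] {S : Set E} {T : Subfield E}
    (h1 : ∀ c : K, algebraMap K E c ∈ T) (h2 : ∀ z ∈ S, z ∈ T) :
    ∀ z ∈ IntermediateField.adjoin K S, z ∈ T := by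
  intro z hz
  let T' : IntermediateField K E := { T with algebraMap_mem' := h1 }
  have : IntermediateField.adjoin K S ≤ T' := IntermediateField.adjoin_le_iff.2 h2
  exact this hz

section congr

variable {κ₁ κ₂ K₁ K₂ Ω : Type} [Field κ₁] [Field κ₂] [Field K₁] [Field K₂] [Field Ω]
  [Algebra κ₁ Ω] [Algebra κ₂ Ω] [Algebra K₁ Ω] [Algebra K₂ Ω]

/-- the same field, over another base field -/
def swap (e : K₁ ≃+* K₂) (he : ∀ a, algebraMap K₂ Ω (e a) = algebraMap K₁ Ω a)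
    (L : IntermediateField K₁ Ω) : IntermediateField K₂ Ω :=
  { L.toSubfield with
    algebraMap_mem' := fun a => by
      have h1 : algebraMap K₂ Ω a = algebraMap K₁ Ω (e.symm a) := by
        rw [← he, e.apply_symm_apply]
      rw [h1]
      exact L.algebraMap_mem _ }

theorem mem_swap (e : K₁ ≃+* K₂) (he : ∀ a, algebraMap K₂ Ω (e a) = algebraMap K₁ Ω a)
    (L : IntermediateField K₁ Ω) (z : Ω) : z ∈ swap e he L ↔ z ∈ L := Iff.rfl

theorem swap_lev {ℓ : ℕ} (e : K₁ ≃+* K₂) (he : ∀ a, algebraMap K₂ Ω (e a) = algebraMap K₁ Ω a)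
    (L : IntermediateField K₁ Ω) (h : Lev ℓ L) : Lev ℓ (swap e he L) := by
  let g : L ≃+* swap e he L :=
    { toFun := fun z => ⟨z.1, z.2⟩
      invFun := fun z => ⟨z.1, z.2⟩
      left_inv := fun z => rfl
      right_inv := fun z => rfl
      map_mul' := fun z w => rfl
      map_add' := fun z w => rfl }
  have hcomp : (algebraMap K₂ (swap e he L)).comp (e : K₁ →+* K₂) =
      (g : L →+* swap e he L).comp (algebraMap K₁ L) := by
    ext a
    exact he a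
  have h1 := h.fin
  have h2 := h.gal
  obtain ⟨m, hm⟩ := h.card
  exact ⟨Module.Finite.of_equiv_equiv e g hcomp, IsGalois.of_equiv_equiv (f := e) (g := g) hcomp,
    m, by rw [← Algebra.finrank_eq_of_equiv_equiv e g hcomp, hm]⟩

theorem swap_unr (e : K₁ ≃+* K₂) (he : ∀ a, algebraMap K₂ Ω (e a) = algebraMap K₁ Ω a)
    (hκ : ∀ W : ValuationSubring Ω, (∀ c, algebraMap κ₂ Ω c ∈ W) → ∀ c, algebraMap κ₁ Ω c ∈ W)
    (L : IntermediateField K₁ Ω) (h : Unr κ₁ K₁ Ω L) : Unr κ₂ K₂ Ω (swap e he L) := by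
  intro W hW z hz hz0
  obtain ⟨t, ht, hu⟩ := h W (hκ W hW) z hz hz0
  exact ⟨e t, (map_ne_zero_iff e e.injective).2 ht, by rw [he]; exact hu⟩

theorem maxPro_le {ℓ : ℕ} (e : K₁ ≃+* K₂) (he : ∀ a, algebraMap K₂ Ω (e a) = algebraMap K₁ Ω a)
    (hκ : ∀ W : ValuationSubring Ω, (∀ c, algebraMap κ₂ Ω c ∈ W) → ∀ c, algebraMap κ₁ Ω c ∈ W)
    (z : Ω) (hz : z ∈ maxPro ℓ κ₁ K₁ Ω) : z ∈ maxPro ℓ κ₂ K₂ Ω := by
  have he' : ∀ a, algebraMap K₁ Ω (e.symm a) = algebraMap K₂ Ω a := by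
    intro a
    rw [← he, e.apply_symm_apply]
  have h1 : maxPro ℓ κ₁ K₁ Ω ≤ swap e.symm he' (maxPro ℓ κ₂ K₂ Ω) := by
    refine iSup_le fun L => ?_
    intro w hw
    rw [mem_swap]
    have h2 : swap e he L.1 ≤ maxPro ℓ κ₂ K₂ Ω :=
      le_iSup (fun L : {L : IntermediateField K₂ Ω // Lev ℓ L ∧ Unr κ₂ K₂ Ω L} => L.1)
        ⟨swap e he L.1, swap_lev e he L.1 L.2.1, swap_unr e he hκ L.1 L.2.2⟩
    exact h2 hw
  exact h1 hz

theorem maxPro_congr {ℓ : ℕ} (e : K₁ ≃+* K₂)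
    (he : ∀ a, algebraMap K₂ Ω (e a) = algebraMap K₁ Ω a)
    (hκ : ∀ W : ValuationSubring Ω, (∀ c, algebraMap κ₂ Ω c ∈ W) ↔ ∀ c, algebraMap κ₁ Ω c ∈ W)
    (z : Ω) : z ∈ maxPro ℓ κ₁ K₁ Ω ↔ z ∈ maxPro ℓ κ₂ K₂ Ω := by
  refine ⟨maxPro_le e he (fun W => (hκ W).1) z, maxPro_le e.symm ?_ (fun W => (hκ W).2) z⟩
  intro a
  rw [← he, e.apply_symm_apply]

end congr

end Pool.Agent.Y157.PS
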