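import Pool.Agent.Y157.PS.Geo1

/-! # The fields `κ(x)`, `κ(x, Y)` inside `Ω` -/

set_option autoImplicit false
set_option linter.all false

open Polynomial FF

namespace Pool.Agent.Y157.PS

section fields

variable {k F Ω : Type} [Field k] [CharZero k] [Field F] [Field Ω] [Algebra k F] [Algebra F Ω]
  [Algebra k Ω] [IsScalarTower k F Ω] [IsAlgClosed Ω]

omit [CharZero k] in
theorem trans_up {X0 : Ω} (h : Transcendental k X0) :
    Transcendental (algebraicClosure k Ω) X0 := by
  intro h1
  apply h
  have : Algebra.IsAlgebraic k (algebraicClosure k Ω) := inferInstance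
  exact h1.restrictScalars k

theorem ratF_adj {κ Ω : Type} [Field κ] [Field Ω] [Algebra κ Ω] {X0 : Ω}
    (h : Transcendental κ X0) :
    RatF κ (⟨X0, IntermediateField.mem_adjoin_simple_self κ X0⟩ :
      IntermediateField.adjoin κ {X0}) := by
  constructor
  · have h1 := transcendental_algebraMap_iff (R := κ)
      (algebraMap (IntermediateField.adjoin κ {X0}) Ω).injective
      (a := (⟨X0, IntermediateField.mem_adjoin_simple_self κ X0⟩ :
        IntermediateField.adjoin κ {X0}))
    exact h1.1 h
  · apply IntermediateField.map_injective (IntermediateField.adjoin κ {X0}).val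
    rw [IntermediateField.adjoin_map, Set.image_singleton, ← AlgHom.fieldRange_eq_map,
      IntermediateField.fieldRange_val]
    rfl

omit [CharZero k] [IsAlgClosed Ω] in
/-- `κ(x, Y) = k̄ F` -/
theorem fields_eq {x y : F} (hF : IntermediateField.adjoin k {x, y} = (⊤ : IntermediateField k F))
    (δ : algebraicClosure k Ω) (hδ : δ ≠ 0) (z : Ω) :
    z ∈ IntermediateField.adjoin
        (IntermediateField.adjoin (algebraicClosure k Ω) {algebraMap F Ω x})
        {(δ : Ω) * algebraMap F Ω y} ↔ z ∈ geomF k F Ω := by
  have hδ' : (δ : Ω) ≠ 0 := fun h => hδ (Subtype.ext h)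
  constructor
  · intro hz
    refine adjoin_le_sub (T := (geomF k F Ω).toSubfield) ?_ ?_ z hz
    · intro r
      have h1 : (r : Ω) ∈ IntermediateField.adjoin (algebraicClosure k Ω) {algebraMap F Ω x} := r.2
      refine adjoin_le_sub (T := (geomF k F Ω).toSubfield) ?_ ?_ _ h1
      · intro c
        exact IntermediateField.subset_adjoin F _ c.2
      · intro w hw
        rw [Set.mem_singleton_iff] at hw
        rw [hw]
        exact (geomF k F Ω).algebraMap_mem x
    · intro w hw
      rw [Set.mem_singleton_iff] at hw
      rw [hw]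
      exact mul_mem (S := Subfield Ω) (IntermediateField.subset_adjoin F _ δ.2)
        ((geomF k F Ω).algebraMap_mem y)
  · intro hz
    set K1 := IntermediateField.adjoin
        (IntermediateField.adjoin (algebraicClosure k Ω) {algebraMap F Ω x})
        {(δ : Ω) * algebraMap F Ω y} with hK1
    have hR : ∀ w : Ω, w ∈ IntermediateField.adjoin (algebraicClosure k Ω) {algebraMap F Ω x} →
        w ∈ K1 := fun w hw => K1.algebraMap_mem ⟨w, hw⟩
    have hκ : ∀ c : algebraicClosure k Ω, (c : Ω) ∈ K1 := fun c =>
      hR _ (IntermediateField.algebraMap_mem _ c)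
    have hy : algebraMap F Ω y ∈ K1 := by
      have h1 : (δ : Ω) * algebraMap F Ω y ∈ K1 :=
        IntermediateField.mem_adjoin_simple_self _ _
      have h2 : algebraMap F Ω y = (δ : Ω)⁻¹ * ((δ : Ω) * algebraMap F Ω y) := by
        rw [inv_mul_cancel_left₀ hδ']
      rw [h2]
      exact mul_mem (inv_mem (hκ δ)) h1
    refine adjoin_le_sub (T := K1.toSubfield) ?_ ?_ z hz
    · intro r
      have h1 : r ∈ IntermediateField.adjoin k {x, y} := by rw [hF]; trivial
      have h2 : ∀ w ∈ IntermediateField.adjoin k {x, y},
          w ∈ K1.toSubfield.comap (algebraMap F Ω) := by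
        refine adjoin_le_sub ?_ ?_
        · intro c
          rw [Subfield.mem_comap, ← IsScalarTower.algebraMap_apply]
          exact hκ (algebraMap k (algebraicClosure k Ω) c)
        · intro w hw
          rw [Subfield.mem_comap]
          rcases hw with hw | hw
          · rw [hw]
            exact hR _ (IntermediateField.mem_adjoin_simple_self _ _)
          · rw [Set.mem_singleton_iff] at hw
            rw [hw]
            exact hy
      exact h2 r h1
    · intro c hc
      exact hκ ⟨c, hc⟩

/-- `Ω` is an algebraic closure of `κ(x)` -/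
theorem closure_R [Algebra.IsAlgebraic F Ω] {x y : F}
    (hF : IntermediateField.adjoin k {x, y} = (⊤ : IntermediateField k F))
    (δ : algebraicClosure k Ω) (hδ : δ ≠ 0) {ℓ : ℕ} (hℓ : 0 < ℓ)
    (hY : ((δ : Ω) * algebraMap F Ω y) ^ ℓ ∈
      IntermediateField.adjoin (algebraicClosure k Ω) {algebraMap F Ω x}) :
    IsAlgClosure (IntermediateField.adjoin (algebraicClosure k Ω) {algebraMap F Ω x}) Ω := by
  refine ⟨inferInstance, ?_⟩
  set R := IntermediateField.adjoin (algebraicClosure k Ω) {algebraMap F Ω x} with hR
  set K1 := IntermediateField.adjoin R {(δ : Ω) * algebraMap F Ω y} with hK1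
  have hint : IsIntegral R ((δ : Ω) * algebraMap F Ω y) := by
    apply IsIntegral.of_pow hℓ
    exact isIntegral_algebraMap (x := (⟨_, hY⟩ : R))
  have h1 : Algebra.IsAlgebraic R K1 := IntermediateField.isAlgebraic_adjoin_simple hint
  have hmem : ∀ r : F, algebraMap F Ω r ∈ K1 := by
    intro r
    rw [hK1, hR, fields_eq hF δ hδ]
    exact (geomF k F Ω).algebraMap_mem r
  let i : F →+* K1 := (algebraMap F Ω).codRestrict K1.toSubfield hmem
  letI : Algebra F K1 := i.toAlgebra
  haveI : IsScalarTower F K1 Ω := IsScalarTower.of_algebraMap_eq fun r => rfl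
  have h2 : Algebra.IsAlgebraic K1 Ω := Algebra.IsAlgebraic.tower_top (K := F) K1
  exact Algebra.IsAlgebraic.trans R K1 Ω

end fields

end Pool.Agent.Y157.PS
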