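import Pool.Agent.Y157.PS.Geo2
import Pool.Agent.Y536.PS.STAB

/-! # Sections of the geometrically pro-`ℓ` fundamental group -/

set_option autoImplicit false
set_option linter.all false

open Polynomial FF

namespace Pool.Agent.Y157.PS

/-- continuity of a homomorphism to `Gal(M/F)` -/
theorem cont_fix {k κ F M : Type} [Field k] [Field κ] [Algebra k κ] [Field F] [Field M]
    [Algebra F M] [Algebra.IsAlgebraic F M] (S : (κ ≃ₐ[k] κ) →* (M ≃ₐ[F] M)) (hS : Continuous S)
    (w : M) : ∃ E : IntermediateField k κ, FiniteDimensional k E ∧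
      ∀ σ ∈ E.fixingSubgroup, S σ w = w := by
  have h1 : {e : M ≃ₐ[F] M | e w = w} ∈ nhds (1 : M ≃ₐ[F] M) := by
    rw [krullTopology_mem_nhds_one_iff]
    refine ⟨IntermediateField.adjoin F {w}, ?_, ?_⟩
    · exact IntermediateField.adjoin.finiteDimensional (Algebra.IsIntegral.isIntegral _)
    · intro e he
      exact (IntermediateField.mem_fixingSubgroup_iff _ _).1 he _
        (IntermediateField.mem_adjoin_simple_self F _)
  have h2 := hS.tendsto 1
  rw [map_one] at h2
  have h3 := h2 h1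
  rw [Filter.mem_map, krullTopology_mem_nhds_one_iff] at h3
  obtain ⟨E, hE, hE'⟩ := h3
  exact ⟨E, hE, fun σ hσ => hE' hσ⟩

section transfer

variable {κ M N : Type} [Field κ] [Field M] [Field N] [Algebra κ M]

theorem O_iff {κ M : Type} [Field κ] [Field M] [Algebra κ M] (W : Place κ M) {z : M}
    (hz : z ≠ 0) : z ∈ W.O ↔ 0 ≤ W.ord z := by
  rw [Place.mem_O, W.reg_iff hz]

theorem O_non_iff {κ M : Type} [Field κ] [Field M] [Algebra κ M] (W : Place κ M) {z : M}
    (hz : z ≠ 0) : z ∈ W.O.nonunits ↔ 0 < W.ord z := by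
  rw [nonunits_iff, O_iff W hz, O_iff W (inv_ne_zero hz), W.ord_inv]
  constructor
  · rintro ⟨h1, h2 | h2⟩
    · exact absurd h2 hz
    · omega
  · intro h
    exact ⟨h.le, Or.inr (by omega)⟩

/-- an automorphism which preserves the valuation ring of a place fixes the place -/
theorem fixes_of_O {κ M : Type} [Field κ] [Field M] [Algebra κ M] (W : Place κ M)
    (τ : M ≃+* M) (τ₀ : κ ≃+* κ)
    (hc : ∀ c, τ (algebraMap κ M c) = algebraMap κ M (τ₀ c))
    (h : ∀ z, τ z ∈ W.O ↔ z ∈ W.O) : Fixes W τ := by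
  have h1 : Place.comapEquiv W τ τ₀ hc = W := by
    apply Place.ext_O
    ext z
    by_cases hz : z = 0
    · rw [hz]
      exact ⟨fun _ => zero_mem _, fun _ => zero_mem _⟩
    · rw [O_iff _ hz, ← h z, O_iff _ ((map_ne_zero_iff τ τ.injective).2 hz)]
      rfl
  intro z
  exact congrArg (fun P : Place κ M => P.ord z) h1

theorem O_of_fixes {κ M : Type} [Field κ] [Field M] [Algebra κ M] (W : Place κ M)
    (τ : M ≃+* M) (h : Fixes W τ) (z : M) : τ z ∈ W.O ↔ z ∈ W.O := by
  by_cases hz : z = 0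
  · rw [hz, map_zero]
  · rw [O_iff _ hz, O_iff _ ((map_ne_zero_iff τ τ.injective).2 hz), h z]

end transfer

end Pool.Agent.Y157.PS
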