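import Pool.Agent.Y157.PS.Geo3

/-! # Sections of the geometrically pro-`ℓ` fundamental group: abstract form -/

set_option autoImplicit false
set_option linter.all false

open Polynomial FF

namespace Pool.Agent.Y157.PS

/-- the conjugate of a homomorphism to `Gal(N/F)` -/
noncomputable def conjSec {G M N F : Type} [Group G] [Field M] [Field N] [Field F] [Algebra F N]
    (e : M ≃+* N) (S : G →* (N ≃ₐ[F] N)) : G →* RingAut M where
  toFun σ := (e.trans (S σ : N ≃+* N)).trans e.symm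
  map_one' := by
    ext z
    change e.symm (S 1 (e z)) = z
    rw [map_one]
    exact e.symm_apply_apply z
  map_mul' σ τ := by
    ext z
    change e.symm (S (σ * τ) (e z)) = e.symm (S σ (e (e.symm (S τ (e z)))))
    rw [map_mul, e.apply_symm_apply]
    rfl

theorem conjSec_apply {G M N F : Type} [Group G] [Field M] [Field N] [Field F] [Algebra F N]
    (e : M ≃+* N) (S : G →* (N ≃ₐ[F] N)) (σ : G) (z : M) :
    e (conjSec e S σ z) = S σ (e z) := e.apply_symm_apply _

theorem comap_non {M N : Type} [Field M] [Field N] (e : N ≃+* M) (O : ValuationSubring M) (z : N) :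
    z ∈ (O.comap (e : N →+* M)).nonunits ↔ e z ∈ O.nonunits := by
  rw [nonunits_iff, nonunits_iff, ValuationSubring.mem_comap, ValuationSubring.mem_comap]
  change e z ∈ O ∧ (z = 0 ∨ ¬ e z⁻¹ ∈ O) ↔ _
  rw [map_inv₀, map_eq_zero_iff e e.injective]

section absM

variable {A k κ R F M N : Type} [CommRing A] [IsDomain A] [IsDiscreteValuationRing A]
    [Finite (IsLocalRing.ResidueField A)] [Field k] [CharZero k] [Algebra A k] [IsFractionRing A k]
    [Field κ] [Algebra k κ] [Algebra A κ] [IsScalarTower A k κ] [IsAlgClosure k κ]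
    [Field R] [Field F] [Field M] [Field N] [Algebra κ R] [Algebra R M] [Algebra κ M]
    [IsScalarTower κ R M] [Algebra F N]

/-- the abstract form: `M` is the covering field and `N` is isomorphic to `M` -/
theorem geoM (hLOC : S_LOC) (hND : S_NDISC) {ℓ : ℕ} [Fact ℓ.Prime] (V : ValuationSubring κ)
    (hVa : ∀ a : A, algebraMap A κ a ∈ V)
    (hVm : ∀ a ∈ IsLocalRing.maximalIdeal A, algebraMap A κ a ∈ V.nonunits)
    (ϖ : A) (δ : κ) (m : ℤ) (hBase : Base ℓ A k κ V ϖ δ m) (hδ0 : δ ≠ 0)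
    (x' : R) (B : Finset κ) (Y' : M)
    (hCov : Cov ℓ κ R M x' B Y') (hGood : Good V B) (eqv : M ≃+* N) (x y : F)
    (hx : eqv (algebraMap R M x') = algebraMap F N x)
    (hy : eqv Y' = eqv (algebraMap κ M δ) * algebraMap F N y)
    (S : (κ ≃ₐ[k] κ) →* (N ≃ₐ[F] N))
    (hcont : ∀ z : N, ∃ E : IntermediateField k κ, FiniteDimensional k E ∧
      ∀ σ ∈ E.fixingSubgroup, S σ z = z)
    (hcompat : ∀ σ c, S σ (eqv (algebraMap κ M c)) = eqv (algebraMap κ M (σ c))) :
    ∃ W : ValuationSubring N,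
      ((∀ c : κ, eqv (algebraMap κ M c) ∈ W) ∧
       (∀ z ∈ W, ∃ c : κ, z - eqv (algebraMap κ M c) ∈ W.nonunits) ∧
       (∃ e ∈ B, (∀ σ : κ ≃ₐ[k] κ, Dec V σ → σ e = e) ∧
          algebraMap F N x - eqv (algebraMap κ M e) ∈ W.nonunits) ∧
       ∀ σ : κ ≃ₐ[k] κ, Dec V σ → ∀ z, S σ z ∈ W ↔ z ∈ W) ∧
      ∀ W' : ValuationSubring N, (∀ c : κ, eqv (algebraMap κ M c) ∈ W') →
        (∃ e ∈ B, algebraMap F N x - eqv (algebraMap κ M e) ∈ W'.nonunits) →
        (∀ σ : κ ≃ₐ[k] κ, Dec V σ → ∀ z, S σ z ∈ W' ↔ z ∈ W') → W' = W := by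
  classical
  have hkb : IsAlgClosed κ := IsAlgClosure.isAlgClosed k
  have hch : CharZero κ := charZero_of_injective_algebraMap (algebraMap k κ).injective
  let s' : (κ ≃ₐ[k] κ) →* RingAut M := conjSec eqv S
  have hs' : ∀ σ z, eqv (s' σ z) = S σ (eqv z) := fun σ z => conjSec_apply eqv S σ z
  have hconst : ∀ σ c, s' σ (algebraMap κ M c) = algebraMap κ M (σ c) := by
    intro σ c
    apply eqv.injective
    rw [hs', hcompat]
  have hbase : ∀ σ (z : F) (w : M), eqv w = algebraMap F N z → s' σ w = w := by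
    intro σ z w hw
    apply eqv.injective
    rw [hs', hw]
    exact (S σ).commutes z
  have hyY : Y' = algebraMap κ M δ * eqv.symm (algebraMap F N y) := by
    apply eqv.injective
    rw [hy, map_mul, eqv.apply_symm_apply]
  have hSec : Sec k κ R M x' Y' δ s' := by
    refine ⟨hconst, fun σ => hbase σ x _ hx, fun σ => ?_, fun z => ?_⟩
    · have h2 : algebraMap κ M (σ δ / δ) * Y' =
          algebraMap κ M (σ δ) * eqv.symm (algebraMap F N y) := by
        rw [hyY, ← mul_assoc, ← map_mul, div_mul_cancel₀ _ hδ0]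
      rw [h2]
      conv_lhs => rw [hyY]
      rw [map_mul, hconst, hbase σ y _ (eqv.apply_symm_apply _)]
    · obtain ⟨E, hE, hE'⟩ := hcont (eqv z)
      refine ⟨E, hE, fun σ hσ => eqv.injective ?_⟩
      rw [hs', hE' σ hσ]
  obtain ⟨F0, iF0, r, hr, ⟨D⟩⟩ := hND A k κ V hVa hVm ℓ hBase.lunit
  obtain ⟨Q, ⟨e, heB, hQe, hfix⟩, hQfix, hQun⟩ := hLOC ℓ A k κ R M V ϖ δ m
    hBase x' B Y' hCov hGood F0 r hr D s' hSec
  have hmem : ∀ z : N, z ∈ Q.O.comap (eqv.symm : N →+* M) ↔ eqv.symm z ∈ Q.O := fun z => Iff.rfl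
  refine ⟨Q.O.comap (eqv.symm : N →+* M), ⟨?_, ?_, ?_, ?_⟩, ?_⟩
  · intro c
    rw [hmem, eqv.symm_apply_apply, Place.mem_O]
    exact Q.reg_const c
  · intro z hz
    rw [hmem] at hz
    by_cases hz0 : z = 0
    · refine ⟨0, ?_⟩
      rw [comap_non, hz0, map_zero, map_zero, sub_zero, map_zero]
      exact nonunits_iff.2 ⟨zero_mem _, Or.inl rfl⟩
    have hz0' : eqv.symm z ≠ 0 := (map_ne_zero_iff _ eqv.symm.injective).2 hz0
    rw [O_iff Q hz0'] at hz
    obtain ⟨c, hc⟩ := Pool.Agent.Y536.PS.res_const κ M (algebraMap R M x') hCov.alg Q _ hz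
    refine ⟨c, ?_⟩
    rw [comap_non, map_sub, eqv.symm_apply_apply]
    rcases hc with hc | hc
    · rw [hc, sub_self]
      exact nonunits_iff.2 ⟨zero_mem _, Or.inl rfl⟩
    · have h0 : eqv.symm z - algebraMap κ M c ≠ 0 := by
        intro h0
        rw [h0, Q.ord_zero] at hc
        exact lt_irrefl _ hc
      exact (O_non_iff Q h0).2 hc
  · refine ⟨e, heB, hfix, ?_⟩
    rw [comap_non, map_sub, eqv.symm_apply_apply, ← hx, eqv.symm_apply_apply]
    have h0 : algebraMap R M x' - algebraMap κ M e ≠ 0 := by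
      intro h0
      rw [h0, Q.ord_zero] at hQe
      exact lt_irrefl _ hQe
    exact (O_non_iff Q h0).2 hQe
  · intro σ hσ z
    rw [hmem, hmem]
    have h1 : eqv.symm (S σ z) = s' σ (eqv.symm z) := by
      apply eqv.injective
      rw [hs', eqv.apply_symm_apply, eqv.apply_symm_apply]
    rw [h1]
    exact O_of_fixes Q (s' σ) (hQfix σ hσ) _
  · rintro W' hW'1 ⟨e', he'B, he'⟩ hW'3
    have hmem' : ∀ z : M, z ∈ W'.comap (eqv : M →+* N) ↔ eqv z ∈ W' := fun z => Iff.rfl
    have hnon' : ∀ z : M, z ∈ (W'.comap (eqv : M →+* N)).nonunits ↔ eqv z ∈ W'.nonunits :=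
      fun z => comap_non eqv W' z
    have h1 : algebraMap R M x' - algebraMap κ M e' ∈ (W'.comap (eqv : M →+* N)).nonunits := by
      rw [hnon', map_sub, hx]
      exact he'
    have hne : algebraMap R M x' - algebraMap κ M e' ≠ 0 := by
      intro h0
      have h2 : Transcendental κ (algebraMap R M x') :=
        (transcendental_algebraMap_iff (algebraMap R M).injective).2 hCov.rat.trans
      apply h2
      rw [sub_eq_zero.1 h0]
      exact isAlgebraic_algebraMap _
    have htop : W'.comap (eqv : M →+* N) ≠ ⊤ := by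
      intro h0
      rw [h0, nonunits_iff] at h1
      rcases h1.2 with h2 | h2
      · exact hne h2
      · exact h2 trivial
    obtain ⟨Q', hQ', -⟩ := hCov.loc _ (fun c => (hmem' _).2 (hW'1 c)) htop
    have h2 : Q' = Q := by
      refine hQun Q' ⟨e', he'B, ?_⟩ fun σ hσ => ?_
      · rw [← O_non_iff Q' hne, hQ']
        exact h1
      · refine fixes_of_O Q' (s' σ) (σ : κ ≃+* κ) (fun c => hconst σ c) fun z => ?_
        rw [hQ', hmem', hmem', hs']
        exact hW'3 σ hσ _
    ext z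
    rw [hmem, ← h2, hQ', hmem', eqv.apply_symm_apply]

end absM

end Pool.Agent.Y157.PS
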