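import Pool.Agent.Y157.PS.GeoA

/-! # Sections of the geometrically pro-`ℓ` fundamental group: intermediate fields -/

set_option autoImplicit false
set_option linter.all false

open Polynomial FF

namespace Pool.Agent.Y157.PS

section absI

variable {A k κ R F Ω : Type} [CommRing A] [IsDomain A] [IsDiscreteValuationRing A]
    [Finite (IsLocalRing.ResidueField A)] [Field k] [CharZero k] [Algebra A k] [IsFractionRing A k]
    [Field κ] [Algebra k κ] [Algebra A κ] [IsScalarTower A k κ] [IsAlgClosure k κ]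
    [Field R] [Field F] [Field Ω] [Algebra κ R] [Algebra R Ω] [Algebra κ Ω]
    [IsScalarTower κ R Ω] [IsAlgClosure R Ω] [Algebra F Ω] [Algebra.IsAlgebraic F Ω]

theorem geoI (hLOC : S_LOC) (hCOV : S_COV) (hND : S_NDISC) {ℓ : ℕ} [Fact ℓ.Prime]
    (V : ValuationSubring κ)
    (hVa : ∀ a : A, algebraMap A κ a ∈ V)
    (hVm : ∀ a ∈ IsLocalRing.maximalIdeal A, algebraMap A κ a ∈ V.nonunits)
    (ϖ : A) (δ : κ) (m : ℤ) (hBase : Base ℓ A k κ V ϖ δ m) (hδ0 : δ ≠ 0)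
    (x' : R) (hrat : RatF κ x') (B : Finset κ) (hdvd : ℓ ∣ B.card) (h3 : 3 ≤ B.card)
    (hGood : Good V B) (Y0 : Ω)
    (hY : Y0 ^ ℓ = ∏ e ∈ B, (algebraMap R Ω x' - algebraMap κ Ω e))
    (x y : F) (hx : algebraMap R Ω x' = algebraMap F Ω x)
    (hy : Y0 = algebraMap κ Ω δ * algebraMap F Ω y)
    (N : IntermediateField F Ω)
    (hN : ∀ z, z ∈ maxPro ℓ κ (IntermediateField.adjoin R {Y0}) Ω ↔ z ∈ N)
    (S : (κ ≃ₐ[k] κ) →* (N ≃ₐ[F] N)) (hcont : Continuous S)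
    (hcompat : ∀ σ c (z : N), (z : Ω) = algebraMap κ Ω c → (S σ z : Ω) = algebraMap κ Ω (σ c)) :
    ∃ W : ValuationSubring N,
      ((∀ (c : κ) (z : N), (z : Ω) = algebraMap κ Ω c → z ∈ W) ∧
       (∀ z ∈ W, ∃ c : κ, ∃ z' ∈ W.nonunits, (z' : Ω) = (z : Ω) - algebraMap κ Ω c) ∧
       (∃ e ∈ B, (∀ σ : κ ≃ₐ[k] κ, Dec V σ → σ e = e) ∧
          ∃ z' ∈ W.nonunits, (z' : Ω) = algebraMap F Ω x - algebraMap κ Ω e) ∧
       ∀ σ : κ ≃ₐ[k] κ, Dec V σ → ∀ z, S σ z ∈ W ↔ z ∈ W) ∧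
      ∀ W' : ValuationSubring N, (∀ (c : κ) (z : N), (z : Ω) = algebraMap κ Ω c → z ∈ W') →
        (∃ e ∈ B, ∃ z' ∈ W'.nonunits, (z' : Ω) = algebraMap F Ω x - algebraMap κ Ω e) →
        (∀ σ : κ ≃ₐ[k] κ, Dec V σ → ∀ z, S σ z ∈ W' ↔ z ∈ W') → W' = W := by
  classical
  have hkb : IsAlgClosed κ := IsAlgClosure.isAlgClosed k
  have hch : CharZero κ := charZero_of_injective_algebraMap (algebraMap k κ).injective
  obtain ⟨M, hM⟩ : ∃ M : IntermediateField R Ω,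
      ∀ z, z ∈ M ↔ z ∈ maxPro ℓ κ (IntermediateField.adjoin R {Y0}) Ω :=
    ⟨(maxPro ℓ κ (IntermediateField.adjoin R {Y0}) Ω).restrictScalars R, fun z => Iff.rfl⟩
  have hYM : Y0 ∈ M := by
    rw [hM]
    exact (maxPro ℓ κ (IntermediateField.adjoin R {Y0}) Ω).algebraMap_mem
      ⟨Y0, IntermediateField.mem_adjoin_simple_self _ _⟩
  have hCov : Cov ℓ κ R M x' B ⟨Y0, hYM⟩ :=
    hCOV ℓ κ R Ω x' hrat B hdvd h3 Y0 hY M hM ⟨Y0, hYM⟩ rfl
  have hMN : ∀ z, z ∈ M ↔ z ∈ N := fun z => (hM z).trans (hN z)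
  let eqv : M ≃+* N :=
    { toFun := fun w => ⟨w.1, (hMN _).1 w.2⟩
      invFun := fun w => ⟨w.1, (hMN _).2 w.2⟩
      left_inv := fun w => rfl
      right_inv := fun w => rfl
      map_mul' := fun w w' => rfl
      map_add' := fun w w' => rfl }
  have heqv : ∀ w : M, ((eqv w : N) : Ω) = (w : Ω) := fun w => rfl
  have hc : ∀ c : κ, ((eqv (algebraMap κ M c) : N) : Ω) = algebraMap κ Ω c := fun c => rfl
  obtain ⟨W, ⟨h1, h2, ⟨e, heB, hfix, he⟩, h4⟩, hun⟩ := geoM hLOC hND V hVa hVm ϖ δ m hBase hδ0 x' B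
    ⟨Y0, hYM⟩ hCov hGood eqv x y (Subtype.ext hx) (Subtype.ext hy) S (fun z => cont_fix S hcont z)
    (fun σ c => Subtype.ext (hcompat σ c _ rfl))
  refine ⟨W, ⟨?_, ?_, ⟨e, heB, hfix, _, he, rfl⟩, h4⟩, ?_⟩
  · intro c z hz
    have h5 : z = eqv (algebraMap κ M c) := Subtype.ext hz
    rw [h5]
    exact h1 c
  · intro z hz
    obtain ⟨c, hc'⟩ := h2 z hz
    exact ⟨c, _, hc', rfl⟩
  · rintro W' hW'1 ⟨e', he', z', hz', hz''⟩ hW'3
    refine hun W' (fun c => hW'1 c _ rfl) ⟨e', he', ?_⟩ hW'3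
    have h5 : algebraMap F N x - eqv (algebraMap κ M e') = z' := Subtype.ext hz''.symm
    rw [h5]
    exact hz'

end absI

end Pool.Agent.Y157.PS
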