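import Pool.Agent.Y157.PS.Stm3
import Pool.Agent.W620.SC.Def

/-!
# Pro-`ℓ` coverings of superelliptic curves: statements of the parts (4)

(helper157, project PS.)
-/

set_option autoImplicit false
set_option linter.all false

open Polynomial FF

namespace Pool.Agent.Y157.PS

/-- homomorphisms to `π₁(U) = Gal(F_U/F)` induce homomorphisms to the group of the maximal
geometrically pro-`ℓ` extension -/
def S_IND : Prop :=
  ∀ (ℓ : ℕ) [Fact ℓ.Prime] (k F Ω : Type) [Field k] [Field F] [Field Ω] [Algebra k F]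
    [Algebra F Ω] [Algebra k Ω] [IsScalarTower k F Ω] [IsAlgClosed Ω] [Algebra.IsAlgebraic F Ω]
    [CharZero k] (x : F), Transcendental k x →
    Algebra.IsAlgebraic (IntermediateField.adjoin k {x}) F →
    ∀ U : Set (ValuationSubring F), (∀ O ∈ U, ∀ c : k, algebraMap k F c ∈ O) →
    geomPro ℓ k F Ω ≤ Pool.Agent.W620.SC.unramified F Ω U ∧
    ∀ (G : Type) [Group G] [TopologicalSpace G] [IsTopologicalGroup G]
      (S : G →* (Pool.Agent.W620.SC.unramified F Ω U ≃ₐ[F] Pool.Agent.W620.SC.unramified F Ω U)),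
      Continuous S →
      ∃ T : G →* (geomPro ℓ k F Ω ≃ₐ[F] geomPro ℓ k F Ω), Continuous T ∧
        ∀ (g : G) (z : Pool.Agent.W620.SC.unramified F Ω U) (w : geomPro ℓ k F Ω),
          (w : Ω) = (z : Ω) → ((T g w : geomPro ℓ k F Ω) : Ω) =
            ((S g z : Pool.Agent.W620.SC.unramified F Ω U) : Ω)

/-- the `ℓ`-th roots of the functions `(x - e) / (x - e')` are in the maximal geometrically
pro-`ℓ` extension -/
def S_RTS : Prop :=
  ∀ (ℓ : ℕ) [Fact ℓ.Prime] (k F Ω : Type) [Field k] [Field F] [Field Ω] [Algebra k F]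
    [Algebra F Ω] [Algebra k Ω] [IsScalarTower k F Ω] [IsAlgClosed Ω] [Algebra.IsAlgebraic F Ω]
    [CharZero k] (f : k[X]), f.Separable → ℓ ∣ f.natDegree → 3 ≤ f.natDegree →
    ∀ d : k, d ≠ 0 → ∀ x y : F, Transcendental k x → algebraMap k F d * y ^ ℓ = aeval x f →
    IntermediateField.adjoin k {x, y} = (⊤ : IntermediateField k F) →
    ∀ e e' : algebraicClosure k Ω, aeval e f = 0 → aeval e' f = 0 →
    ∃ h : geomPro ℓ k F Ω,
      (h : Ω) ^ ℓ = (algebraMap F Ω x - (e : Ω)) / (algebraMap F Ω x - (e' : Ω))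

/-- a section which is attached globally, modulo 2, to the branch point `e i`, and is attached
locally at `V` to the branch point `e j`: then `i = j` -/
def S_CMP : Prop :=
  ∀ (A k F Ω : Type) [CommRing A] [IsDomain A] [IsDiscreteValuationRing A]
    [Finite (IsLocalRing.ResidueField A)] [Field k] [CharZero k] [Algebra A k]
    [IsFractionRing A k] [Field F] [Field Ω] [Algebra k F] [Algebra F Ω] [Algebra k Ω]
    [IsScalarTower k F Ω] [IsAlgClosed Ω] [Algebra.IsAlgebraic F Ω]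
    (V : ValuationSubring (algebraicClosure k Ω)),
    (∀ a : A, algebraMap k (algebraicClosure k Ω) (algebraMap A k a) ∈ V) →
    (∀ a ∈ IsLocalRing.maximalIdeal A,
      algebraMap k (algebraicClosure k Ω) (algebraMap A k a) ∈ V.nonunits) →
    IsUnit (2 : A) → ∀ (K : Type) [Fintype K] [DecidableEq K] (e : K → A),
    (∀ i j, i ≠ j → IsUnit (e i - e j)) → Even (Fintype.card K) → 4 ≤ Fintype.card K →
    ∀ (ϖ t : A) (m : ℤ), Irreducible ϖ → IsUnit t → Odd m → ∀ x y : F, Transcendental k x →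
    algebraMap k F (algebraMap A k t * algebraMap A k ϖ ^ m) * y ^ 2 =
      ∏ i, (x - algebraMap k F (algebraMap A k (e i))) →
    ∀ S : (algebraicClosure k Ω ≃ₐ[k] algebraicClosure k Ω) →*
      (geomPro 2 k F Ω ≃ₐ[F] geomPro 2 k F Ω),
    (∀ σ (c : algebraicClosure k Ω) (z : geomPro 2 k F Ω), (z : Ω) = (c : Ω) →
      (S σ z : Ω) = (σ c : Ω)) →
    ∀ i j : K,
    (∀ l l', l ≠ i → l' ≠ i → ∃ γ : geomPro 2 k F Ω, (∀ σ, S σ γ = γ) ∧
      (γ : Ω) ^ 2 = algebraMap F Ω ((x - algebraMap k F (algebraMap A k (e l))) *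
        (x - algebraMap k F (algebraMap A k (e l'))) *
        algebraMap k F (algebraMap A k ((e i - e l) * (e i - e l'))))) →
    ∀ W : ValuationSubring (geomPro 2 k F Ω),
    (∀ (c : algebraicClosure k Ω) (z : geomPro 2 k F Ω), (z : Ω) = (c : Ω) → z ∈ W) →
    (∀ z ∈ W, ∃ c : algebraicClosure k Ω, ∃ z' ∈ W.nonunits, (z' : Ω) = (z : Ω) - (c : Ω)) →
    algebraMap F (geomPro 2 k F Ω) (x - algebraMap k F (algebraMap A k (e j))) ∈ W.nonunits →
    (∀ σ : algebraicClosure k Ω ≃ₐ[k] algebraicClosure k Ω, Dec V σ →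
      ∀ z, S σ z ∈ W ↔ z ∈ W) → j = i

end Pool.Agent.Y157.PS
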