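import Pool.Agent.Y157.PS.Ind2
import Pool.Agent.Y32.PS.Cmp
import Pool.Agent.Y574.PS.RTS

/-! # Sections over fields which are not complete, locally -/

set_option autoImplicit false
set_option linter.all false

open Polynomial FF

namespace Pool.Agent.Y157.PS

theorem a_rts : S_RTS := Pool.Agent.Y574.PS.rts a_cov
theorem a_cmp : S_CMP := Pool.Agent.Y32.PS.cmp a_ine

section main

variable {A k F Ω : Type} [CommRing A] [IsDomain A] [IsDiscreteValuationRing A]
    [Finite (IsLocalRing.ResidueField A)] [Field k] [CharZero k] [Algebra A k] [IsFractionRing A k]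
    [Field F] [Field Ω] [Algebra k F] [Algebra F Ω] [Algebra k Ω] [IsScalarTower k F Ω]
    [IsAlgClosed Ω] [Algebra.IsAlgebraic F Ω]

theorem numM {ℓ : ℕ} [Fact ℓ.Prime] (V : ValuationSubring (algebraicClosure k Ω))
    (hVA : ∀ a : A, algebraMap k (algebraicClosure k Ω) (algebraMap A k a) ∈ V)
    (hVm : ∀ a ∈ IsLocalRing.maximalIdeal A,
      algebraMap k (algebraicClosure k Ω) (algebraMap A k a) ∈ V.nonunits)
    (hℓ : IsUnit (ℓ : A)) (f : A[X]) (hlc : IsUnit f.leadingCoeff)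
    (hs : (f.map (IsLocalRing.residue A)).Separable) (hdvd : ℓ ∣ f.natDegree)
    (h3 : 3 ≤ f.natDegree) (ϖ : A) (hϖ : Irreducible ϖ) (d : k) (m : ℤ) (hm : ¬ (ℓ : ℤ) ∣ m)
    (t : A) (ht : IsUnit t) (hd : d = algebraMap A k t * algebraMap A k ϖ ^ m)
    (x y : F) (hx : Transcendental k x)
    (hxy : algebraMap k F d * y ^ ℓ = aeval x (f.map (algebraMap A k)))
    (hF : IntermediateField.adjoin k {x, y} = (⊤ : IntermediateField k F))
    (M : IntermediateField F Ω) (hM : geomPro ℓ k F Ω ≤ M)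
    (S : (algebraicClosure k Ω ≃ₐ[k] algebraicClosure k Ω) →* (M ≃ₐ[F] M)) (hcont : Continuous S)
    (hcompat : ∀ σ (c : algebraicClosure k Ω) (z : M), (z : Ω) = (c : Ω) →
      (S σ z : Ω) = (σ c : Ω)) :
    ∃ W : ValuationSubring M,
      (((∀ c : k, algebraMap F M (algebraMap k F c) ∈ W) ∧
       (∃ e : algebraicClosure k Ω, aeval e (f.map (algebraMap A k)) = 0 ∧
          (∀ σ : algebraicClosure k Ω ≃ₐ[k] algebraicClosure k Ω, Dec V σ → σ e = e) ∧
          ∃ z' ∈ W.nonunits, (z' : Ω) = algebraMap F Ω x - e) ∧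
       (∀ z : F, algebraMap F M z ∈ W → ∃ c : algebraicClosure k Ω,
          (∀ σ : algebraicClosure k Ω ≃ₐ[k] algebraicClosure k Ω, Dec V σ → σ c = c) ∧
          ∃ z' ∈ W.nonunits, (z' : Ω) = algebraMap F Ω z - c)) ∧
       ∀ σ : algebraicClosure k Ω ≃ₐ[k] algebraicClosure k Ω, Dec V σ →
        ∀ z : M, (z : Ω) ∈ geomPro ℓ k F Ω → (S σ z ∈ W ↔ z ∈ W)) ∧
      ∀ W' : ValuationSubring M,
        (∀ c : k, algebraMap F M (algebraMap k F c) ∈ W') →
        algebraMap F M (aeval x (f.map (algebraMap A k))) ∈ W'.nonunits →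
        (∀ σ : algebraicClosure k Ω ≃ₐ[k] algebraicClosure k Ω, Dec V σ →
          ∀ z : M, (z : Ω) ∈ geomPro ℓ k F Ω → (S σ z ∈ W' ↔ z ∈ W')) →
        ∀ z : M, (z : Ω) ∈ geomPro ℓ k F Ω → (z ∈ W' ↔ z ∈ W) := by
  have hd0 : d ≠ 0 := by
    rw [hd]
    refine mul_ne_zero ?_ (zpow_ne_zero _ ?_)
    · rw [Ne, map_eq_zero_iff _ (IsFractionRing.injective A k)]
      exact ht.ne_zero
    · rw [Ne, map_eq_zero_iff _ (IsFractionRing.injective A k)]
      exact hϖ.ne_zero
  have halg := alg_of_eqn (Fact.out : ℓ.Prime).pos (f.map (algebraMap A k)) d hd0 x y hxy hF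
  obtain ⟨T, hTc, hT⟩ := a_ind2 ℓ k F Ω x hx halg M hM _ S hcont
  have hTcompat : ∀ σ (c : algebraicClosure k Ω) (z : geomPro ℓ k F Ω), (z : Ω) = (c : Ω) →
      (T σ z : Ω) = (σ c : Ω) := by
    intro σ c z hz
    have h1 : (z : Ω) ∈ M := hM z.2
    rw [hT σ ⟨(z : Ω), h1⟩ z rfl]
    exact hcompat σ c _ hz
  obtain ⟨W₀, ⟨h1, h2, h3', h4⟩, hun⟩ := geo a_loc a_cov a_ndisc V hVA hVm hℓ f hlc hs hdvd h3 ϖ hϖ
    d m hm t ht hd x y hx hxy hF T hTc hTcompat
  obtain ⟨W, ⟨⟨hW1, hW2, hW3⟩, hW4⟩, hWun⟩ := lift_thm (geomPro ℓ k F Ω) M hM S T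
    (fun σ => Dec V σ) hT
    (fun L W => (∀ c : k, algebraMap F L (algebraMap k F c) ∈ W) ∧
       (∃ e : algebraicClosure k Ω, aeval e (f.map (algebraMap A k)) = 0 ∧
          (∀ σ : algebraicClosure k Ω ≃ₐ[k] algebraicClosure k Ω, Dec V σ → σ e = e) ∧
          ∃ z' ∈ W.nonunits, (z' : Ω) = algebraMap F Ω x - e) ∧
       (∀ z : F, algebraMap F L z ∈ W → ∃ c : algebraicClosure k Ω,
          (∀ σ : algebraicClosure k Ω ≃ₐ[k] algebraicClosure k Ω, Dec V σ → σ c = c) ∧
          ∃ z' ∈ W.nonunits, (z' : Ω) = algebraMap F Ω z - c))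
    (fun L W => (∀ c : k, algebraMap F L (algebraMap k F c) ∈ W) ∧
      algebraMap F L (aeval x (f.map (algebraMap A k))) ∈ W.nonunits)
    (by
      rintro W ⟨a1, ⟨e, he, hfix, z', hz', a2⟩, a3⟩
      refine ⟨a1, ⟨e, he, hfix, _, (non_incl ((IntermediateField.inclusion hM :
        geomPro ℓ k F Ω →ₐ[F] M) : geomPro ℓ k F Ω →+* M) W _).1 hz', a2⟩, fun z hz => ?_⟩
      obtain ⟨c, hcfix, z', hz', hc⟩ := a3 z hz
      exact ⟨c, hcfix, _, (non_incl ((IntermediateField.inclusion hM :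
        geomPro ℓ k F Ω →ₐ[F] M) : geomPro ℓ k F Ω →+* M) W _).1 hz', hc⟩)
    (by
      rintro W ⟨a1, a2⟩
      exact ⟨a1, (non_incl ((IntermediateField.inclusion hM :
        geomPro ℓ k F Ω →ₐ[F] M) : geomPro ℓ k F Ω →+* M) W _).2 a2⟩)
    ⟨W₀, ⟨⟨h1, h3', fun z hz => by
      obtain ⟨c, z', hz', hc⟩ := h2 _ hz
      refine ⟨c, fun σ hσ => ?_, z', hz', hc⟩
      exact res_fixed _ W₀ h1 σ (T σ) (h4 σ hσ) (fun c z hz => hTcompat σ c z hz) z c z' hz' hc⟩,
      fun σ hσ z => h4 σ hσ z⟩, fun W' hW' hst => hun W' hW'.1 hW'.2 hst⟩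
  exact ⟨W, ⟨⟨hW1, hW2, hW3⟩, hW4⟩, fun W' b1 b2 b3 z hz => hWun W' ⟨b1, b2⟩ b3 z hz⟩

/-- curves with rational branch points, `ℓ = 2`, and sections which are attached modulo 2 to a
rational branch point -/
theorem localB (V : ValuationSubring (algebraicClosure k Ω))
    (hVA : ∀ a : A, algebraMap k (algebraicClosure k Ω) (algebraMap A k a) ∈ V)
    (hVm : ∀ a ∈ IsLocalRing.maximalIdeal A,
      algebraMap k (algebraicClosure k Ω) (algebraMap A k a) ∈ V.nonunits)
    (h2 : IsUnit (2 : A)) {K : Type} [Fintype K] [DecidableEq K] (e : K → A)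
    (he : ∀ i j, i ≠ j → IsUnit (e i - e j)) (hev : Even (Fintype.card K))
    (h4 : 4 ≤ Fintype.card K) (ϖ t : A) (m : ℤ) (hϖ : Irreducible ϖ) (ht : IsUnit t) (hm : Odd m)
    (x y : F) (hx : Transcendental k x)
    (hxy : algebraMap k F (algebraMap A k t * algebraMap A k ϖ ^ m) * y ^ 2 =
      ∏ i, (x - algebraMap k F (algebraMap A k (e i))))
    (hF : IntermediateField.adjoin k {x, y} = (⊤ : IntermediateField k F))
    (M : IntermediateField F Ω) (hM : geomPro 2 k F Ω ≤ M)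
    (S : (algebraicClosure k Ω ≃ₐ[k] algebraicClosure k Ω) →* (M ≃ₐ[F] M)) (hcont : Continuous S)
    (hcompat : ∀ σ (c : algebraicClosure k Ω) (z : M), (z : Ω) = (c : Ω) →
      (S σ z : Ω) = (σ c : Ω)) (i : K)
    (hAt : ∀ l l', l ≠ i → l' ≠ i → ∃ γ : M, (∀ σ, S σ γ = γ) ∧
      (γ : Ω) ^ 2 = algebraMap F Ω ((x - algebraMap k F (algebraMap A k (e l))) *
        (x - algebraMap k F (algebraMap A k (e l'))) *
        algebraMap k F (algebraMap A k ((e i - e l) * (e i - e l'))))) :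
    ∃ W : ValuationSubring M,
      (((∀ c : k, algebraMap F M (algebraMap k F c) ∈ W) ∧
       algebraMap F M (x - algebraMap k F (algebraMap A k (e i))) ∈ W.nonunits) ∧
       ∀ σ : algebraicClosure k Ω ≃ₐ[k] algebraicClosure k Ω, Dec V σ →
        ∀ z : M, (z : Ω) ∈ geomPro 2 k F Ω → (S σ z ∈ W ↔ z ∈ W)) ∧
      ∀ W' : ValuationSubring M,
        (∀ c : k, algebraMap F M (algebraMap k F c) ∈ W') →
        algebraMap F M (∏ i, (x - algebraMap k F (algebraMap A k (e i)))) ∈ W'.nonunits →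
        (∀ σ : algebraicClosure k Ω ≃ₐ[k] algebraicClosure k Ω, Dec V σ →
          ∀ z : M, (z : Ω) ∈ geomPro 2 k F Ω → (S σ z ∈ W' ↔ z ∈ W')) →
        ∀ z : M, (z : Ω) ∈ geomPro 2 k F Ω → (z ∈ W' ↔ z ∈ W) := by
  classical
  have hAk : Function.Injective (algebraMap A k) := IsFractionRing.injective A k
  have hd0 : algebraMap A k t * algebraMap A k ϖ ^ m ≠ 0 := by
    refine mul_ne_zero ?_ (zpow_ne_zero _ ?_)
    · rw [Ne, map_eq_zero_iff _ hAk]
      exact ht.ne_zero
    · rw [Ne, map_eq_zero_iff _ hAk]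
      exact hϖ.ne_zero
  have heinj : Function.Injective e := by
    intro i j hij
    by_contra hne
    have h5 := he i j hne
    rw [hij, sub_self] at h5
    exact not_isUnit_zero h5
  set f : A[X] := ∏ j, (X - C (e j)) with hf
  have hfm : f.Monic := monic_prod_X_sub_C _ _
  have hfd : f.natDegree = Fintype.card K := by
    rw [hf, natDegree_prod_of_monic _ _ fun k _ => monic_X_sub_C _,
      Finset.sum_congr rfl fun k _ => natDegree_X_sub_C _]
    simp
  have hfsep : (f.map (IsLocalRing.residue A)).Separable := by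
    rw [hf, Polynomial.map_prod]
    simp only [Polynomial.map_sub, map_X, map_C]
    rw [separable_prod_X_sub_C_iff]
    intro i j hij
    by_contra h
    have h5 : IsLocalRing.residue A (e i - e j) = 0 := by
      rw [map_sub, sub_eq_zero]
      exact hij
    rw [IsLocalRing.residue_eq_zero_iff] at h5
    exact (IsLocalRing.mem_maximalIdeal _).1 h5 (he i j h)
  have hfk : f.map (algebraMap A k) = ∏ j, (X - C (algebraMap A k (e j))) := by
    rw [hf, Polynomial.map_prod]
    refine Finset.prod_congr rfl fun j _ => ?_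
    rw [Polynomial.map_sub, map_X, map_C]
  have hfksep : (f.map (algebraMap A k)).Separable := by
    rw [hfk, separable_prod_X_sub_C_iff]
    exact hAk.comp heinj
  have hfkd : (f.map (algebraMap A k)).natDegree = Fintype.card K := by
    rw [natDegree_map_eq_of_injective hAk, hfd]
  have haev : ∀ (L : Type) [Field L] [Algebra k L] (z : L),
      aeval z (f.map (algebraMap A k)) = ∏ j, (z - algebraMap k L (algebraMap A k (e j))) := by
    intro L _ _ z
    rw [hfk, map_prod]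
    refine Finset.prod_congr rfl fun j _ => ?_
    rw [map_sub, aeval_X, aeval_C]
  have hxy' : algebraMap k F (algebraMap A k t * algebraMap A k ϖ ^ m) * y ^ 2 =
      aeval x (f.map (algebraMap A k)) := by rw [haev, hxy]
  have halg := alg_of_eqn (by norm_num : 0 < 2) (f.map (algebraMap A k)) _ hd0 x y hxy' hF
  obtain ⟨T, hTc, hT⟩ := a_ind2 2 k F Ω x hx halg M hM _ S hcont
  have hTcompat : ∀ σ (c : algebraicClosure k Ω) (z : geomPro 2 k F Ω), (z : Ω) = (c : Ω) →
      (T σ z : Ω) = (σ c : Ω) := by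
    intro σ c z hz
    have h1 : (z : Ω) ∈ M := hM z.2
    rw [hT σ ⟨(z : Ω), h1⟩ z rfl]
    exact hcompat σ c _ hz
  have hm' : ¬ ((2 : ℕ) : ℤ) ∣ m := by
    intro h
    obtain ⟨n, hn⟩ := hm
    have : ((2 : ℕ) : ℤ) = 2 := by norm_num
    omega
  have h2' : IsUnit ((2 : ℕ) : A) := by exact_mod_cast h2
  obtain ⟨W₀, ⟨h1, hres, ⟨e0, he0, hfix, z', hz', hz'e⟩, h5⟩, hun⟩ := geo a_loc a_cov a_ndisc V hVA
    hVm h2' f (by rw [hfm.leadingCoeff]; exact isUnit_one) hfsep (by rw [hfd]; exact hev.two_dvd)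
    (by rw [hfd]; omega) ϖ hϖ _ m hm' t ht rfl x y hx hxy' hF T hTc hTcompat
  -- the branch point
  obtain ⟨j, hj⟩ : ∃ j, e0 = algebraMap k (algebraicClosure k Ω) (algebraMap A k (e j)) := by
    rw [haev, Finset.prod_eq_zero_iff] at he0
    obtain ⟨j, -, hj⟩ := he0
    exact ⟨j, sub_eq_zero.1 hj⟩
  have hzj : algebraMap F (geomPro 2 k F Ω) (x - algebraMap k F (algebraMap A k (e j))) ∈
      W₀.nonunits := by
    have h6 : algebraMap F (geomPro 2 k F Ω) (x - algebraMap k F (algebraMap A k (e j))) = z' := by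
      apply Subtype.ext
      rw [hz'e, hj]
      change algebraMap F Ω (x - algebraMap k F (algebraMap A k (e j))) = _
      rw [map_sub, ← IsScalarTower.algebraMap_apply]
      rfl
    rw [h6]
    exact hz'
  have hAtT : ∀ l l', l ≠ i → l' ≠ i → ∃ γ : geomPro 2 k F Ω, (∀ σ, T σ γ = γ) ∧
      (γ : Ω) ^ 2 = algebraMap F Ω ((x - algebraMap k F (algebraMap A k (e l))) *
        (x - algebraMap k F (algebraMap A k (e l'))) *
        algebraMap k F (algebraMap A k ((e i - e l) * (e i - e l')))) := by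
    intro l l' hl hl'
    obtain ⟨γ, hγ, hγ2⟩ := hAt l l' hl hl'
    have hroot : ∀ l, aeval (algebraMap k (algebraicClosure k Ω) (algebraMap A k (e l)))
        (f.map (algebraMap A k)) = 0 := by
      intro l
      rw [haev]
      exact Finset.prod_eq_zero (Finset.mem_univ l) (sub_self _)
    obtain ⟨h, hh⟩ := a_rts 2 k F Ω (f.map (algebraMap A k)) hfksep
      (by rw [hfkd]; exact hev.two_dvd) (by rw [hfkd]; omega) _ hd0 x y hx hxy' hF _ _ (hroot l)
      (hroot l')
    have hac : IsAlgClosure k (algebraicClosure k Ω) := inferInstance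
    have hkb : IsAlgClosed (algebraicClosure k Ω) := hac.1
    obtain ⟨r, hr⟩ : ∃ r : algebraicClosure k Ω, r ^ 2 =
        algebraMap k (algebraicClosure k Ω) (algebraMap A k ((e i - e l) * (e i - e l'))) :=
      IsAlgClosed.exists_pow_nat_eq _ (by norm_num)
    have hγmem : (γ : Ω) ∈ geomPro 2 k F Ω := by
      have h6 : (h : Ω) * (algebraMap F Ω (x - algebraMap k F (algebraMap A k (e l')))) * (r : Ω) ∈
          geomPro 2 k F Ω :=
        mul_mem (mul_mem h.2 ((geomPro 2 k F Ω).algebraMap_mem _)) (const_geomPro 2 k r)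
      have hne : algebraMap F Ω (x - algebraMap k F (algebraMap A k (e l'))) ≠ 0 := by
        rw [_root_.map_ne_zero, sub_ne_zero]
        intro h7
        apply hx
        rw [h7]
        exact isAlgebraic_algebraMap _
      have h7 : (γ : Ω) ^ 2 = ((h : Ω) *
          (algebraMap F Ω (x - algebraMap k F (algebraMap A k (e l')))) * (r : Ω)) ^ 2 := by
        have h8 : (r : Ω) ^ 2 = algebraMap F Ω (algebraMap k F
            (algebraMap A k ((e i - e l) * (e i - e l')))) := by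
          have h9 := congrArg (algebraMap (algebraicClosure k Ω) Ω) hr
          rw [map_pow, ← IsScalarTower.algebraMap_apply k (algebraicClosure k Ω) Ω] at h9
          rw [← IsScalarTower.algebraMap_apply k F Ω]
          exact h9
        have h10 : ∀ l, algebraMap F Ω x - ((algebraMap k (algebraicClosure k Ω)
            (algebraMap A k (e l)) : algebraicClosure k Ω) : Ω) =
            algebraMap F Ω (x - algebraMap k F (algebraMap A k (e l))) := by
          intro l
          rw [map_sub, ← IsScalarTower.algebraMap_apply k F Ω]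
          rfl
        rw [h10, h10] at hh
        rw [mul_pow, mul_pow, hh, h8, hγ2, map_mul, map_mul]
        field_simp
      rcases sq_eq_sq_iff_eq_or_eq_neg.1 h7 with h8 | h8
      · rw [h8]
        exact h6
      · rw [h8]
        exact neg_mem h6
    refine ⟨⟨(γ : Ω), hγmem⟩, fun σ => ?_, hγ2⟩
    apply Subtype.ext
    rw [hT σ γ ⟨(γ : Ω), hγmem⟩ rfl, hγ]
  have hji : j = i := a_cmp A k F Ω V hVA hVm h2 K e he hev h4 ϖ t m hϖ ht hm x y hx hxy T hTcompat
    i j hAtT W₀ (fun c z hz => const_mem_N _ W₀ h1 c z hz) hres hzj h5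
  rw [hji] at hzj
  obtain ⟨W, ⟨⟨hW1, hW2⟩, hW4⟩, hWun⟩ := lift_thm (geomPro 2 k F Ω) M hM S T
    (fun σ => Dec V σ) hT
    (fun L W => (∀ c : k, algebraMap F L (algebraMap k F c) ∈ W) ∧
       algebraMap F L (x - algebraMap k F (algebraMap A k (e i))) ∈ W.nonunits)
    (fun L W => (∀ c : k, algebraMap F L (algebraMap k F c) ∈ W) ∧
      algebraMap F L (∏ i, (x - algebraMap k F (algebraMap A k (e i)))) ∈ W.nonunits)
    (by
      rintro W ⟨a1, a2⟩
      exact ⟨a1, (non_incl ((IntermediateField.inclusion hM :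
        geomPro 2 k F Ω →ₐ[F] M) : geomPro 2 k F Ω →+* M) W _).1 a2⟩)
    (by
      rintro W ⟨a1, a2⟩
      exact ⟨a1, (non_incl ((IntermediateField.inclusion hM :
        geomPro 2 k F Ω →ₐ[F] M) : geomPro 2 k F Ω →+* M) W _).2 a2⟩)
    ⟨W₀, ⟨⟨h1, hzj⟩, fun σ hσ z => h5 σ hσ z⟩, fun W' hW' hst => hun W' hW'.1 (by
      rw [haev]
      exact hW'.2) hst⟩
  exact ⟨W, ⟨⟨hW1, hW2⟩, hW4⟩, fun W' b1 b2 b3 z hz => hWun W' ⟨b1, b2⟩ b3 z hz⟩

end main

end Pool.Agent.Y157.PS
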