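import Pool.Agent.Y157.PS.Num

/-! # Sections over number fields, locally -/

set_option autoImplicit false
set_option linter.all false

open Polynomial FF IsDedekindDomain NumberField

namespace Pool.Agent.Y157.PS

theorem int_mem {N : Type} [Field N] (W : ValuationSubring N) (z : N) (p : ℤ[X]) (hp : p.Monic)
    (hz : p.eval₂ (algebraMap ℤ N) z = 0) : z ∈ W := by
  have h2 : IsIntegral W z := by
    refine ⟨p.map (Int.castRingHom W), hp.map _, ?_⟩
    rw [Polynomial.eval₂_map]
    have h3 : (algebraMap W N).comp (Int.castRingHom W) = algebraMap ℤ N := RingHom.ext_int _ _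
    rw [h3]
    exact hz
  obtain ⟨y, hy⟩ := IsIntegrallyClosed.isIntegral_iff.1 h2
  rw [← hy]
  exact y.2

theorem num_data {K : Type} [Field K] [NumberField K] (v : HeightOneSpectrum (𝓞 K)) (ℓ : ℕ)
    (hℓ : (ℓ : 𝓞 K) ∉ v.asIdeal) (g : (𝓞 K)[X]) (hlc : g.leadingCoeff ∉ v.asIdeal)
    (hs : (g.map (Ideal.Quotient.mk v.asIdeal)).Separable)
    (b : 𝓞 K) (n : ℕ) (hb : b ∈ v.asIdeal ^ n) (hb' : b ∉ v.asIdeal ^ (n + 1)) :
    ∃ (A : Type) (_ : CommRing A) (_ : IsDomain A) (_ : IsDiscreteValuationRing A)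
      (_ : Algebra A K), Finite (IsLocalRing.ResidueField A) ∧ IsFractionRing A K ∧
      IsUnit (ℓ : A) ∧
      (∀ (Ω : Type) [Field Ω] [Algebra K Ω] (V : ValuationSubring Ω),
        (∀ a ∈ v.asIdeal, algebraMap K Ω (algebraMap (𝓞 K) K a) ∈ V.nonunits) →
        (∀ a : A, algebraMap K Ω (algebraMap A K a) ∈ V) ∧
        ∀ a ∈ IsLocalRing.maximalIdeal A, algebraMap K Ω (algebraMap A K a) ∈ V.nonunits) ∧
      ∃ f : A[X], f.map (algebraMap A K) = g.map (algebraMap (𝓞 K) K) ∧
        f.natDegree = g.natDegree ∧ IsUnit f.leadingCoeff ∧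
        (f.map (IsLocalRing.residue A)).Separable ∧
        ∃ ϖ t : A, Irreducible ϖ ∧ IsUnit t ∧
          algebraMap (𝓞 K) K b = algebraMap A K t * algebraMap A K ϖ ^ (n : ℤ) := by
  classical
  have hvm : v.asIdeal.IsMaximal := v.isMaximal
  have hvp : v.asIdeal.IsPrime := v.isPrime
  have hle : v.asIdeal.primeCompl ≤ nonZeroDivisors (𝓞 K) := v.asIdeal.primeCompl_le_nonZeroDivisors
  let A := Localization.subalgebra.ofField K v.asIdeal.primeCompl hle
  have hloc : IsLocalization.AtPrime A v.asIdeal :=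
    Localization.subalgebra.isLocalization_ofField K v.asIdeal.primeCompl hle
  have hdvr : IsDiscreteValuationRing A :=
    IsLocalization.AtPrime.isDiscreteValuationRing_of_dedekind_domain (𝓞 K) v.ne_bot A
  have hfr : IsFractionRing A K := inferInstance
  have hunit : ∀ c : 𝓞 K, c ∉ v.asIdeal → IsUnit (algebraMap (𝓞 K) A c) := fun c hc =>
    (IsLocalization.AtPrime.isUnit_to_map_iff A v.asIdeal c).2 hc
  let e : (𝓞 K ⧸ v.asIdeal) ≃+* IsLocalRing.ResidueField A :=
    IsLocalization.AtPrime.equivQuotMaximalIdeal v.asIdeal A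
  have hcomp : (IsLocalRing.residue A).comp (algebraMap (𝓞 K) A) =
      (e : (𝓞 K ⧸ v.asIdeal) →+* IsLocalRing.ResidueField A).comp
        (Ideal.Quotient.mk v.asIdeal) := by
    ext c
    rfl
  have hcompK : (algebraMap A K).comp (algebraMap (𝓞 K) A) = algebraMap (𝓞 K) K := by
    ext c
    rfl
  have hfin : Finite (IsLocalRing.ResidueField A) := by
    have h1 : Finite (𝓞 K ⧸ v.asIdeal) := Ideal.finiteQuotientOfFreeOfNeBot _ v.ne_bot
    exact Finite.of_equiv _ e.toEquiv
  have hlcA0 : algebraMap (𝓞 K) A g.leadingCoeff ≠ 0 := (hunit _ hlc).ne_zero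
  have hmapres : (g.map (algebraMap (𝓞 K) A)).map (IsLocalRing.residue A) =
      (g.map (Ideal.Quotient.mk v.asIdeal)).map
        (e : (𝓞 K ⧸ v.asIdeal) →+* IsLocalRing.ResidueField A) := by
    rw [Polynomial.map_map, hcomp, ← Polynomial.map_map]
  refine ⟨A, inferInstance, inferInstance, hdvr, inferInstance, hfin, hfr, ?_, ?_,
    g.map (algebraMap (𝓞 K) A), ?_, ?_, ?_, ?_, ?_⟩
  · have h3 := hunit _ hℓ
    rwa [map_natCast] at h3
  · intro Ω _ _ V hV
    have hO : ∀ a : 𝓞 K, algebraMap K Ω (algebraMap (𝓞 K) K a) ∈ V := by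
      intro a
      have h1 : IsIntegral ℤ (algebraMap K Ω (algebraMap (𝓞 K) K a)) := by
        have h2 : IsIntegral ℤ (algebraMap (𝓞 K) K a) := RingOfIntegers.isIntegral_coe a
        exact h2.map (algebraMap K Ω).toIntAlgHom
      obtain ⟨p, hp, hpa⟩ := h1
      refine Pool.Agent.Y157.PS.int_mem V _ p hp ?_
      exact hpa
    have hU : ∀ c : 𝓞 K, c ∉ v.asIdeal → IsU V (algebraMap K Ω (algebraMap (𝓞 K) K c)) := by
      intro c hc
      refine isU_of_not_nonunit (hO c) fun hn => ?_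
      obtain ⟨a, b, hb, hab⟩ : ∃ a b : 𝓞 K, b ∈ v.asIdeal ∧ a * c + b = 1 := by
        have h1 : v.asIdeal ⊔ Ideal.span {c} = ⊤ := by
          refine hvm.out.2 _ ?_
          exact lt_of_le_of_ne le_sup_left fun h => hc (h ▸ (le_sup_right : Ideal.span {c} ≤ _)
            (Ideal.mem_span_singleton_self c))
        have h2 : (1 : 𝓞 K) ∈ v.asIdeal ⊔ Ideal.span {c} := by rw [h1]; trivial
        obtain ⟨b, hb, a', ha', hab⟩ := Submodule.mem_sup.1 h2
        obtain ⟨a, rfl⟩ := Ideal.mem_span_singleton'.1 ha'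
        exact ⟨a, b, hb, by rw [← hab]; ring⟩
      have h1 := congrArg (fun z => algebraMap K Ω (algebraMap (𝓞 K) K z)) hab
      simp only [map_add, map_mul, map_one] at h1
      have h2 : (1 : Ω) ∈ V.nonunits := by
        rw [← h1]
        exact non_add (non_mul (hO a) hn) (hV b hb)
      exact isU_one.not_nonunit h2
    have key : ∀ a : A, ∃ c s : 𝓞 K, s ∉ v.asIdeal ∧ a * algebraMap (𝓞 K) A s =
        algebraMap (𝓞 K) A c := by
      intro a
      obtain ⟨⟨c, s⟩, hcs⟩ := IsLocalization.surj v.asIdeal.primeCompl a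
      exact ⟨c, s.1, s.2, hcs⟩
    have key2 : ∀ (a : A) (c s : 𝓞 K), s ∉ v.asIdeal → a * algebraMap (𝓞 K) A s =
        algebraMap (𝓞 K) A c → algebraMap K Ω (algebraMap A K a) =
        (algebraMap K Ω (algebraMap (𝓞 K) K s))⁻¹ * algebraMap K Ω (algebraMap (𝓞 K) K c) := by
      intro a c s hs hacs
      have h1 := congrArg (fun z => algebraMap K Ω (algebraMap A K z)) hacs
      simp only [map_mul] at h1
      have h2 : ∀ z : 𝓞 K, algebraMap A K (algebraMap (𝓞 K) A z) = algebraMap (𝓞 K) K z :=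
        fun z => rfl
      rw [h2, h2] at h1
      rw [← h1, mul_comm _ (algebraMap K Ω (algebraMap (𝓞 K) K s)), inv_mul_cancel_left₀ (hU s hs).1]
    constructor
    · intro a
      obtain ⟨c, s, hs, hacs⟩ := key a
      rw [key2 a c s hs hacs]
      exact mul_mem (hU s hs).2.2 (hO c)
    · intro a ha
      obtain ⟨c, s, hs, hacs⟩ := key a
      rw [key2 a c s hs hacs]
      refine non_mul (hU s hs).2.2 (hV c ?_)
      have h1 : algebraMap (𝓞 K) A c ∈ IsLocalRing.maximalIdeal A := by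
        rw [← hacs]
        exact Ideal.mul_mem_right _ _ ha
      by_contra hc
      exact (IsLocalRing.mem_maximalIdeal _).1 h1 (hunit c hc)
  · rw [Polynomial.map_map, hcompK]
  · exact natDegree_map_of_leadingCoeff_ne_zero _ hlcA0
  · rw [leadingCoeff_map_of_leadingCoeff_ne_zero _ hlcA0]
    exact hunit _ hlc
  · rw [hmapres]
    exact hs.map
  · obtain ⟨ϖ, hϖ⟩ := IsDiscreteValuationRing.exists_irreducible A
    have hpow : ∀ m : ℕ, b ∈ v.asIdeal ^ m ↔ algebraMap (𝓞 K) A b ∈
        IsLocalRing.maximalIdeal A ^ m := by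
      intro m
      rw [← IsLocalization.AtPrime.under_maximalIdeal_pow v.asIdeal A]
      rfl
    have hb0 : algebraMap (𝓞 K) A b ≠ 0 := by
      intro h
      apply hb'
      rw [hpow, h]
      exact zero_mem _
    obtain ⟨j, u, hj⟩ := IsDiscreteValuationRing.eq_unit_mul_pow_irreducible hb0 hϖ
    have hdvd : ∀ m : ℕ, b ∈ v.asIdeal ^ m ↔ m ≤ j := by
      intro m
      rw [hpow, hϖ.maximalIdeal_eq, Ideal.span_singleton_pow, Ideal.mem_span_singleton, hj,
        (Units.isUnit u).dvd_mul_left, pow_dvd_pow_iff hϖ.ne_zero hϖ.not_isUnit]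
    have hjn : j = n := by
      rw [hdvd] at hb hb'
      omega
    refine ⟨ϖ, u, hϖ, u.isUnit, ?_⟩
    rw [← hcompK, RingHom.comp_apply, hj, map_mul, map_pow, hjn, zpow_natCast]

end Pool.Agent.Y157.PS
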