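import Pool.Agent.Y157.PS.All

/-! # Sections over complete fields -/

set_option autoImplicit false
set_option linter.all false

open Polynomial FF

namespace Pool.Agent.Y157.PS

section consts

variable {k F Ω : Type} [Field k] [Field F] [Field Ω] [Algebra k F] [Algebra F Ω] [Algebra k Ω]
  [IsScalarTower k F Ω]

/-- a valuation ring which contains `k` contains the algebraic closure of `k` -/
theorem const_mem_N (N : IntermediateField F Ω) (W : ValuationSubring N)
    (hW : ∀ c : k, algebraMap F N (algebraMap k F c) ∈ W) (c : algebraicClosure k Ω) (z : N)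
    (hz : (z : Ω) = (c : Ω)) : z ∈ W := by
  have h5 : IsIntegral k (c : Ω) := c.2
  obtain ⟨p, hp, hpc⟩ := h5
  refine alg_mem ((algebraMap F N).comp (algebraMap k F)) W hW z p hp ?_
  apply (algebraMap N Ω).injective
  rw [hom_eval₂, map_zero]
  have h6 : (algebraMap N Ω).comp ((algebraMap F N).comp (algebraMap k F)) = algebraMap k Ω := by
    ext a
    exact (IsScalarTower.algebraMap_apply k F Ω a).symm
  have h7 : algebraMap N Ω z = (c : Ω) := hz
  rw [h6, h7]
  exact hpc

theorem const_non_N (N : IntermediateField F Ω) (W : ValuationSubring N)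
    (hW : ∀ c : k, algebraMap F N (algebraMap k F c) ∈ W) (c : algebraicClosure k Ω) (z : N)
    (hz : (z : Ω) = (c : Ω)) (hn : z ∈ W.nonunits) : c = 0 := by
  rcases (nonunits_iff.1 hn).2 with h | h
  · rw [h] at hz
    exact (Subtype.ext hz).symm
  · exact absurd (const_mem_N N W hW c⁻¹ z⁻¹ (by
      change (z : Ω)⁻¹ = (c : Ω)⁻¹
      rw [hz])) h

/-- constants in the residue field of `F` are fixed -/
theorem res_fixed (N : IntermediateField F Ω) (W : ValuationSubring N)
    (hW : ∀ c : k, algebraMap F N (algebraMap k F c) ∈ W)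
    (σ : algebraicClosure k Ω ≃ₐ[k] algebraicClosure k Ω) (τ : N ≃ₐ[F] N)
    (hτ : ∀ z, τ z ∈ W ↔ z ∈ W)
    (hστ : ∀ (c : algebraicClosure k Ω) (z : N), (z : Ω) = (c : Ω) → (τ z : Ω) = (σ c : Ω))
    (z : F) (c : algebraicClosure k Ω) (z' : N) (hz' : z' ∈ W.nonunits)
    (hzc : (z' : Ω) = algebraMap F Ω z - (c : Ω)) : σ c = c := by
  have h1 : τ z' ∈ W.nonunits := (stable_non (τ := (τ : N ≃+* N)) hτ z').2 hz'
  have h2 := non_sub hz' h1
  set cN : N := algebraMap F N z - z' with hcN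
  have h3 : (cN : Ω) = (c : Ω) := by
    change algebraMap F Ω z - (z' : Ω) = _
    rw [hzc]
    ring
  have h4 : τ z' = algebraMap F N z - τ cN := by
    have h5 : z' = algebraMap F N z - cN := by rw [hcN]; ring
    conv_lhs => rw [h5]
    rw [map_sub, τ.commutes]
  have h6 : ((z' - τ z' : N) : Ω) = ((σ c - c : algebraicClosure k Ω) : Ω) := by
    rw [h4]
    change (z' : Ω) - (algebraMap F Ω z - (τ cN : Ω)) = (σ c : Ω) - (c : Ω)
    rw [hστ c cN h3, hzc]
    ring
  exact sub_eq_zero.1 (const_non_N N W hW _ _ h6 h2)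

end consts

section main

variable {A k F Ω : Type} [CommRing A] [IsDomain A] [IsDiscreteValuationRing A]
    [IsAdicComplete (IsLocalRing.maximalIdeal A) A]
    [Finite (IsLocalRing.ResidueField A)] [Field k] [CharZero k] [Algebra A k] [IsFractionRing A k]
    [Field F] [Field Ω] [Algebra k F] [Algebra F Ω] [Algebra k Ω] [IsScalarTower k F Ω]
    [IsAlgClosed Ω] [Algebra.IsAlgebraic F Ω]

theorem padic {ℓ : ℕ} [Fact ℓ.Prime]
    (hℓ : IsUnit (ℓ : A)) (f : A[X]) (hlc : IsUnit f.leadingCoeff)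
    (hs : (f.map (IsLocalRing.residue A)).Separable) (hdvd : ℓ ∣ f.natDegree)
    (h3 : 3 ≤ f.natDegree) (ϖ : A) (hϖ : Irreducible ϖ) (d : k) (m : ℤ) (hm : ¬ (ℓ : ℤ) ∣ m)
    (t : A) (ht : IsUnit t) (hd : d = algebraMap A k t * algebraMap A k ϖ ^ m)
    (x y : F) (hx : Transcendental k x)
    (hxy : algebraMap k F d * y ^ ℓ = aeval x (f.map (algebraMap A k)))
    (hF : IntermediateField.adjoin k {x, y} = (⊤ : IntermediateField k F))
    (S : (algebraicClosure k Ω ≃ₐ[k] algebraicClosure k Ω) →*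
      (geomPro ℓ k F Ω ≃ₐ[F] geomPro ℓ k F Ω)) (hcont : Continuous S)
    (hcompat : ∀ σ (c : algebraicClosure k Ω) (z : geomPro ℓ k F Ω), (z : Ω) = (c : Ω) →
      (S σ z : Ω) = (σ c : Ω)) :
    ∃ W : ValuationSubring (geomPro ℓ k F Ω),
      ((∀ c : k, algebraMap F (geomPro ℓ k F Ω) (algebraMap k F c) ∈ W) ∧
       (∃ e : k, aeval e (f.map (algebraMap A k)) = 0 ∧
          algebraMap F (geomPro ℓ k F Ω) (x - algebraMap k F e) ∈ W.nonunits) ∧
       (∀ z : F, algebraMap F (geomPro ℓ k F Ω) z ∈ W →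
          ∃ c : k, algebraMap F (geomPro ℓ k F Ω) (z - algebraMap k F c) ∈ W.nonunits) ∧
       ∀ σ z, S σ z ∈ W ↔ z ∈ W) ∧
      ∀ W' : ValuationSubring (geomPro ℓ k F Ω),
        (∀ c : k, algebraMap F (geomPro ℓ k F Ω) (algebraMap k F c) ∈ W') →
        algebraMap F (geomPro ℓ k F Ω) (aeval x (f.map (algebraMap A k))) ∈ W'.nonunits →
        (∀ σ z, S σ z ∈ W' ↔ z ∈ W') → W' = W := by
  have hac : IsAlgClosure k (algebraicClosure k Ω) := inferInstance
  have : Normal k (algebraicClosure k Ω) := IsAlgClosure.normal k _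
  have hGal : IsGalois k (algebraicClosure k Ω) := ⟨⟩
  letI : Algebra A (algebraicClosure k Ω) :=
    ((algebraMap k (algebraicClosure k Ω)).comp (algebraMap A k)).toAlgebra
  haveI hst : IsScalarTower A k (algebraicClosure k Ω) :=
    IsScalarTower.of_algebraMap_eq (fun _ => rfl)
  obtain ⟨V, hV⟩ := Pool.Agent.Y809.PS.val A k (algebraicClosure k Ω)
  have hVa : ∀ a : A, algebraMap A (algebraicClosure k Ω) a ∈ V := fun a =>
    (hV _).2 isIntegral_algebraMap
  have hVm : ∀ a ∈ IsLocalRing.maximalIdeal A, algebraMap A (algebraicClosure k Ω) a ∈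
      V.nonunits := by
    intro a ha
    refine nonunits_iff.2 ⟨hVa a, ?_⟩
    by_cases ha0 : a = 0
    · left
      rw [ha0, map_zero]
    right
    intro hi
    rw [hV, IsScalarTower.algebraMap_apply A k (algebraicClosure k Ω), ← map_inv₀,
      isIntegral_algebraMap_iff (algebraMap k (algebraicClosure k Ω)).injective] at hi
    obtain ⟨b, hb⟩ := IsIntegrallyClosed.isIntegral_iff.1 hi
    have h1 : a * b = 1 := by
      apply IsFractionRing.injective A k
      rw [map_mul, hb, map_one, mul_inv_cancel₀]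
      rw [Ne, map_eq_zero_iff _ (IsFractionRing.injective A k)]
      exact ha0
    exact (IsLocalRing.mem_maximalIdeal _).1 ha (IsUnit.of_mul_eq_one b h1)
  have hdec : ∀ σ : algebraicClosure k Ω ≃ₐ[k] algebraicClosure k Ω, Dec V σ := by
    intro σ z
    rw [hV, hV]
    have h1 : ∀ (τ : algebraicClosure k Ω ≃ₐ[k] algebraicClosure k Ω) (w : algebraicClosure k Ω),
        IsIntegral A w → IsIntegral A (τ w) := fun τ w hw =>
      hw.map (τ.toAlgHom.restrictScalars A)
    refine ⟨fun h => ?_, h1 σ z⟩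
    have h2 := h1 σ.symm _ h
    rwa [σ.symm_apply_apply] at h2
  obtain ⟨W, ⟨h1, h2, ⟨e, he0, hfix, z', hz', hz'e⟩, h4⟩, hun⟩ :=
    geo a_loc a_cov a_ndisc V hVa hVm hℓ f hlc hs hdvd h3 ϖ hϖ d m hm t ht hd x y hx hxy hF S
      hcont hcompat
  have hrat : ∀ c : algebraicClosure k Ω, (∀ σ : algebraicClosure k Ω ≃ₐ[k]
      algebraicClosure k Ω, σ c = c) → ∃ c' : k, algebraMap k (algebraicClosure k Ω) c' = c := by
    intro c hc
    have h5 := (InfiniteGalois.mem_bot_iff_fixed c).2 hc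
    exact IntermediateField.mem_bot.1 h5
  refine ⟨W, ⟨h1, ?_, ?_, fun σ z => h4 σ (hdec σ) z⟩, fun W' hW'1 hW'2 hW'3 =>
    hun W' hW'1 hW'2 fun σ _ z => hW'3 σ z⟩
  · obtain ⟨e', rfl⟩ := hrat e fun σ => hfix σ (hdec σ)
    refine ⟨e', ?_, ?_⟩
    · rw [aeval_algebraMap_apply] at he0
      exact (_root_.map_eq_zero _).1 he0
    · have h5 : algebraMap F (geomPro ℓ k F Ω) (x - algebraMap k F e') = z' := by
        apply Subtype.ext
        rw [hz'e]
        change algebraMap F Ω (x - algebraMap k F e') = _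
        rw [map_sub, ← IsScalarTower.algebraMap_apply]
        rfl
      rw [h5]
      exact hz'
  · intro z hz
    obtain ⟨c, w, hw, hwc⟩ := h2 _ hz
    obtain ⟨c', rfl⟩ := hrat c fun σ => res_fixed _ W h1 σ (S σ) (h4 σ (hdec σ))
      (fun c z hz => hcompat σ c z hz) z c w hw hwc
    refine ⟨c', ?_⟩
    have h5 : algebraMap F (geomPro ℓ k F Ω) (z - algebraMap k F c') = w := by
      apply Subtype.ext
      rw [hwc]
      change algebraMap F Ω (z - algebraMap k F c') = _
      rw [map_sub, ← IsScalarTower.algebraMap_apply]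
      rfl
    rw [h5]
    exact hw

end main

end Pool.Agent.Y157.PS
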