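import Pool.Agent.Y157.PS.Stm

/-!
# Pro-`ℓ` coverings of superelliptic curves: statements of the parts (2)

(helper157, project PS.)  Construction of the covering field and of the disc.
-/

set_option autoImplicit false
set_option linter.all false

open Polynomial FF

namespace Pool.Agent.Y157.PS

/-! ## The covering field -/

/-- no valuation ring over `κ` ramifies in `L / K`: every nonzero element of `L` has the same value
as an element of `K` -/
def Unr (κ K Ω : Type) [Field κ] [Field K] [Field Ω] [Algebra κ Ω] [Algebra K Ω]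
    (L : IntermediateField K Ω) : Prop :=
  ∀ W : ValuationSubring Ω, (∀ c : κ, algebraMap κ Ω c ∈ W) → ∀ z ∈ L, z ≠ 0 →
    ∃ t : K, t ≠ 0 ∧ IsU W (z / algebraMap K Ω t)

/-- the maximal pro-`ℓ` extension of `K` in `Ω` which is unramified at all valuation rings that
contain `κ`: the compositum of the finite Galois extensions of degree a power of `ℓ` with this
property -/
def maxPro (ℓ : ℕ) (κ K Ω : Type) [Field κ] [Field K] [Field Ω] [Algebra κ Ω] [Algebra K Ω] :
    IntermediateField K Ω :=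
  ⨆ L : {L : IntermediateField K Ω // Lev ℓ L ∧ Unr κ K Ω L}, L.1

/-- the valuation rings of `κ(x, Y)`: uniformisers -/
def S_K0 : Prop :=
  ∀ (ℓ : ℕ) [Fact ℓ.Prime] (κ R Ω : Type) [Field κ] [IsAlgClosed κ] [CharZero κ] [Field R]
    [Field Ω] [Algebra κ R] [Algebra R Ω] [Algebra κ Ω] [IsScalarTower κ R Ω] [IsAlgClosure R Ω]
    (x : R), RatF κ x → ∀ B : Finset κ, ℓ ∣ B.card → B.Nonempty →
    ∀ Y : Ω, Y ^ ℓ = ∏ e ∈ B, (algebraMap R Ω x - algebraMap κ Ω e) →
    ∀ W : ValuationSubring Ω, (∀ c : κ, algebraMap κ Ω c ∈ W) →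
      (∃ z : R, algebraMap R Ω z ∉ W) →
      ∃ π : Ω, π ∈ W.nonunits ∧ π ≠ 0 ∧
        ((∃ e ∈ B, π = Y ∧ IsU W ((algebraMap R Ω x - algebraMap κ Ω e) / Y ^ ℓ)) ∨
          (∃ a, a ∉ B ∧ π = algebraMap R Ω x - algebraMap κ Ω a) ∨
          π = (algebraMap R Ω x)⁻¹) ∧
        ∀ z ∈ IntermediateField.adjoin R {Y}, z ≠ 0 → ∃ n : ℤ, IsU W (z / π ^ n)

/-- the maximal unramified pro-`ℓ` extension of `κ(x, Y)` is a covering field -/
def S_COV : Prop :=
  ∀ (ℓ : ℕ) [Fact ℓ.Prime] (κ R Ω : Type) [Field κ] [IsAlgClosed κ] [CharZero κ] [Field R]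
    [Field Ω] [Algebra κ R] [Algebra R Ω] [Algebra κ Ω] [IsScalarTower κ R Ω] [IsAlgClosure R Ω]
    (x : R), RatF κ x → ∀ B : Finset κ, ℓ ∣ B.card → 3 ≤ B.card →
    ∀ Y : Ω, Y ^ ℓ = ∏ e ∈ B, (algebraMap R Ω x - algebraMap κ Ω e) →
    ∀ M : IntermediateField R Ω,
      (∀ z, z ∈ M ↔ z ∈ maxPro ℓ κ (IntermediateField.adjoin R {Y}) Ω) →
      ∀ Y' : M, (Y' : Ω) = Y → Cov ℓ κ R M x B Y'

/-! ## The disc -/

/-- the setting: `A` is a complete discrete valuation ring and `V` is its integral closure -/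
structure CDVR (A k κ : Type) [CommRing A] [IsDomain A] [IsDiscreteValuationRing A]
    [Field k] [Field κ] [Algebra A k] [Algebra k κ] [Algebra A κ] [IsScalarTower A k κ]
    (V : ValuationSubring κ) : Prop where
  compl : IsAdicComplete (IsLocalRing.maximalIdeal A) A
  frac : IsFractionRing A k
  char0 : CharZero k
  closure : IsAlgClosure k κ
  int : ∀ z : κ, z ∈ V ↔ IsIntegral A z

/-- the integral closure of a complete discrete valuation ring is a valuation ring -/
def S_VAL : Prop :=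
  ∀ (A k κ : Type) [CommRing A] [IsDomain A] [IsDiscreteValuationRing A]
    [IsAdicComplete (IsLocalRing.maximalIdeal A) A] [Field k] [Field κ] [Algebra A k]
    [Algebra k κ] [Algebra A κ] [IsScalarTower A k κ] [IsFractionRing A k] [CharZero k]
    [IsAlgClosure k κ], ∃ V : ValuationSubring κ, ∀ z : κ, z ∈ V ↔ IsIntegral A z

/-- the valuation rings of the finite extensions are complete discrete valuation rings -/
def S_DA : Prop :=
  ∀ (A k κ : Type) [CommRing A] [IsDomain A] [IsDiscreteValuationRing A] [Field k] [Field κ]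
    [Algebra A k] [Algebra k κ] [Algebra A κ] [IsScalarTower A k κ] (V : ValuationSubring κ),
    CDVR A k κ V → ∀ k' : IntermediateField k κ, FiniteDimensional k k' →
      IsDiscreteValuationRing (V.comap (algebraMap k' κ)) ∧
      IsAdicComplete (IsLocalRing.maximalIdeal (V.comap (algebraMap k' κ)))
        (V.comap (algebraMap k' κ))

/-- Weierstrass preparation -/
def S_DB : Prop :=
  ∀ (O : Type) [CommRing O] [IsDomain O] [IsDiscreteValuationRing O]
    [IsAdicComplete (IsLocalRing.maximalIdeal O) O] (P : PowerSeries O), P ≠ 0 →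
    ∃ (c : O) (D : O[X]) (U : PowerSeries O), c ≠ 0 ∧ D.Monic ∧
      (∀ i < D.natDegree, D.coeff i ∈ IsLocalRing.maximalIdeal O) ∧ IsUnit U ∧
      P = PowerSeries.C c * (D : PowerSeries O) * U

/-- the power series with coefficients in `V ∩ k'` for some finite extension `k'` of `k` -/
def E0 (k : Type) {κ : Type} [Field k] [Field κ] [Algebra k κ] (V : ValuationSubring κ) :
    Subring (PowerSeries κ) where
  carrier := {P | (∀ n, PowerSeries.coeff n P ∈ V) ∧ ∃ k' : IntermediateField k κ,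
    FiniteDimensional k k' ∧ ∀ n, PowerSeries.coeff n P ∈ k'}
  mul_mem' := by
    rintro P Q ⟨hP, k1, h1, hk1⟩ ⟨hQ, k2, h2, hk2⟩
    refine ⟨fun n => ?_, k1 ⊔ k2, ?_, fun n => ?_⟩
    · rw [PowerSeries.coeff_mul]
      exact sum_mem fun i _ => mul_mem (hP _) (hQ _)
    · exact IntermediateField.finiteDimensional_sup k1 k2
    · rw [PowerSeries.coeff_mul]
      exact sum_mem fun i _ => mul_mem ((le_sup_left : k1 ≤ k1 ⊔ k2) (hk1 _))
        ((le_sup_right : k2 ≤ k1 ⊔ k2) (hk2 _))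
  one_mem' := by
    refine ⟨fun n => ?_, ⊥, inferInstance, fun n => ?_⟩
    · rw [PowerSeries.coeff_one]; split_ifs
      · exact one_mem _
      · exact zero_mem _
    · rw [PowerSeries.coeff_one]; split_ifs
      · exact one_mem _
      · exact zero_mem _
  add_mem' := by
    rintro P Q ⟨hP, k1, h1, hk1⟩ ⟨hQ, k2, h2, hk2⟩
    refine ⟨fun n => ?_, k1 ⊔ k2, ?_, fun n => ?_⟩
    · rw [map_add]
      exact add_mem (hP _) (hQ _)
    · exact IntermediateField.finiteDimensional_sup k1 k2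
    · rw [map_add]
      exact add_mem ((le_sup_left : k1 ≤ k1 ⊔ k2) (hk1 _)) ((le_sup_right : k2 ≤ k1 ⊔ k2) (hk2 _))
  zero_mem' := ⟨fun n => by rw [map_zero]; exact zero_mem _, ⊥, inferInstance,
    fun n => by rw [map_zero]; exact zero_mem _⟩
  neg_mem' := by
    rintro P ⟨hP, k1, h1, hk1⟩
    exact ⟨fun n => by rw [map_neg]; exact neg_mem (hP _), k1, h1,
      fun n => by rw [map_neg]; exact neg_mem (hk1 _)⟩

/-- factorisation in `E0` -/
def S_DR1 : Prop :=
  ∀ (A k κ : Type) [CommRing A] [IsDomain A] [IsDiscreteValuationRing A] [Field k] [Field κ]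
    [Algebra A k] [Algebra k κ] [Algebra A κ] [IsScalarTower A k κ] (V : ValuationSubring κ),
    CDVR A k κ V →
    (∀ P ∈ E0 k V, P ≠ 0 → ∃ c ∈ V, c ≠ 0 ∧ ∃ P' ∈ E0 k V, P = PowerSeries.C c * P' ∧
      ∃ n, IsU V (PowerSeries.coeff n P')) ∧
    (∀ P ∈ E0 k V, (∃ n, IsU V (PowerSeries.coeff n P)) →
      ∃ (s : Multiset κ), (∀ p ∈ s, p ∈ V.nonunits) ∧ ∃ U ∈ E0 k V,
        IsU V (PowerSeries.coeff 0 U) ∧
        P = (s.map fun p => (PowerSeries.X : PowerSeries κ) - PowerSeries.C p).prod * U)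

/-- inverses and roots of units of `E0` -/
def S_DR2 : Prop :=
  ∀ (A k κ : Type) [CommRing A] [IsDomain A] [IsDiscreteValuationRing A] [Field k] [Field κ]
    [Algebra A k] [Algebra k κ] [Algebra A κ] [IsScalarTower A k κ] (V : ValuationSubring κ),
    CDVR A k κ V → ∀ U ∈ E0 k V, IsU V (PowerSeries.coeff 0 U) →
    (∃ U' ∈ E0 k V, U * U' = 1) ∧
    ∀ ℓ : ℕ, 0 < ℓ → IsUnit (ℓ : A) → ∃ W ∈ E0 k V, W ^ ℓ = U

/-- evaluation at a point of the disc -/
def S_DR3 : Prop :=
  ∀ (A k κ : Type) [CommRing A] [IsDomain A] [IsDiscreteValuationRing A] [Field k] [Field κ]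
    [Algebra A k] [Algebra k κ] [Algebra A κ] [IsScalarTower A k κ] (V : ValuationSubring κ),
    CDVR A k κ V → ∀ p ∈ V.nonunits,
    ∃ ev : E0 k V →+* κ, (∀ P, ev P ∈ V) ∧
      (∀ P : E0 k V, ev P - PowerSeries.coeff 0 (P : PowerSeries κ) ∈ V.nonunits) ∧
      (∀ c (hc : PowerSeries.C c ∈ E0 k V), ev ⟨_, hc⟩ = c) ∧
      (∀ hX : PowerSeries.X ∈ E0 k V, ev ⟨_, hX⟩ = p) ∧
      ∀ P : E0 k V, ev P = 0 → ∃ Q ∈ E0 k V,
        (P : PowerSeries κ) = (PowerSeries.X - PowerSeries.C p) * Q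

/-- the disc over a complete discrete valuation ring -/
def S_DISC : Prop :=
  ∀ (A k κ : Type) [CommRing A] [IsDomain A] [IsDiscreteValuationRing A] [Field k] [Field κ]
    [Algebra A k] [Algebra k κ] [Algebra A κ] [IsScalarTower A k κ] (V : ValuationSubring κ),
    CDVR A k κ V → ∀ (F : Type) [Field F] (r : V →+* F), Res V r →
    ∀ (ℓ : ℕ) [Fact ℓ.Prime], IsUnit (ℓ : A) → Nonempty (Disc ℓ V r)

end Pool.Agent.Y157.PS
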