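import Pool.Agent.Y157.PS.Stm5

/-!
# Pro-`ℓ` coverings of superelliptic curves: statements of the parts (6)

(helper157, project PS.)
-/

set_option autoImplicit false
set_option linter.all false

open Polynomial FF

namespace Pool.Agent.Y157.PS

/-- a section for `F` induces one for the maximal geometrically pro-`ℓ` extension of the subfield
`F₀ = k(x, y)` -/
def S_FUN : Prop :=
  ∀ (ℓ : ℕ) [Fact ℓ.Prime] (k F Ω : Type) [Field k] [CharZero k] [Field F] [Field Ω] [Algebra k F]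
    [Algebra F Ω] [Algebra k Ω] [IsScalarTower k F Ω] [IsAlgClosed Ω] [Algebra.IsAlgebraic F Ω]
    (U : Set (ValuationSubring F)), (∀ O ∈ U, ∀ c : k, algebraMap k F c ∈ O) →
    ∀ (G : Pool.Agent.W620.SC.GSection k F Ω U) (x y : F), Transcendental k x →
    IsAlgebraic (IntermediateField.adjoin k {x}) y →
    ∃ (F₀ Ω₀ : Type) (_ : Field F₀) (_ : Field Ω₀) (_ : Algebra k F₀) (_ : Algebra F₀ Ω₀)
      (_ : Algebra k Ω₀) (_ : IsScalarTower k F₀ Ω₀) (_ : IsAlgClosed Ω₀)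
      (_ : Algebra.IsAlgebraic F₀ Ω₀) (i : F₀ →ₐ[k] F) (x₀ y₀ : F₀),
      i x₀ = x ∧ i y₀ = y ∧ IntermediateField.adjoin k {x₀, y₀} = (⊤ : IntermediateField k F₀) ∧
      ∃ S : (algebraicClosure k Ω₀ ≃ₐ[k] algebraicClosure k Ω₀) →*
          (geomPro ℓ k F₀ Ω₀ ≃ₐ[F₀] geomPro ℓ k F₀ Ω₀), Continuous S ∧
        ∀ σ (c : algebraicClosure k Ω₀) (z : geomPro ℓ k F₀ Ω₀), (z : Ω₀) = (c : Ω₀) →
          (S σ z : Ω₀) = (σ c : Ω₀)

end Pool.Agent.Y157.PS
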