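import Pool.Agent.Y157.PS.Num

/-! # Sections of superelliptic curves without branch points over the residue field -/

set_option autoImplicit false
set_option linter.all false

open Polynomial FF

namespace Pool.Agent.Y157.PS

theorem mem_range_of_pow {R E : Type} [Field R] [Fintype R] [Field E] (i : R →+* E) (z : E)
    (hz : z ^ Fintype.card R = z) : ∃ a, i a = z := by
  classical
  have hroots := FiniteField.roots_X_pow_card_sub_X R
  have hcard : (1 : ℕ) < Fintype.card R := Fintype.one_lt_card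
  have hmon : (X ^ Fintype.card R - X : R[X]).Monic := by
    refine monic_X_pow_sub ?_
    rw [degree_X]
    exact_mod_cast hcard
  have h1 : (Multiset.map (fun a => X - C a) (X ^ Fintype.card R - X : R[X]).roots).prod =
      X ^ Fintype.card R - X := by
    refine prod_multiset_X_sub_C_of_monic_of_roots_card_eq hmon ?_
    rw [hroots, FiniteField.X_pow_card_sub_X_natDegree_eq R hcard]
    rfl
  have h2 : ∏ a : R, (z - i a) = 0 := by
    have h3 := congrArg (fun p : R[X] => p.eval₂ i z) h1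
    simp only [eval₂_sub, eval₂_pow, eval₂_X] at h3
    rw [hz, sub_self, hroots] at h3
    rw [← h3]
    change _ = eval₂ i z (∏ a : R, (X - C a))
    rw [eval₂_finsetProd]
    refine Finset.prod_congr rfl fun a _ => ?_
    rw [eval₂_sub, eval₂_X, eval₂_C]
  obtain ⟨a, -, ha⟩ := Finset.prod_eq_zero_iff.1 h2
  exact ⟨a, (sub_eq_zero.1 ha).symm⟩

theorem root_mod {A k κ : Type} [CommRing A] [IsDomain A] [IsDiscreteValuationRing A] [Field k]
    [Field κ] [Algebra A k] [Algebra k κ] [IsFractionRing A k]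
    [CharZero k] [IsAlgClosure k κ] [Finite (IsLocalRing.ResidueField A)]
    (V : ValuationSubring κ) (hVA : ∀ a : A, algebraMap k κ (algebraMap A k a) ∈ V)
    (hVm : ∀ a ∈ IsLocalRing.maximalIdeal A, algebraMap k κ (algebraMap A k a) ∈ V.nonunits)
    (f : A[X]) (hlc : IsUnit f.leadingCoeff) (e : κ)
    (he : aeval e (f.map (algebraMap A k)) = 0)
    (hfix : ∀ σ : κ ≃ₐ[k] κ, Dec V σ → σ e = e) :
    ∃ a : A, f.eval a ∈ IsLocalRing.maximalIdeal A := by
  classical
  letI : Algebra A κ := ((algebraMap k κ).comp (algebraMap A k)).toAlgebra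
  have hst : IsScalarTower A k κ := IsScalarTower.of_algebraMap_eq fun _ => rfl
  obtain ⟨φ, hφ1, hφ2⟩ := Pool.Agent.Y183.PS.fro A k κ V hVA hVm
  have hAV : ∀ a : A, algebraMap A κ a ∈ V := hVA
  let g : A →+* V := (algebraMap A κ).codRestrict V.toSubring hAV
  have hg : V.subtype.comp g = algebraMap A κ := rfl
  have hfe : f.eval₂ (algebraMap A κ) e = 0 := by
    rw [aeval_def, eval₂_map] at he
    exact he
  have heV : e ∈ V := by
    obtain ⟨u, hu⟩ := hlc
    have hint : IsIntegral V e := by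
      refine ⟨(C (↑u⁻¹ : A) * f).map g, ?_, ?_⟩
      · refine Monic.map _ ?_
        rw [Monic, leadingCoeff_C_mul_of_isUnit (Units.isUnit _), ← hu, Units.inv_mul]
      · rw [eval₂_map]
        change eval₂ (algebraMap A κ) e _ = 0
        rw [eval₂_mul, hfe, mul_zero]
    obtain ⟨y, hy⟩ := IsIntegrallyClosed.isIntegral_iff.1 hint
    rw [← hy]
    exact y.2
  let ρ : A →+* IsLocalRing.ResidueField V := (IsLocalRing.residue V).comp g
  have hρ : ∀ a : A, a ∈ IsLocalRing.maximalIdeal A → ρ a = 0 := by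
    intro a ha
    rw [RingHom.comp_apply, IsLocalRing.residue_eq_zero_iff]
    have h1 := hVm a ha
    rw [ValuationSubring.mem_nonunits_iff_exists_mem_maximalIdeal] at h1
    obtain ⟨_, h2⟩ := h1
    exact h2
  let i : IsLocalRing.ResidueField A →+* IsLocalRing.ResidueField V :=
    Ideal.Quotient.lift (IsLocalRing.maximalIdeal A) ρ hρ
  have hi : ∀ a, i (IsLocalRing.residue A a) = ρ a := fun a => rfl
  letI : Fintype (IsLocalRing.ResidueField A) := Fintype.ofFinite _
  have hz : (IsLocalRing.residue V ⟨e, heV⟩) ^ Fintype.card (IsLocalRing.ResidueField A) =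
      IsLocalRing.residue V ⟨e, heV⟩ := by
    have h1 := hφ2 e heV
    rw [hfix φ hφ1, Nat.card_eq_fintype_card] at h1
    have h2 := (residue_zero_iff (O := V) (⟨e, heV⟩ - ⟨e, heV⟩ ^
      Fintype.card (IsLocalRing.ResidueField A))).2 h1
    rw [map_sub, map_pow, sub_eq_zero] at h2
    exact h2.symm
  obtain ⟨r, hr⟩ := mem_range_of_pow i _ hz
  obtain ⟨a, rfl⟩ := IsLocalRing.residue_surjective r
  refine ⟨a, ?_⟩
  rw [← IsLocalRing.residue_eq_zero_iff, ← map_eq_zero_iff i i.injective, hi]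
  have h3 : ρ (f.eval a) = (f.map ρ).eval (ρ a) := by
    rw [eval_map, eval₂_at_apply]
  rw [h3, ← hi a, hr]
  have h4 : IsLocalRing.residue V ((f.map g).eval (⟨e, heV⟩ : V)) = 0 := by
    have h5 : (f.map g).eval (⟨e, heV⟩ : V) = 0 := by
      apply Subtype.ext
      have h6 : V.subtype ((f.map g).eval (⟨e, heV⟩ : V)) = eval₂ (algebraMap A κ) e f := by
        rw [eval_map, hom_eval₂, hg]
        rfl
      exact h6.trans hfe
    rw [h5, map_zero]
  rw [← eval₂_at_apply, ← eval_map, Polynomial.map_map] at h4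
  exact h4

theorem exists_V (A k κ : Type) [CommRing A] [IsDomain A] [IsDiscreteValuationRing A] [Field k]
    [Field κ] [Algebra A k] [Algebra k κ] [IsFractionRing A k] :
    ∃ V : ValuationSubring κ, (∀ a : A, algebraMap k κ (algebraMap A k a) ∈ V) ∧
      ∀ a ∈ IsLocalRing.maximalIdeal A, algebraMap k κ (algebraMap A k a) ∈ V.nonunits := by
  obtain ⟨V, hV⟩ := a_extv k κ (ValuationRing.valuation A k).valuationSubring
  have h0 : ∀ z : k, z ∈ (ValuationRing.valuation A k).valuationSubring ↔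
      ∃ a : A, algebraMap A k a = z := fun z => by
    rw [Valuation.mem_valuationSubring_iff]
    exact ValuationRing.mem_integer_iff A k z
  refine ⟨V, fun a => ?_, fun a ha => ?_⟩
  · have h1 : algebraMap A k a ∈ V.comap (algebraMap k κ) := by
      rw [hV, h0]
      exact ⟨a, rfl⟩
    exact h1
  · rw [← non_incl, hV, nonunits_iff, h0, h0]
    refine ⟨⟨a, rfl⟩, ?_⟩
    by_cases ha0 : algebraMap A k a = 0
    · exact Or.inl ha0
    · right
      rintro ⟨b, hb⟩
      have h2 : a * b = 1 := by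
        apply IsFractionRing.injective A k
        rw [map_mul, hb, mul_inv_cancel₀ ha0, map_one]
      exact (IsLocalRing.mem_maximalIdeal _).1 ha (IsUnit.of_mul_eq_one _ h2)

section main

variable {A k F Ω : Type} [CommRing A] [IsDomain A] [IsDiscreteValuationRing A]
    [Finite (IsLocalRing.ResidueField A)] [Field k] [CharZero k] [Algebra A k] [IsFractionRing A k]
    [Field F] [Field Ω] [Algebra k F] [Algebra F Ω] [Algebra k Ω] [IsScalarTower k F Ω]
    [IsAlgClosed Ω] [Algebra.IsAlgebraic F Ω]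

/-- no sections of the geometrically pro-`ℓ` group -/
theorem locE {ℓ : ℕ} [Fact ℓ.Prime] (hℓ : IsUnit (ℓ : A)) (f : A[X]) (hlc : IsUnit f.leadingCoeff)
    (hs : (f.map (IsLocalRing.residue A)).Separable) (hdvd : ℓ ∣ f.natDegree)
    (h3 : 3 ≤ f.natDegree) (hroot : ∀ b : A, f.eval b ∉ IsLocalRing.maximalIdeal A)
    (ϖ : A) (hϖ : Irreducible ϖ) (d : k) (m : ℤ) (hm : ¬ (ℓ : ℤ) ∣ m)
    (t : A) (ht : IsUnit t) (hd : d = algebraMap A k t * algebraMap A k ϖ ^ m)
    (x y : F) (hx : Transcendental k x)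
    (hxy : algebraMap k F d * y ^ ℓ = aeval x (f.map (algebraMap A k)))
    (hF : IntermediateField.adjoin k {x, y} = (⊤ : IntermediateField k F))
    (M : IntermediateField F Ω) (hM : geomPro ℓ k F Ω ≤ M)
    (S : (algebraicClosure k Ω ≃ₐ[k] algebraicClosure k Ω) →* (M ≃ₐ[F] M)) (hcont : Continuous S)
    (hcompat : ∀ σ (c : algebraicClosure k Ω) (z : M), (z : Ω) = (c : Ω) →
      (S σ z : Ω) = (σ c : Ω)) : False := by
  obtain ⟨V, hVA, hVm⟩ := exists_V A k (algebraicClosure k Ω)
  obtain ⟨W, ⟨⟨h1, ⟨e, he, hfix, -⟩, h4⟩, -⟩, -⟩ := numM V hVA hVm hℓ f hlc hs hdvd h3 ϖ hϖ d m hm t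
    ht hd x y hx hxy hF M hM S hcont hcompat
  obtain ⟨a, ha⟩ := root_mod V hVA hVm f hlc e he hfix
  exact hroot a ha

end main

end Pool.Agent.Y157.PS
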