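import Pool.Agent.Y157.PS.Sup
import Pool.Agent.Y157.PS.Stm6
import Pool.Agent.W623.SecE.Glb
import Pool.Agent.W623.SecC.Pts

/-! # Superelliptic curves without sections -/

set_option autoImplicit false
set_option linter.all false

open Polynomial FF

namespace Pool.Agent.Y157.PS

section pts

variable {A k : Type} [CommRing A] [IsDomain A] [IsDiscreteValuationRing A]
    [Field k] [Algebra A k] [IsFractionRing A k]

open Pool.Agent.W623.SecC in
/-- the values of a polynomial without roots modulo the maximal ideal -/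
lemma eval_dvd {ℓ : ℕ} (ϖ : A) (hϖ : Irreducible ϖ) (f : A[X]) (hlc : IsUnit f.leadingCoeff)
    (hev : ℓ ∣ f.natDegree) (hroot : ∀ b : A, f.eval b ∉ IsLocalRing.maximalIdeal A) (x : k) :
    ∃ (u : A) (j : ℤ), IsUnit u ∧
      (f.map (algebraMap A k)).eval x = algebraMap A k u * algebraMap A k ϖ ^ ((ℓ : ℤ) * j) := by
  rcases mem_or_inv ϖ hϖ x with ⟨b, rfl⟩ | ⟨hx, b, hb, hbx⟩
  · refine ⟨f.eval b, 0, ?_, ?_⟩
    · by_contra h
      exact hroot b ((IsLocalRing.mem_maximalIdeal _).2 h)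
    · rw [mul_zero, zpow_zero, mul_one, eval_map, eval₂_at_apply]
  · obtain ⟨v, l, hl⟩ := exists_unit_zpow ϖ hϖ x hx
    obtain ⟨n, hn⟩ := hev
    have hr : IsUnit ((reverse f).eval b) := by
      by_contra h
      have h1 : (reverse f).eval b ∈ IsLocalRing.maximalIdeal A :=
        (IsLocalRing.mem_maximalIdeal _).2 h
      rw [← divX_mul_X_add (reverse f), eval_add, eval_mul, eval_X, eval_C,
        coeff_zero_reverse] at h1
      have h2 : f.leadingCoeff ∈ IsLocalRing.maximalIdeal A := by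
        have h3 := Ideal.mul_mem_left (IsLocalRing.maximalIdeal A)
          (eval b (reverse f).divX) hb
        exact (Ideal.add_mem_iff_right _ h3).1 h1
      exact (IsLocalRing.mem_maximalIdeal _).1 h2 hlc
    refine ⟨(reverse f).eval b * (v : A) ^ f.natDegree, l * n, hr.mul (v.isUnit.pow _), ?_⟩
    let _ := invertibleOfNonzero hx
    have h2 := Polynomial.eval₂_reverse_mul_pow (algebraMap A k) x f
    rw [invOf_eq_inv, ← hbx, eval₂_at_apply] at h2
    rw [eval_map, ← h2, map_mul, map_pow]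
    have h3 : x ^ f.natDegree = algebraMap A k v ^ f.natDegree *
        algebraMap A k ϖ ^ ((ℓ : ℤ) * (l * n)) := by
      rw [hl, mul_pow, ← zpow_natCast (algebraMap A k ϖ ^ l), ← zpow_mul]
      congr 2
      rw [hn]
      push_cast
      ring
    rw [h3]
    ring

open Pool.Agent.W623.SecC in
/-- no points -/
theorem no_pt {ℓ : ℕ} (hℓ : 0 < ℓ) (ϖ : A) (hϖ : Irreducible ϖ) (f : A[X])
    (hlc : IsUnit f.leadingCoeff)
    (hev : ℓ ∣ f.natDegree) (hroot : ∀ b : A, f.eval b ∉ IsLocalRing.maximalIdeal A)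
    (a : k) (t : A) (ht : IsUnit t) (m : ℤ) (hm : ¬ (ℓ : ℤ) ∣ m)
    (ha : a = algebraMap A k t * algebraMap A k ϖ ^ m) (x y : k) :
    a * y ^ ℓ ≠ (f.map (algebraMap A k)).eval x := by
  intro h
  obtain ⟨u, j, hu, huj⟩ := eval_dvd ϖ hϖ f hlc hev hroot x
  have hϖk : algebraMap A k ϖ ≠ 0 := by
    rw [Ne, map_eq_zero_iff _ (IsFractionRing.injective A k)]
    exact hϖ.ne_zero
  have huk : algebraMap A k u ≠ 0 := (hu.map (algebraMap A k)).ne_zero
  have hy : y ≠ 0 := by
    rintro rfl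
    rw [zero_pow (by omega), mul_zero, huj] at h
    exact mul_ne_zero huk (zpow_ne_zero _ hϖk) h.symm
  obtain ⟨v, l, rfl⟩ := exists_unit_zpow ϖ hϖ y hy
  obtain ⟨t, rfl⟩ := ht
  obtain ⟨u, rfl⟩ := hu
  have h1 : algebraMap A k ϖ ^ (m + ℓ * l - ℓ * j) =
      algebraMap A k ((u * t⁻¹ * (v⁻¹) ^ ℓ : Aˣ) : A) := by
    have hinv : ∀ w : Aˣ, algebraMap A k ((w⁻¹ : Aˣ) : A) = (algebraMap A k (w : A))⁻¹ := by
      intro w
      refine (inv_eq_of_mul_eq_one_right ?_).symm
      rw [← map_mul, Units.mul_inv, map_one]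
    have hne : ∀ w : Aˣ, algebraMap A k (w : A) ≠ 0 := fun w =>
      (w.isUnit.map (algebraMap A k)).ne_zero
    rw [ha, huj, mul_pow] at h
    have h2 : (algebraMap A k ϖ ^ l) ^ ℓ = algebraMap A k ϖ ^ ((ℓ : ℤ) * l) := by
      rw [mul_comm, zpow_mul, zpow_natCast]
    rw [h2] at h
    rw [Units.val_mul, Units.val_mul, Units.val_pow_eq_pow_val, map_mul, map_mul, map_pow, hinv,
      hinv, zpow_sub₀ hϖk, zpow_add₀ hϖk]
    have h3 := hne t
    have h4 := hne v
    have h5 : algebraMap A k ϖ ^ ((ℓ : ℤ) * j) ≠ 0 := zpow_ne_zero _ hϖk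
    have h6 : algebraMap A k v ^ ℓ ≠ 0 := pow_ne_zero _ h4
    rw [inv_pow, div_eq_iff h5, ← sub_eq_zero]
    have h7 : (algebraMap A k v ^ ℓ)⁻¹ * algebraMap A k v ^ ℓ = 1 := inv_mul_cancel₀ h6
    have h8 : (algebraMap A k (t : A))⁻¹ * algebraMap A k (t : A) = 1 := inv_mul_cancel₀ h3
    linear_combination (algebraMap A k (t : A))⁻¹ * (algebraMap A k v ^ ℓ)⁻¹ * h +
      (-(algebraMap A k ϖ ^ m * algebraMap A k ϖ ^ ((ℓ : ℤ) * l)) *
        ((algebraMap A k v ^ ℓ)⁻¹ * algebraMap A k v ^ ℓ)) * h8 -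
      (algebraMap A k ϖ ^ m * algebraMap A k ϖ ^ ((ℓ : ℤ) * l)) * h7
  have h2 := zpow_unit_eq ϖ hϖ _ (Units.isUnit _) _ h1
  apply hm
  exact ⟨j - l, by linear_combination h2⟩

/-- no points at infinity -/
theorem no_inf {ℓ : ℕ} (hℓ : 0 < ℓ) (ϖ : A) (hϖ : Irreducible ϖ) (f : A[X])
    (hlc : IsUnit f.leadingCoeff)
    (a : k) (t : A) (ht : IsUnit t) (m : ℤ) (hm : ¬ (ℓ : ℤ) ∣ m)
    (ha : a = algebraMap A k t * algebraMap A k ϖ ^ m) (r : k) :
    a * r ^ ℓ ≠ algebraMap A k f.leadingCoeff := by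
  intro h
  have hroot : ∀ b : A, (C f.leadingCoeff : A[X]).eval b ∉ IsLocalRing.maximalIdeal A := by
    intro b hb
    rw [eval_C] at hb
    exact (IsLocalRing.mem_maximalIdeal _).1 hb hlc
  refine no_pt hℓ ϖ hϖ (C f.leadingCoeff : A[X]) (by rwa [leadingCoeff_C])
    (by rw [natDegree_C]; exact dvd_zero _) hroot a t ht m hm ha 0 r ?_
  rw [map_C, eval_C]
  exact h

end pts

/-- the curve `a y^ℓ = f(x)` has neither points nor sections -/
def FineP (ℓ : ℕ) {k : Type} [Field k] (a : k) (f : k[X]) : Prop :=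
  (∀ (F Ω : Type) [Field F] [Field Ω] [Algebra k F] [Algebra F Ω] [Algebra k Ω]
    [IsScalarTower k F Ω] [IsAlgClosed Ω] [Algebra.IsAlgebraic F Ω] (x y : F),
    Transcendental k x → algebraMap k F a * y ^ ℓ = aeval x f →
    IntermediateField.adjoin k {x, y} = (⊤ : IntermediateField k F) →
    ∀ (M : IntermediateField F Ω), geomPro ℓ k F Ω ≤ M →
    ∀ (S : (algebraicClosure k Ω ≃ₐ[k] algebraicClosure k Ω) →* (M ≃ₐ[F] M)), Continuous S →
    ¬ ∀ σ (c : algebraicClosure k Ω) (z : M), (z : Ω) = (c : Ω) → (S σ z : Ω) = (σ c : Ω)) ∧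
  (∀ (F Ω : Type) [Field F] [Field Ω] [Algebra k F] [Algebra F Ω] [Algebra k Ω]
    [IsScalarTower k F Ω] [IsAlgClosed Ω] [Algebra.IsAlgebraic F Ω]
    (U : Set (ValuationSubring F)), (∀ O ∈ U, ∀ c : k, algebraMap k F c ∈ O) →
    ∀ x y : F, algebraMap k F a * y ^ ℓ = aeval x f →
      IsEmpty (Pool.Agent.W620.SC.GSection k F Ω U)) ∧
  (∀ x y : k, a * y ^ ℓ ≠ f.eval x) ∧ ∀ r : k, a * r ^ ℓ ≠ f.leadingCoeff

theorem fineP (hFUN : S_FUN) {A k : Type} [CommRing A] [IsDomain A] [IsDiscreteValuationRing A]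
    [Finite (IsLocalRing.ResidueField A)] [Field k] [CharZero k] [Algebra A k] [IsFractionRing A k]
    {ℓ : ℕ} [Fact ℓ.Prime] (hℓ : IsUnit (ℓ : A)) (f : A[X]) (hlc : IsUnit f.leadingCoeff)
    (hs : (f.map (IsLocalRing.residue A)).Separable) (hdvd : ℓ ∣ f.natDegree)
    (h3 : 3 ≤ f.natDegree) (hroot : ∀ b : A, f.eval b ∉ IsLocalRing.maximalIdeal A)
    (ϖ : A) (hϖ : Irreducible ϖ) (d : k) (m : ℤ) (hm : ¬ (ℓ : ℤ) ∣ m)
    (t : A) (ht : IsUnit t) (hd : d = algebraMap A k t * algebraMap A k ϖ ^ m) :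
    FineP ℓ d (f.map (algebraMap A k)) := by
  have hℓ0 : 0 < ℓ := (Fact.out : ℓ.Prime).pos
  have hd0 : d ≠ 0 := by
    rw [hd]
    refine mul_ne_zero ?_ (zpow_ne_zero _ ?_)
    · rw [Ne, map_eq_zero_iff _ (IsFractionRing.injective A k)]
      exact ht.ne_zero
    · rw [Ne, map_eq_zero_iff _ (IsFractionRing.injective A k)]
      exact hϖ.ne_zero
  have hlc' : (f.map (algebraMap A k)).leadingCoeff = algebraMap A k f.leadingCoeff :=
    leadingCoeff_map_of_injective (IsFractionRing.injective A k) f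
  refine ⟨?_, ?_, no_pt hℓ0 ϖ hϖ f hlc hdvd hroot d t ht m hm hd, ?_⟩
  · intro F Ω _ _ _ _ _ _ _ _ x y hx hxy hF M hM S hcont hcompat
    exact locE hℓ f hlc hs hdvd h3 hroot ϖ hϖ d m hm t ht hd x y hx hxy hF M hM S hcont hcompat
  · intro F Ω _ _ _ _ _ _ _ _ U hU x y hxy
    refine ⟨fun G => ?_⟩
    by_cases hx : Transcendental k x
    · have hy : IsAlgebraic (IntermediateField.adjoin k {x}) y := by
        refine isAlgebraic_iff_isIntegral.2 (IsIntegral.of_pow hℓ0 ?_)
        have h1 : y ^ ℓ ∈ IntermediateField.adjoin k {x} := by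
          have h2 : y ^ ℓ = (algebraMap k F d)⁻¹ * aeval x (f.map (algebraMap A k)) := by
            rw [← hxy, inv_mul_cancel_left₀ ((_root_.map_ne_zero _).2 hd0)]
          rw [h2]
          refine mul_mem (inv_mem (IntermediateField.algebraMap_mem _ d)) ?_
          have h3 : aeval x (f.map (algebraMap A k)) = algebraMap (IntermediateField.adjoin k {x}) F
              (aeval (IntermediateField.AdjoinSimple.gen k x) (f.map (algebraMap A k))) := by
            rw [← aeval_algebraMap_apply]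
            rfl
          rw [h3]
          exact (aeval (IntermediateField.AdjoinSimple.gen k x) (f.map (algebraMap A k))).2
        exact isIntegral_algebraMap (x := (⟨_, h1⟩ : IntermediateField.adjoin k {x}))
      obtain ⟨F₀, Ω₀, _, _, _, _, _, _, _, _, i, x₀, y₀, hix, hiy, htop, S, hS, hScompat⟩ :=
        hFUN ℓ k F Ω U hU G x y hx hy
      have hx0 : Transcendental k x₀ := by
        intro halg
        apply hx
        rw [← hix]
        exact (isAlgebraic_algHom_iff i i.toRingHom.injective).2 halg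
      have hxy0 : algebraMap k F₀ d * y₀ ^ ℓ = aeval x₀ (f.map (algebraMap A k)) := by
        apply i.toRingHom.injective
        have e1 : i (algebraMap k F₀ d * y₀ ^ ℓ) = i (aeval x₀ (f.map (algebraMap A k))) := by
          rw [map_mul, map_pow, hiy, AlgHom.commutes, hxy, ← hix, aeval_algHom_apply]
        exact e1
      exact locE hℓ f hlc hs hdvd h3 hroot ϖ hϖ d m hm t ht hd x₀ y₀ hx0 hxy0 htop _ le_rfl S hS
        hScompat
    · rw [Transcendental, not_not] at hx
      obtain ⟨x', rfl⟩ := Pool.Agent.W623.SecE.alg_mem_base G x hx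
      have h1 : y ^ ℓ = algebraMap k F ((f.map (algebraMap A k)).eval x' / d) := by
        rw [aeval_algebraMap_apply, aeval_def, Algebra.algebraMap_self, eval₂_id] at hxy
        rw [map_div₀, eq_div_iff ((_root_.map_ne_zero _).2 hd0)]
        linear_combination hxy
      have hy : IsAlgebraic k y := by
        apply IsAlgebraic.of_pow hℓ0
        rw [h1]
        exact isAlgebraic_algebraMap _
      obtain ⟨y', rfl⟩ := Pool.Agent.W623.SecE.alg_mem_base G y hy
      refine no_pt hℓ0 ϖ hϖ f hlc hdvd hroot d t ht m hm hd x' y' ((algebraMap k F).injective ?_)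
      rw [map_mul, map_pow, hxy, aeval_algebraMap_apply, aeval_def, Algebra.algebraMap_self, eval₂_id]
  · intro r
    rw [hlc']
    exact no_inf hℓ0 ϖ hϖ f hlc d t ht m hm hd r

end Pool.Agent.Y157.PS
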